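import Pool.Agent.V5helper33.PR.OneLen

set_option autoImplicit false

/-!
# The criterion with runs of gaps (helper33)
-/

namespace Pool.Agent.V5helper33.PR

open Finset Filter Topology

/-- the `n`-th prime, numbered from `pr 0 = 2` -/
noncomputable def pr (n : ℕ) : ℕ := Nat.nth Nat.Prime n

/-- for all large `n`, the mean of the first `j` gaps after `p_n` is at most `(1 + ε) log p_n` for
some `1 ≤ j ≤ (log p_n) ^ a` -/
def Short (ε a : ℝ) : Prop := ∀ᶠ n : ℕ in atTop, ∃ j : ℕ, 1 ≤ j ∧ (j : ℝ) ≤ Real.log (pr n) ^ a ∧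
  (pr (n + j) : ℝ) - pr n ≤ (1 + ε) * (j * Real.log (pr n))

/-- for all large `n`, the mean of the first `k` gaps after `p_n` is at least `(1 - ε) log p_n` for
some `1 ≤ k ≤ (log p_n) ^ a` -/
def Long (ε a : ℝ) : Prop := ∀ᶠ n : ℕ in atTop, ∃ k : ℕ, 1 ≤ k ∧ (k : ℝ) ≤ Real.log (pr n) ^ a ∧
  (1 - ε) * (k * Real.log (pr n)) ≤ (pr (n + k) : ℝ) - pr n

lemma pr_prime (n : ℕ) : (pr n).Prime := Nat.nth_mem_of_infinite Nat.infinite_setOfPred_prime n

lemma pr_tendsto : Tendsto (fun n : ℕ => ((pr n : ℕ) : ℝ)) atTop atTop := by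
  apply tendsto_natCast_atTop_atTop.comp
  exact (Nat.nth_strictMono Nat.infinite_setOfPred_prime).tendsto_atTop

lemma log_pr_tendsto : Tendsto (fun n : ℕ => Real.log ((pr n : ℕ) : ℝ)) atTop atTop :=
  Real.tendsto_log_atTop.comp pr_tendsto

lemma count_pr_succ (n : ℕ) : Nat.count Nat.Prime (pr n + 1) = n + 1 := by
  unfold pr
  rw [Nat.count_succ, Nat.count_nth_of_infinite Nat.infinite_setOfPred_prime,
    if_pos (Nat.nth_mem_of_infinite Nat.infinite_setOfPred_prime n)]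

/-- from indices to primes -/
lemma ev_prime {Q : ℕ → Prop} (h : ∀ᶠ n : ℕ in atTop, Q (pr n)) :
    ∀ᶠ p : ℕ in atTop, p.Prime → Q p := by
  obtain ⟨N, hN⟩ := eventually_atTop.1 h
  filter_upwards [eventually_ge_atTop (pr N)] with p hp hpp
  have h1 : N ≤ Nat.count Nat.Prime p := by
    have h2 : Nat.count Nat.Prime (pr N) = N :=
      Nat.count_nth_of_infinite Nat.infinite_setOfPred_prime N
    rw [← h2]
    exact Nat.count_monotone _ hp
  have h3 := hN _ h1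
  unfold pr at h3
  rwa [Nat.nth_count hpp] at h3

/-- the primes in `(p_n, E]` -/
lemma cn_pr {n E N : ℕ} (hE : pr n ≤ E) (h : cn PP (pr n) E = N) :
    pr (n + N) ≤ E ∧ E < pr (n + N + 1) := by
  have h1 := cn_count hE
  rw [h, count_pr_succ] at h1
  constructor
  · have h2 : pr (n + N) < E + 1 := by
      unfold pr
      apply Nat.nth_lt_of_lt_count
      omega
    omega
  · have h3 : E + 1 ≤ pr (n + N + 1) := by
      unfold pr
      apply (Nat.count_le_iff_le_nth Nat.infinite_setOfPred_prime).1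
      show Nat.count Nat.Prime (E + 1) ≤ n + N + 1
      omega
    omega

lemma rat_cn {a x : ℝ} {s E : ℕ} (hs : s = ⌊x⌋₊) (hE : E = ⌊x + Real.log x ^ a⌋₊) (h : s ≤ E) :
    rat a x = Real.log x / Real.log x ^ a * cn PP s E := by
  unfold rat
  rw [← hE, ← hs, pc_cn h]

theorem short_of_lower (h : ∀ ε : ℝ, 0 < ε → ∃ a₀ : ℝ, ∀ a : ℝ, a₀ ≤ a →
    ∀ᶠ x : ℝ in atTop, 1 - ε ≤ rat a x) (ε : ℝ) (hε : 0 < ε) : ∃ a : ℝ, Short ε a := by
  obtain ⟨a, ha⟩ := h (ε / (1 + ε)) (by positivity)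
  refine ⟨a, ?_⟩
  have h1 := pr_tendsto.eventually (ha a le_rfl)
  filter_upwards [h1, log_pr_tendsto.eventually_ge_atTop 1] with n g1 g2
  obtain ⟨P, hP⟩ : ∃ P : ℕ, P = pr n := ⟨_, rfl⟩
  rw [← hP] at g1 g2 ⊢
  set l := Real.log (P : ℝ) with hl
  have hl0 : 0 < l := by linarith
  have hla : 0 < l ^ a := Real.rpow_pos_of_pos hl0 _
  obtain ⟨E, hE⟩ : ∃ E : ℕ, E = ⌊(P : ℝ) + l ^ a⌋₊ := ⟨_, rfl⟩
  have hPE : P ≤ E := by
    rw [hE]
    exact Nat.le_floor (by linarith)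
  rw [rat_cn (s := P) (E := E) (Nat.floor_natCast P).symm hE hPE] at g1
  obtain ⟨N, hN⟩ : ∃ N : ℕ, N = cn PP P E := ⟨_, rfl⟩
  rw [← hN] at g1
  have e1 : 1 - ε / (1 + ε) = 1 / (1 + ε) := by
    field_simp
    ring
  rw [e1, ← hl, div_mul_eq_mul_div, le_div_iff₀ hla, div_mul_eq_mul_div, one_mul,
    div_le_iff₀ (by positivity)] at g1
  have hN0 : 1 ≤ N := by
    by_contra hcon
    have : N = 0 := by omega
    rw [this] at g1
    push_cast at g1
    linarith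
  have hE1 : (E : ℝ) ≤ P + l ^ a := by rw [hE]; exact Nat.floor_le (by positivity)
  have h2 := cn_pr (n := n) (E := E) (N := N) (by rw [← hP]; exact hPE) (by rw [← hP, hN])
  have h3 : ((pr (n + N) : ℕ) : ℝ) ≤ E := by exact_mod_cast h2.1
  refine ⟨N, hN0, ?_, by linarith⟩
  have h4 := cn_le PP P E
  have h5 : (N : ℝ) ≤ (E : ℝ) - P := by
    rw [← Nat.cast_sub hPE]
    exact_mod_cast (by omega : N ≤ E - P)
  linarith

theorem long_of_upper (h : ∀ ε : ℝ, 0 < ε → ∃ a₀ : ℝ, ∀ a : ℝ, a₀ ≤ a →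
    ∀ᶠ x : ℝ in atTop, rat a x ≤ 1 + ε) (ε : ℝ) (hε : 0 < ε) : ∃ a : ℝ, Long ε a := by
  obtain ⟨a₀, ha⟩ := h ε hε
  obtain ⟨a, ha0, ha2⟩ : ∃ a : ℝ, a₀ ≤ a ∧ 2 ≤ a := ⟨max a₀ 2, le_max_left _ _, le_max_right _ _⟩
  refine ⟨a + 1, ?_⟩
  have h1 := pr_tendsto.eventually (ha a ha0)
  filter_upwards [h1, log_pr_tendsto.eventually_ge_atTop 2,
    log_pr_tendsto.eventually_ge_atTop (1 / (ε * ε))] with n g1 g2 g3
  obtain ⟨P, hP⟩ : ∃ P : ℕ, P = pr n := ⟨_, rfl⟩
  rw [← hP] at g1 g2 g3 ⊢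
  set l := Real.log (P : ℝ) with hl
  have hl0 : 0 < l := by linarith
  have hla : 0 < l ^ a := Real.rpow_pos_of_pos hl0 _
  obtain ⟨E, hE⟩ : ∃ E : ℕ, E = ⌊(P : ℝ) + l ^ a⌋₊ := ⟨_, rfl⟩
  have hPE : P ≤ E := by
    rw [hE]
    exact Nat.le_floor (by linarith)
  rw [rat_cn (s := P) (E := E) (Nat.floor_natCast P).symm hE hPE] at g1
  obtain ⟨N, hN⟩ : ∃ N : ℕ, N = cn PP P E := ⟨_, rfl⟩
  rw [← hN] at g1
  rw [← hl, div_mul_eq_mul_div, div_le_iff₀ hla] at g1
  have hE1 : (E : ℝ) ≤ P + l ^ a := by rw [hE]; exact Nat.floor_le (by positivity)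
  have hE2 : (P : ℝ) + l ^ a < E + 1 := by rw [hE]; exact Nat.lt_floor_add_one _
  have h2 := cn_pr (n := n) (E := E) (N := N) (by rw [← hP]; exact hPE) (by rw [← hP, hN])
  have h3 : (E : ℝ) + 1 ≤ ((pr (n + (N + 1)) : ℕ) : ℝ) := by exact_mod_cast h2.2
  have h4 := cn_le PP P E
  have h5 : (N : ℝ) ≤ (E : ℝ) - P := by
    rw [← Nat.cast_sub hPE]
    exact_mod_cast (by omega : N ≤ E - P)
  have h6 : l ^ a * 2 ≤ l ^ (a + 1) := by
    rw [Real.rpow_add hl0, Real.rpow_one]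
    exact mul_le_mul_of_nonneg_left g2 hla.le
  have h7 : l * l ≤ l ^ a := by
    calc l * l = l ^ (2 : ℝ) := by
          rw [show (2 : ℝ) = 1 + 1 by norm_num, Real.rpow_add hl0, Real.rpow_one]
      _ ≤ l ^ a := Real.rpow_le_rpow_of_exponent_le (by linarith) ha2
  have h8 : 1 ≤ l ^ a := Real.one_le_rpow (by linarith) (by linarith)
  refine ⟨N + 1, by omega, ?_, ?_⟩
  · push_cast
    linarith
  · have h9 : l ^ a ≤ ((pr (n + (N + 1)) : ℕ) : ℝ) - P := by linarith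
    refine le_trans ?_ h9
    by_cases hε1 : 1 ≤ ε
    · have : (1 - ε) * (((N + 1 : ℕ) : ℝ) * l) ≤ 0 :=
        mul_nonpos_of_nonpos_of_nonneg (by linarith) (by positivity)
      linarith
    · push Not at hε1
      push_cast
      have k1 : 1 ≤ ε * ε * l := by
        rw [div_le_iff₀ (by positivity)] at g3
        linarith
      have k2 : l ≤ ε * ε * l ^ a := by
        calc l = 1 * l := (one_mul l).symm
          _ ≤ ε * ε * l * l := mul_le_mul_of_nonneg_right k1 hl0.le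
          _ = ε * ε * (l * l) := by ring
          _ ≤ ε * ε * l ^ a := mul_le_mul_of_nonneg_left h7 (by positivity)
      calc (1 - ε) * (((N : ℝ) + 1) * l) = (1 - ε) * (l * N) + (1 - ε) * l := by ring
        _ ≤ (1 - ε) * ((1 + ε) * l ^ a) + 1 * l := by
            apply add_le_add
            · exact mul_le_mul_of_nonneg_left g1 (by linarith)
            · exact mul_le_mul_of_nonneg_right (by linarith) hl0.le
        _ = l ^ a - ε * ε * l ^ a + l := by ring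
        _ ≤ l ^ a := by linarith

theorem lower_of_short {ε a : ℝ} (hε : 0 < ε) (h : Short ε a) :
    ∀ b : ℝ, max a 0 + 2 < b → ∀ᶠ x : ℝ in atTop, 1 - ε ≤ rat b x := by
  intro b hb
  obtain ⟨c, hc⟩ : ∃ c : ℝ, c = max a 0 := ⟨_, rfl⟩
  rw [← hc] at hb
  have hc0 : 0 ≤ c := by rw [hc]; exact le_max_right _ _
  have hca : a ≤ c := by rw [hc]; exact le_max_left _ _
  refine lower_one (c + 2) b (1 / (1 + ε)) (1 - ε) (by linarith) hb ?_ ?_
  · rw [lt_div_iff₀ (by positivity)]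
    have : 0 < ε * ε := by positivity
    linarith
  · apply ev_prime (Q := fun p => ∃ u : ℕ, 1 ≤ u ∧ (u : ℝ) ≤ Real.log p ^ (c + 2) ∧
      1 / (1 + ε) * u ≤ cn PP p (p + u) * Real.log p)
    filter_upwards [h, log_pr_tendsto.eventually_ge_atTop (1 + ε)] with n g1 g2
    obtain ⟨j, hj1, hj2, hj3⟩ := g1
    set l := Real.log (pr n : ℝ) with hl
    have hl0 : 0 < l := by linarith
    have hlt : pr n < pr (n + j) := (Nat.nth_strictMono Nat.infinite_setOfPred_prime) (by omega)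
    have hcast : ((pr (n + j) - pr n : ℕ) : ℝ) = (pr (n + j) : ℝ) - pr n := Nat.cast_sub hlt.le
    refine ⟨pr (n + j) - pr n, by omega, ?_, ?_⟩
    · rw [hcast]
      refine hj3.trans ?_
      have k1 : (j : ℝ) ≤ l ^ c :=
        hj2.trans (Real.rpow_le_rpow_of_exponent_le (by linarith) hca)
      have k2 : l ^ (c + 2) = l * (l ^ c * l) := by
        rw [Real.rpow_add hl0, show (2 : ℝ) = 1 + 1 by norm_num, Real.rpow_add hl0, Real.rpow_one]
        ring
      rw [k2]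
      have k3 : 0 ≤ l ^ c := Real.rpow_nonneg hl0.le _
      calc (1 + ε) * (j * l) ≤ l * (j * l) := mul_le_mul_of_nonneg_right g2 (by positivity)
        _ ≤ l * (l ^ c * l) := by
            apply mul_le_mul_of_nonneg_left _ hl0.le
            exact mul_le_mul_of_nonneg_right k1 hl0.le
    · rw [hcast]
      have e1 : pr n + (pr (n + j) - pr n) = pr (n + j) := by omega
      have e2 : cn PP (pr n) (pr (n + j)) = j := run_count' n j
      rw [e1, e2, div_mul_eq_mul_div, one_mul, div_le_iff₀ (by positivity)]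
      linarith

theorem upper_of_long {ε ε1 a : ℝ} (hε : 0 < ε) (hε1 : ε1 < 1) (hε10 : 0 ≤ ε1)
    (hεε : 1 < (1 + ε) * (1 - ε1)) (h : Long ε1 a) :
    ∀ b : ℝ, max a 0 + 2 < b → ∀ᶠ x : ℝ in atTop, rat b x ≤ 1 + ε := by
  intro b hb
  obtain ⟨c, hc⟩ : ∃ c : ℝ, c = max a 0 := ⟨_, rfl⟩
  rw [← hc] at hb
  have hc0 : 0 ≤ c := by rw [hc]; exact le_max_right _ _
  have hca : a ≤ c := by rw [hc]; exact le_max_left _ _
  have h1ε : 0 < 1 - ε1 := by linarith
  refine upper_one (c + 2) b (1 / (1 - ε1)) (1 + ε) (by linarith) hb ?_ (by positivity) ?_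
  · rw [div_lt_iff₀ h1ε]
    exact hεε
  · apply ev_prime (Q := fun p => ∃ u : ℕ, 1 ≤ u ∧ (u : ℝ) ≤ Real.log p ^ (c + 2) ∧
      cn PP (p - 1) (p - 1 + u) * Real.log p ≤ 1 / (1 - ε1) * u)
    filter_upwards [h, log_pr_tendsto.eventually_ge_atTop 2] with n g1 g2
    obtain ⟨k, hk1, hk2, hk3⟩ := g1
    set l := Real.log (pr n : ℝ) with hl
    have hl0 : 0 < l := by linarith
    have hlt : pr n < pr (n + k) := (Nat.nth_strictMono Nat.infinite_setOfPred_prime) (by omega)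
    have hcast : ((pr (n + k) - pr n : ℕ) : ℝ) = (pr (n + k) : ℝ) - pr n := Nat.cast_sub hlt.le
    have hp2 : 2 ≤ pr n := (pr_prime n).two_le
    have hrc : cn PP (pr n - 1) (pr (n + k) - 1) = k := run_count n k
    by_cases hcase : (pr (n + k) : ℝ) - pr n ≤ l ^ (c + 2)
    · refine ⟨pr (n + k) - pr n, by omega, by rw [hcast]; exact hcase, ?_⟩
      have e1 : pr n - 1 + (pr (n + k) - pr n) = pr (n + k) - 1 := by omega
      rw [e1, hrc, hcast, div_mul_eq_mul_div, one_mul, le_div_iff₀ h1ε]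
      linarith
    · push Not at hcase
      have hL0 : 0 ≤ l ^ (c + 2) := Real.rpow_nonneg hl0.le _
      obtain ⟨u, hu⟩ : ∃ u : ℕ, u = ⌊l ^ (c + 2)⌋₊ := ⟨_, rfl⟩
      have hu1 : (u : ℝ) ≤ l ^ (c + 2) := by rw [hu]; exact Nat.floor_le hL0
      have hu2 : l ^ (c + 2) < u + 1 := by rw [hu]; exact Nat.lt_floor_add_one _
      have k0 : 1 ≤ l ^ c := Real.one_le_rpow (by linarith) hc0
      have k1 : (k : ℝ) ≤ l ^ c :=
        hk2.trans (Real.rpow_le_rpow_of_exponent_le (by linarith) hca)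
      have k2 : l ^ (c + 2) = l * (l ^ c * l) := by
        rw [Real.rpow_add hl0, show (2 : ℝ) = 1 + 1 by norm_num, Real.rpow_add hl0, Real.rpow_one]
        ring
      have k3 : 1 ≤ l ^ c * l := by nlinarith
      have k4 : 2 * (l ^ c * l) ≤ l ^ (c + 2) := by
        rw [k2]
        exact mul_le_mul_of_nonneg_right g2 (by linarith)
      have k5 : (k : ℝ) * l ≤ l ^ c * l := mul_le_mul_of_nonneg_right k1 hl0.le
      have k6 : (1 : ℝ) ≤ u := by
        have : (0 : ℝ) < u := by linarith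
        exact_mod_cast this
      refine ⟨u, by exact_mod_cast k6, hu1, ?_⟩
      have k7 : cn PP (pr n - 1) (pr n - 1 + u) ≤ k := by
        rw [← hrc]
        apply cn_mono PP le_rfl
        have : (u : ℝ) ≤ ((pr (n + k) - pr n : ℕ) : ℝ) := by
          rw [hcast]
          linarith
        have : u ≤ pr (n + k) - pr n := by exact_mod_cast this
        omega
      have k8 : (cn PP (pr n - 1) (pr n - 1 + u) : ℝ) * l ≤ k * l :=
        mul_le_mul_of_nonneg_right (by exact_mod_cast k7) hl0.le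
      have k9 : (1 : ℝ) * u ≤ 1 / (1 - ε1) * u := by
        apply mul_le_mul_of_nonneg_right _ (by linarith)
        rw [le_div_iff₀ h1ε]
        linarith
      linarith

lemma short_mono {ε a a' : ℝ} (h : a ≤ a') (hs : Short ε a) : Short ε a' := by
  filter_upwards [hs, log_pr_tendsto.eventually_ge_atTop 1] with n g1 g2
  obtain ⟨j, h1, h2, h3⟩ := g1
  exact ⟨j, h1, h2.trans (Real.rpow_le_rpow_of_exponent_le g2 h), h3⟩

lemma long_mono {ε a a' : ℝ} (h : a ≤ a') (hs : Long ε a) : Long ε a' := by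
  filter_upwards [hs, log_pr_tendsto.eventually_ge_atTop 1] with n g1 g2
  obtain ⟨j, h1, h2, h3⟩ := g1
  exact ⟨j, h1, h2.trans (Real.rpow_le_rpow_of_exponent_le g2 h), h3⟩

theorem lower_iff : (∀ ε : ℝ, 0 < ε → ∃ a₀ : ℝ, ∀ a : ℝ, a₀ ≤ a →
    ∀ᶠ x : ℝ in atTop, 1 - ε ≤ rat a x) ↔ ∀ ε : ℝ, 0 < ε → ∃ a : ℝ, Short ε a := by
  constructor
  · exact short_of_lower
  · intro h ε hε
    obtain ⟨a, ha⟩ := h ε hε
    exact ⟨max a 0 + 3, fun b hb => lower_of_short hε ha b (by linarith)⟩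

theorem upper_iff : (∀ ε : ℝ, 0 < ε → ∃ a₀ : ℝ, ∀ a : ℝ, a₀ ≤ a →
    ∀ᶠ x : ℝ in atTop, rat a x ≤ 1 + ε) ↔ ∀ ε : ℝ, 0 < ε → ∃ a : ℝ, Long ε a := by
  constructor
  · exact long_of_upper
  · intro h ε hε
    have h0 : 0 < ε / (2 * (1 + ε)) := by positivity
    have h1 : ε / (2 * (1 + ε)) < 1 := by
      rw [div_lt_one (by positivity)]
      linarith
    have h2 : 1 < (1 + ε) * (1 - ε / (2 * (1 + ε))) := by
      have : (1 + ε) * (1 - ε / (2 * (1 + ε))) = 1 + ε / 2 := by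
        field_simp
        ring
      rw [this]
      linarith
    obtain ⟨a, ha⟩ := h _ h0
    exact ⟨max a 0 + 3, fun b hb => upper_of_long hε h1 h0.le h2 ha b (by linarith)⟩

theorem both_iff : (∀ ε : ℝ, 0 < ε → ∃ a₀ : ℝ, ∀ a : ℝ, a₀ ≤ a →
    ∀ᶠ x : ℝ in atTop, |rat a x - 1| ≤ ε) ↔
      ∀ ε : ℝ, 0 < ε → ∃ a : ℝ, Short ε a ∧ Long ε a := by
  constructor
  · intro h ε hε
    obtain ⟨a, ha⟩ := lower_iff.1 (fun ε hε => by
      obtain ⟨a₀, ha₀⟩ := h ε hε
      refine ⟨a₀, fun a ha => ?_⟩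
      filter_upwards [ha₀ a ha] with x hx
      linarith [(abs_le.1 hx).1]) ε hε
    obtain ⟨b, hb⟩ := upper_iff.1 (fun ε hε => by
      obtain ⟨a₀, ha₀⟩ := h ε hε
      refine ⟨a₀, fun a ha => ?_⟩
      filter_upwards [ha₀ a ha] with x hx
      linarith [(abs_le.1 hx).2]) ε hε
    exact ⟨max a b, short_mono (le_max_left _ _) ha, long_mono (le_max_right _ _) hb⟩
  · intro h ε hε
    obtain ⟨a, ha⟩ := lower_iff.2 (fun ε hε => (h ε hε).imp fun a ha => ha.1) ε hε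
    obtain ⟨b, hb⟩ := upper_iff.2 (fun ε hε => (h ε hε).imp fun a ha => ha.2) ε hε
    refine ⟨max a b, fun c hc => ?_⟩
    filter_upwards [ha c ((le_max_left _ _).trans hc), hb c ((le_max_right _ _).trans hc)]
      with x h1 h2
    rw [abs_le]
    constructor <;> linarith

end Pool.Agent.V5helper33.PR
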