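import Pool.Agent.V5helper33.PR.LowHigh

set_option autoImplicit false

/-!
# Irregularities at all scales: windows of real length, and gaps between primes (helper33)
-/

namespace Pool.Agent.V5helper33.PR

open Finset Filter Topology

lemma cn_count {s t : ℕ} (h : s ≤ t) :
    cn PP s t + Nat.count Nat.Prime (s + 1) = Nat.count Nat.Prime (t + 1) := by
  classical
  rw [cn_prime, Nat.count_eq_card_filter_range, Nat.count_eq_card_filter_range, add_comm,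
    ← Finset.card_union_of_disjoint]
  · congr 1
    ext m
    simp only [mem_union, mem_filter, mem_range, mem_Ioc]
    constructor
    · rintro (⟨a, b⟩ | ⟨⟨a, b⟩, c⟩)
      · exact ⟨by omega, b⟩
      · exact ⟨by omega, c⟩
    · rintro ⟨a, b⟩
      by_cases hm : m < s + 1
      · exact Or.inl ⟨hm, b⟩
      · exact Or.inr ⟨⟨by omega, by omega⟩, b⟩
  · rw [disjoint_left]
    intro m hm hm'
    simp only [mem_filter, mem_range, mem_Ioc] at hm hm'
    omega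

/-- the elements of `A` in `(x, x + u]`, `u` real -/
lemma ncard_Ioc (A : Set ℕ) (x : ℕ) {u : ℝ} (hu : 0 ≤ u) :
    {m : ℕ | m ∈ A ∧ x < m ∧ (m : ℝ) ≤ x + u}.ncard = cn A x (x + ⌊u⌋₊) := by
  classical
  unfold cn
  rw [← Set.ncard_coe_finset]
  congr 1
  ext m
  simp only [Set.mem_ofPred_eq, coe_filter, mem_Ioc]
  constructor
  · rintro ⟨h1, h2, h3⟩
    refine ⟨⟨h2, ?_⟩, h1⟩
    rw [← Nat.sub_le_iff_le_add', Nat.le_floor_iff hu]
    rw [Nat.cast_sub h2.le]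
    linarith
  · rintro ⟨⟨h2, h3⟩, h1⟩
    refine ⟨h1, h2, ?_⟩
    rw [← Nat.sub_le_iff_le_add', Nat.le_floor_iff hu, Nat.cast_sub h2.le] at h3
    linarith

/-- the elements of `A` in `[x, x + u)`, `u` real -/
lemma ncard_Ico (A : Set ℕ) {x : ℕ} (hx : 1 ≤ x) {u : ℝ} (hu : 0 < u) :
    {m : ℕ | m ∈ A ∧ x ≤ m ∧ (m : ℝ) < x + u}.ncard = cn A (x - 1) (x - 1 + ⌈u⌉₊) := by
  classical
  unfold cn
  rw [← Set.ncard_coe_finset]
  congr 1
  ext m
  simp only [Set.mem_ofPred_eq, coe_filter, mem_Ioc]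
  constructor
  · rintro ⟨h1, h2, h3⟩
    refine ⟨⟨by omega, ?_⟩, h1⟩
    have h4 : ((m - x : ℕ) : ℝ) < u := by
      rw [Nat.cast_sub h2]
      linarith
    have h5 : m - x < ⌈u⌉₊ := Nat.lt_ceil.2 h4
    omega
  · rintro ⟨⟨h2, h3⟩, h1⟩
    have h2' : x ≤ m := by omega
    refine ⟨h1, h2', ?_⟩
    have h5 : m - x < ⌈u⌉₊ := by omega
    have h4 : ((m - x : ℕ) : ℝ) < u := Nat.lt_ceil.1 h5
    rw [Nat.cast_sub h2'] at h4
    linarith

/-- real windows from integral ones, few elements -/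
lemma few_real {A : Set ℕ} {x : ℕ} {M V c : ℝ} (hM : 0 < M) (hx : 0 < Real.log x)
    (hxM : Real.log x ≤ M) (hc : 0 ≤ c)
    (h : ∀ u : ℕ, 1 ≤ u → (u : ℝ) ≤ V → (cn A x (x + u) : ℝ) * M ≤ c * u) :
    ∀ u : ℝ, 0 < u → u ≤ V →
      ({m : ℕ | m ∈ A ∧ x < m ∧ (m : ℝ) ≤ x + u}.ncard : ℝ) ≤ c * (u / Real.log x) := by
  intro u hu hV
  rw [ncard_Ioc A x hu.le]
  have hf : (⌊u⌋₊ : ℝ) ≤ u := Nat.floor_le hu.le
  rcases Nat.eq_zero_or_pos ⌊u⌋₊ with h0 | h0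
  · rw [h0, add_zero]
    have : cn A x x = 0 := by
      have := cn_le A x x
      omega
    rw [this]
    push_cast
    positivity
  · have h1 := h ⌊u⌋₊ h0 (hf.trans hV)
    have h2 : (cn A x (x + ⌊u⌋₊) : ℝ) * Real.log x ≤ c * u := by
      calc (cn A x (x + ⌊u⌋₊) : ℝ) * Real.log x ≤ cn A x (x + ⌊u⌋₊) * M :=
            mul_le_mul_of_nonneg_left hxM (Nat.cast_nonneg _)
        _ ≤ c * ⌊u⌋₊ := h1
        _ ≤ c * u := mul_le_mul_of_nonneg_left hf hc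
    rw [← mul_div_assoc, le_div_iff₀ hx]
    exact h2

/-- real windows from integral ones, many elements -/
lemma many_real {A : Set ℕ} {x : ℕ} {L V c : ℝ} (hx1 : 1 ≤ x) (hL : 0 < L)
    (hLx : L ≤ Real.log x) (hc : 0 ≤ c)
    (h : ∀ u : ℕ, 1 ≤ u → (u : ℝ) ≤ V + 1 → c * u ≤ (cn A (x - 1) (x - 1 + u) : ℝ) * L) :
    ∀ u : ℝ, 0 < u → u ≤ V →
      c * (u / Real.log x) ≤ ({m : ℕ | m ∈ A ∧ x ≤ m ∧ (m : ℝ) < x + u}.ncard : ℝ) := by
  intro u hu hV
  rw [ncard_Ico A hx1 hu]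
  have hf : u ≤ ⌈u⌉₊ := Nat.le_ceil u
  have hf' : (⌈u⌉₊ : ℝ) < u + 1 := Nat.ceil_lt_add_one hu.le
  have h0 : 1 ≤ ⌈u⌉₊ := Nat.one_le_iff_ne_zero.2 (by
    intro h
    rw [Nat.ceil_eq_zero] at h
    linarith)
  have h1 := h ⌈u⌉₊ h0 (by linarith)
  rw [← mul_div_assoc, div_le_iff₀ (by linarith)]
  calc c * u ≤ c * ⌈u⌉₊ := mul_le_mul_of_nonneg_left hf hc
    _ ≤ _ := h1
    _ ≤ _ := mul_le_mul_of_nonneg_left hLx (Nat.cast_nonneg _)

lemma pow_step {M : ℝ} (hM : 2 ≤ M) (B : ℝ) : 2 * M ^ (B + 1) ≤ M ^ (B + 2) := by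
  have hM0 : 0 < M := by linarith
  have e : M ^ (B + 2) = M * M ^ (B + 1) := by
    rw [show B + 2 = 1 + (B + 1) by ring, Real.rpow_add hM0, Real.rpow_one]
  rw [e]
  exact mul_le_mul_of_nonneg_right hM (Real.rpow_nonneg hM0.le _)

/-- number of the primes in `[p i, p (i + j))` -/
lemma run_count (i j : ℕ) : cn PP (Nat.nth Nat.Prime i - 1) (Nat.nth Nat.Prime (i + j) - 1) = j := by
  have hp : ∀ k, 2 ≤ Nat.nth Nat.Prime k := fun k =>
    (Nat.nth_mem_of_infinite Nat.infinite_setOf_prime k).two_le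
  have h1 : Nat.nth Nat.Prime i ≤ Nat.nth Nat.Prime (i + j) :=
    (Nat.nth_monotone Nat.infinite_setOf_prime) (Nat.le_add_right i j)
  have h2 := cn_count (s := Nat.nth Nat.Prime i - 1) (t := Nat.nth Nat.Prime (i + j) - 1) (by omega)
  have e1 : Nat.nth Nat.Prime i - 1 + 1 = Nat.nth Nat.Prime i := by have := hp i; omega
  have e2 : Nat.nth Nat.Prime (i + j) - 1 + 1 = Nat.nth Nat.Prime (i + j) := by
    have := hp (i + j); omega
  rw [e1, e2, Nat.count_nth_of_infinite Nat.infinite_setOf_prime,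
    Nat.count_nth_of_infinite Nat.infinite_setOf_prime] at h2
  omega

/-- number of the primes in `(p i, p (i + j)]` -/
lemma run_count' (i j : ℕ) : cn PP (Nat.nth Nat.Prime i) (Nat.nth Nat.Prime (i + j)) = j := by
  have h1 : Nat.nth Nat.Prime i ≤ Nat.nth Nat.Prime (i + j) :=
    (Nat.nth_monotone Nat.infinite_setOf_prime) (Nat.le_add_right i j)
  have h2 := cn_count h1
  have e : ∀ k, Nat.count Nat.Prime (Nat.nth Nat.Prime k + 1) = k + 1 := fun k => by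
    rw [Nat.count_succ, Nat.count_nth_of_infinite Nat.infinite_setOf_prime,
      if_pos (Nat.nth_mem_of_infinite Nat.infinite_setOf_prime k)]
  rw [e, e] at h2
  omega

/-- gaps after a prime with many primes after it -/
lemma run_dense {L M B δ : ℝ} {i : ℕ} (hL : 2 ≤ L) (hLM : L ≤ M) (hδ : 0 < δ) (hδ1 : δ ≤ 1)
    (hp1 : L ≤ Real.log (Nat.nth Nat.Prime i : ℕ)) (hp2 : Real.log (Nat.nth Nat.Prime i : ℕ) ≤ M)
    (hB : 0 ≤ B)
    (h : ∀ u : ℕ, 1 ≤ u → (u : ℝ) ≤ M ^ (B + 2) + 1 → (1 + δ) * u ≤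
      (cn PP (Nat.nth Nat.Prime i - 1) (Nat.nth Nat.Prime i - 1 + u) : ℝ) * L) :
    ∀ j : ℕ, 1 ≤ j → (j : ℝ) ≤ Real.log (Nat.nth Nat.Prime i : ℕ) ^ B →
      ((Nat.nth Nat.Prime (i + j) : ℝ) - Nat.nth Nat.Prime i) ≤
        (1 - δ / 2) * (j * Real.log (Nat.nth Nat.Prime i : ℕ)) := by
  intro j hj hjB
  set P := Nat.nth Nat.Prime i with hP
  set Q := Nat.nth Nat.Prime (i + j) with hQ
  set l := Real.log (P : ℕ) with hl
  have hPQ : P < Q := (Nat.nth_strictMono Nat.infinite_setOf_prime) (by omega)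
  have hP2 : 2 ≤ P := (Nat.nth_mem_of_infinite Nat.infinite_setOf_prime i).two_le
  have hc := run_count i j
  rw [← hP, ← hQ] at hc
  have hM0 : 0 < M := by linarith
  obtain ⟨D, hD⟩ : ∃ D : ℕ, D = Q - P := ⟨_, rfl⟩
  have hDr : (D : ℝ) = (Q : ℝ) - P := by rw [hD, Nat.cast_sub hPQ.le]
  rw [← hDr]
  have hD1 : 1 ≤ D := by omega
  have hj0 : (0 : ℝ) ≤ j := Nat.cast_nonneg j
  by_cases hcase : (D : ℝ) ≤ M ^ (B + 2) + 1
  · have h1 := h D hD1 hcase
    have e : P - 1 + D = Q - 1 := by omega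
    rw [e, hc] at h1
    have h2 : (j : ℝ) * L ≤ j * l := mul_le_mul_of_nonneg_left hp1 hj0
    have h3 : (0 : ℝ) ≤ D := Nat.cast_nonneg D
    -- D ≤ (1 - δ/2) (1 + δ) D
    have h4 : (D : ℝ) ≤ (1 - δ / 2) * ((1 + δ) * D) := by
      have : 0 ≤ δ * (1 - δ) * D / 2 := by
        have : 0 ≤ 1 - δ := by linarith
        positivity
      nlinarith
    calc (D : ℝ) ≤ (1 - δ / 2) * ((1 + δ) * D) := h4
      _ ≤ (1 - δ / 2) * (j * l) := mul_le_mul_of_nonneg_left (by linarith) (by linarith)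
  · exfalso
    push Not at hcase
    have hMB : 0 ≤ M ^ (B + 2) := Real.rpow_nonneg hM0.le _
    obtain ⟨u, hu⟩ : ∃ u : ℕ, u = ⌊M ^ (B + 2)⌋₊ + 1 := ⟨_, rfl⟩
    have hu1 : M ^ (B + 2) < u := by rw [hu]; push_cast; exact Nat.lt_floor_add_one _
    have hu2 : (u : ℝ) ≤ M ^ (B + 2) + 1 := by
      rw [hu]
      push_cast
      linarith [Nat.floor_le hMB]
    have h1 := h u (by omega) hu2
    have huD : u ≤ D := by
      have : (u : ℝ) < D := by linarith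
      exact_mod_cast this.le
    have h2 : cn PP (P - 1) (P - 1 + u) ≤ j := by
      rw [← hc]
      exact cn_mono PP le_rfl (by omega)
    have h3 : (cn PP (P - 1) (P - 1 + u) : ℝ) * L ≤ j * L :=
      mul_le_mul_of_nonneg_right (by exact_mod_cast h2) (by linarith)
    have h4 : (j : ℝ) * L ≤ M ^ (B + 1) := by
      calc (j : ℝ) * L ≤ M ^ B * M := by
            apply mul_le_mul _ hLM (by linarith) (Real.rpow_nonneg hM0.le _)
            exact hjB.trans (Real.rpow_le_rpow (by linarith) hp2 hB)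
        _ = M ^ (B + 1) := by rw [Real.rpow_add hM0, Real.rpow_one]
    have h5 := pow_step (by linarith : (2 : ℝ) ≤ M) B
    have h6 : 0 ≤ M ^ (B + 1) := Real.rpow_nonneg hM0.le _
    have h7 : (0 : ℝ) ≤ u := Nat.cast_nonneg u
    nlinarith

/-- gaps after a prime with few primes after it -/
lemma run_sparse {M B δ : ℝ} {i : ℕ} (hM : 2 ≤ M) (hδ : 0 < δ) (hδ1 : δ ≤ 1)
    (hp0 : 0 ≤ Real.log (Nat.nth Nat.Prime i : ℕ))
    (hp2 : Real.log (Nat.nth Nat.Prime i : ℕ) ≤ M) (hB : 0 ≤ B)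
    (h : ∀ u : ℕ, 1 ≤ u → (u : ℝ) ≤ M ^ (B + 2) + 1 →
      (cn PP (Nat.nth Nat.Prime i) (Nat.nth Nat.Prime i + u) : ℝ) * M ≤ (1 - δ) * u) :
    ∀ j : ℕ, 1 ≤ j → (j : ℝ) ≤ Real.log (Nat.nth Nat.Prime i : ℕ) ^ B →
      (1 + δ) * (j * Real.log (Nat.nth Nat.Prime i : ℕ)) ≤
        ((Nat.nth Nat.Prime (i + j) : ℝ) - Nat.nth Nat.Prime i) := by
  intro j hj hjB
  set P := Nat.nth Nat.Prime i with hP
  set Q := Nat.nth Nat.Prime (i + j) with hQ
  set l := Real.log (P : ℕ) with hl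
  have hPQ : P < Q := (Nat.nth_strictMono Nat.infinite_setOf_prime) (by omega)
  have hc := run_count' i j
  rw [← hP, ← hQ] at hc
  have hM0 : 0 < M := by linarith
  obtain ⟨D, hD⟩ : ∃ D : ℕ, D = Q - P := ⟨_, rfl⟩
  have hDr : (D : ℝ) = (Q : ℝ) - P := by rw [hD, Nat.cast_sub hPQ.le]
  rw [← hDr]
  have hD1 : 1 ≤ D := by omega
  have hj0 : (0 : ℝ) ≤ j := Nat.cast_nonneg j
  have h2 : (j : ℝ) * l ≤ j * M := mul_le_mul_of_nonneg_left hp2 hj0
  by_cases hcase : (D : ℝ) ≤ M ^ (B + 2) + 1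
  · have h1 := h D hD1 hcase
    have e : P + D = Q := by omega
    rw [e, hc] at h1
    have h3 : (0 : ℝ) ≤ D := Nat.cast_nonneg D
    calc (1 + δ) * (j * l) ≤ (1 + δ) * (j * M) := mul_le_mul_of_nonneg_left h2 (by linarith)
      _ ≤ (1 + δ) * ((1 - δ) * D) := mul_le_mul_of_nonneg_left h1 (by linarith)
      _ = (1 - δ * δ) * D := by ring
      _ ≤ 1 * D := by
          apply mul_le_mul_of_nonneg_right _ h3
          nlinarith
      _ = D := one_mul _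
  · push Not at hcase
    have h4 : (j : ℝ) * l ≤ M ^ (B + 1) := by
      calc (j : ℝ) * l ≤ M ^ B * M := by
            apply mul_le_mul _ hp2 hp0 (Real.rpow_nonneg hM0.le _)
            exact hjB.trans (Real.rpow_le_rpow hp0 hp2 hB)
        _ = M ^ (B + 1) := by rw [Real.rpow_add hM0, Real.rpow_one]
    have h5 := pow_step hM B
    have h6 : 0 ≤ (j : ℝ) * l := mul_nonneg hj0 hp0
    nlinarith

end Pool.Agent.V5helper33.PR
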