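import Pool.Agent.V5helper33.PR.Many

set_option autoImplicit false

/-!
# Irregularities of the primes at all scales at the same place: few and many primes (helper33)
-/

namespace Pool.Agent.V5helper33.PR

open Finset Filter Topology
open Pool.Agent.N610.MS (R)

lemma R_nonneg {n Y : ℕ} (_hn : 1 ≤ n) (hY : 0 < Y) : 0 ≤ R n Y := by
  have h := R_cn (n := n) hY
  have h1 : 0 ≤ Real.log n := Real.log_natCast_nonneg n
  have h2 : 0 ≤ R n Y * Y := by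
    rw [← h]
    positivity
  have h3 : (0 : ℝ) < Y := by exact_mod_cast hY
  exact nonneg_of_mul_nonneg_left h2 h3

lemma R_le {n Y : ℕ} {C : ℝ} (hY : 0 < Y) (hC : Real.log n ≤ C) (_hn : 1 ≤ n) : R n Y ≤ C := by
  have h := R_cn (n := n) hY
  have h1 : 0 ≤ Real.log n := Real.log_natCast_nonneg n
  have h3 : (0 : ℝ) < Y := by exact_mod_cast hY
  have h4 : (cn PP n (n + Y) : ℝ) ≤ Y := by
    have := cn_le PP n (n + Y)
    exact_mod_cast (by omega : cn PP n (n + Y) ≤ Y)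
  have h5 : R n Y * Y ≤ C * Y := by
    rw [← h, mul_comm C]
    exact mul_le_mul h4 hC h1 h3.le
  exact le_of_mul_le_mul_right h5 h3

lemma cube_le {x : ℝ} (h0 : 0 ≤ x) (h1 : x ≤ 1) :
    (1 + x / 8) * (1 + x / 8) * (1 + x / 8) ≤ 1 + x / 2 := by
  have q5 : x * x ≤ x := by nlinarith
  have q6 : x * x * x ≤ x := by nlinarith [mul_nonneg h0 h0]
  have e : (1 + x / 8) * (1 + x / 8) * (1 + x / 8) =
      1 + 3 * x / 8 + 3 * (x * x) / 64 + x * x * x / 512 := by ring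
  rw [e]
  linarith

/-- places with few primes at all scales up to `(log 3 X) ^ B` -/
theorem low (B β : ℝ) (hB : 0 < B) (hβ : 0 < β) : ∃ δ : ℝ, 0 < δ ∧ δ ≤ 1 ∧ ∀ᶠ X : ℝ in atTop,
    ∃ G : Finset ℕ, X * Real.exp (-Real.log X ^ β) ≤ G.card ∧
      ∀ x ∈ G, X < x ∧ (x : ℝ) < 3 * X ∧
        ∀ u : ℕ, 1 ≤ u → (u : ℝ) ≤ Real.log (3 * X) ^ B + 1 →
          (cn PP x (x + u) : ℝ) * Real.log (3 * X) ≤ (1 - δ) * u := by
  classical
  obtain ⟨b, hb0, hbβ, hb1⟩ : ∃ b : ℝ, 0 < b ∧ b < β ∧ b < 1 := by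
    refine ⟨min β 1 / 2, by positivity, ?_, ?_⟩
    · have := min_le_left β 1
      have h2 : 0 < min β 1 := by positivity
      linarith
    · have := min_le_right β 1
      linarith
  obtain ⟨κ, hκ, hm⟩ := Pool.Agent.V5helper42.MF.main B b hB hb0
  obtain ⟨δ0, hδ0, hδ1, hX⟩ := hm (-1) (Or.inr rfl)
  obtain ⟨k, hk⟩ : ∃ k : ℕ, k = ⌈8 / δ0⌉₊ := ⟨_, rfl⟩
  have hk8 : 8 / δ0 ≤ k := by rw [hk]; exact Nat.le_ceil _
  have hk0 : (0 : ℝ) < k := lt_of_lt_of_le (by positivity) hk8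
  have hk1 : 0 < k := by exact_mod_cast hk0
  refine ⟨δ0 / 8, by positivity, by linarith, ?_⟩
  filter_upwards [hX, logs (δ0 / 8) (by positivity), sizes B κ (k + 4) hB hκ,
    fin_exp (δ0 / 40) (B + κ) b β (by positivity) hb0 hbβ hb1] with X h1 h2 h3 h4
  obtain ⟨W, w, hW, hWX, hw, hws, hw1, hR⟩ := h1
  obtain ⟨g1, g2, g3, g4⟩ := h2
  set L := Real.log X with hL
  set M := Real.log (3 * X) with hM
  have hX0 : 0 < X := by linarith
  have hL0 : 0 < L := by linarith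
  have hM0 : 0 < M := by linarith
  have hMB : 0 ≤ M ^ B := Real.rpow_nonneg hM0.le _
  obtain ⟨U, hU⟩ : ∃ U : ℕ, U = ⌊M ^ B⌋₊ + 1 := ⟨_, rfl⟩
  have hU1 : M ^ B < U := by rw [hU]; push_cast; exact Nat.lt_floor_add_one _
  have hU2 : (U : ℝ) ≤ M ^ B + 1 := by
    rw [hU]
    push_cast
    linarith [Nat.floor_le hMB]
  have hU0 : 0 < U := by omega
  obtain ⟨T, hT⟩ : ∃ T : ℕ, T = k * U := ⟨_, rfl⟩
  have hT0 : 0 < T := by rw [hT]; positivity
  have hTr : (T : ℝ) = k * U := by rw [hT]; push_cast; ring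
  have hTU : (U : ℝ) ≤ δ0 / 8 * T := by
    rw [hTr]
    have e1 : 1 ≤ δ0 / 8 * k := by
      rw [div_le_iff₀ hδ0] at hk8
      linarith
    have e2 : (0 : ℝ) ≤ U := Nat.cast_nonneg _
    nlinarith
  obtain ⟨Y, hY⟩ : ∃ Y : ℕ, Y = T + U := ⟨_, rfl⟩
  have hYr : (Y : ℝ) = T + U := by rw [hY]; push_cast; ring
  have hY0 : 0 < Y := by omega
  have hYA : (Y : ℝ) + 3 ≤ L ^ (B + κ) := by
    refine le_trans ?_ h3
    rw [hYr, hTr]
    have e2 : (k : ℝ) * U ≤ k * (M ^ B + 1) := mul_le_mul_of_nonneg_left hU2 hk0.le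
    nlinarith
  have hLM : L ^ B ≤ M ^ B := Real.rpow_le_rpow hL0.le g3 hB.le
  have hUY : (U : ℝ) ≤ Y := by rw [hYr]; linarith [(Nat.cast_nonneg T : (0 : ℝ) ≤ T)]
  have hmean := hR Y (by linarith) (by linarith)
  obtain ⟨bad, hbad⟩ : ∃ bad : Finset ℕ, bad = Icc (⌊3 * X⌋₊ - Y) ⌊3 * X⌋₊ := ⟨_, rfl⟩
  have hbadc : bad.card ≤ Y + 2 := by
    rw [hbad, Nat.card_Icc]
    omega
  have hΦ : δ0 ≤ ∑ n ∈ Icc 1 ⌊3 * X⌋₊, w n * (1 - R n Y) := by
    have e1 : ∑ n ∈ Icc 1 ⌊3 * X⌋₊, w n * (1 - R n Y) =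
        ∑ n ∈ Icc 1 ⌊3 * X⌋₊, w n - ∑ n ∈ Icc 1 ⌊3 * X⌋₊, w n * R n Y := by
      rw [← sum_sub_distrib]
      apply sum_congr rfl
      intro n _
      ring
    rw [e1, hw1]
    linarith
  have hpick := pick w (fun n => 1 - R n Y) (Icc 1 ⌊3 * X⌋₊) bad
    (K := 20 * W / X) (c := δ0) (D := 1) (by positivity) hw hw1 hδ0 one_pos hΦ (fun n hn _ => by
      have := R_nonneg (mem_Icc.1 hn).1 hY0
      show 1 - R n Y ≤ 1
      linarith)
  obtain ⟨N, hN⟩ : ∃ N : Finset ℕ, N = (Icc 1 ⌊3 * X⌋₊).filter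
      (fun n => (w n ≠ 0 ∧ δ0 / 2 ≤ (fun n => 1 - R n Y) n) ∧ n ∉ bad) := ⟨_, rfl⟩
  rw [← hN] at hpick
  obtain ⟨G, hG⟩ : ∃ G : Finset ℕ, G = (Icc 1 ⌊3 * X⌋₊).filter (fun x : ℕ => X < x ∧
      (x : ℝ) < 3 * X ∧ ∀ u : ℕ, 1 ≤ u → (u : ℝ) ≤ M ^ B + 1 →
        (cn PP x (x + u) : ℝ) * M ≤ (1 - δ0 / 8) * u) := ⟨_, rfl⟩
  refine ⟨G, ?_, fun x hx => ?_⟩
  swap
  · rw [hG, mem_filter] at hx
    exact hx.2
  have hspread : N.card ≤ G.card * (Y + 1) := by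
    apply spread
    intro n hn
    rw [hN, mem_filter] at hn
    obtain ⟨hn1, ⟨hn2, hn3⟩, hn4⟩ := hn
    replace hn3 : δ0 / 2 ≤ 1 - R n Y := hn3
    rw [mem_Icc] at hn1
    obtain ⟨hnX, hnX3⟩ := hws n hn2
    have hnY : n + Y < ⌊3 * X⌋₊ := by
      by_contra hcon
      push Not at hcon
      apply hn4
      rw [hbad, mem_Icc]
      omega
    have hLn : L ≤ Real.log n := Real.log_le_log hX0 hnX.le
    have e1 := R_cn (n := n) hY0
    have e2 : (cn PP n (n + Y) : ℝ) * L ≤ (1 - δ0 / 2) * Y := by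
      have k1 : (cn PP n (n + Y) : ℝ) * L ≤ cn PP n (n + Y) * Real.log n :=
        mul_le_mul_of_nonneg_left hLn (Nat.cast_nonneg _)
      have k2 : R n Y * Y ≤ (1 - δ0 / 2) * Y :=
        mul_le_mul_of_nonneg_right (by linarith) (Nat.cast_nonneg _)
      linarith
    have hT0r : (0 : ℝ) < T := by exact_mod_cast hT0
    have e3 : (cn PP n (n + T + U) : ℝ) ≤ (1 - δ0 / 8) / M * T := by
      rw [add_assoc, ← hY, div_mul_eq_mul_div, le_div_iff₀ hM0]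
      have k3 : (cn PP n (n + Y) : ℝ) * M * L ≤ (1 - δ0 / 8) * T * L := by
        calc (cn PP n (n + Y) : ℝ) * M * L = (cn PP n (n + Y) : ℝ) * L * M := by ring
          _ ≤ (1 - δ0 / 2) * Y * M := mul_le_mul_of_nonneg_right e2 hM0.le
          _ ≤ (1 - δ0 / 2) * ((1 + δ0 / 8) * T) * ((1 + δ0 / 8) * L) := by
              have q1 : (Y : ℝ) ≤ (1 + δ0 / 8) * T := by rw [hYr]; linarith
              have q2 : (0 : ℝ) ≤ 1 - δ0 / 2 := by linarith
              apply mul_le_mul (mul_le_mul_of_nonneg_left q1 q2) g4 hM0.le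
              positivity
          _ = ((1 - δ0 / 2) * ((1 + δ0 / 8) * (1 + δ0 / 8))) * (T * L) := by ring
          _ ≤ (1 - δ0 / 8) * (T * L) := by
              apply mul_le_mul_of_nonneg_right _ (by positivity)
              nlinarith [mul_pos hδ0 hδ0, mul_nonneg hδ0.le (sub_nonneg.2 hδ1)]
          _ = (1 - δ0 / 8) * T * L := by ring
      exact le_of_mul_le_mul_right k3 hL0
    obtain ⟨t, ht1, ht2, ht3⟩ := low_exists PP ((1 - δ0 / 8) / M)
      (div_nonneg (by linarith) hM0.le) U T n hT0 e3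
    refine ⟨t, ?_, ht1, by omega⟩
    rw [hG, mem_filter, mem_Icc]
    have hnt : (n : ℝ) ≤ t := by exact_mod_cast ht1
    have htX : (t : ℝ) < 3 * X := by
      have q1 : (t : ℝ) < ⌊3 * X⌋₊ := by exact_mod_cast (by omega : t < ⌊3 * X⌋₊)
      have q2 : (⌊3 * X⌋₊ : ℝ) ≤ 3 * X := Nat.floor_le (by positivity)
      linarith
    refine ⟨⟨by omega, by omega⟩, by linarith, htX, fun u hu1 hu2 => ?_⟩
    have hu3 : u ≤ U := by
      have q1 : (u : ℝ) < U + 1 := by linarith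
      have q2 : u < U + 1 := by exact_mod_cast q1
      omega
    have q3 := ht3 u hu1 hu3
    have q4 := mul_le_mul_of_nonneg_right q3 hM0.le
    calc (cn PP t (t + u) : ℝ) * M ≤ (1 - δ0 / 8) / M * u * M := q4
      _ = (1 - δ0 / 8) * u := by field_simp
  have hspread' : (N.card : ℝ) ≤ (G.card : ℝ) * (Y + 1) := by exact_mod_cast hspread
  have hnum := number (G := G) (X := X) (W := W) (L := L) (c := δ0) (D' := 1)
    (Z := Real.exp (L ^ b)) (A := L ^ (B + κ)) (Y := Y) (n0 := bad.card) hX0 hW hL0 hδ0 one_pos hWX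
    hYA hbadc (hpick.trans hspread')
  refine h4.trans (le_trans (le_of_eq ?_) hnum)
  congr 1
  field_simp

/-- primes with many primes after them at all scales up to `(log 3 X) ^ B` -/
theorem high (B β : ℝ) (hB : 0 < B) (hβ : 0 < β) : ∃ δ : ℝ, 0 < δ ∧ δ ≤ 1 ∧ ∀ᶠ X : ℝ in atTop,
    ∃ G : Finset ℕ, X * Real.exp (-Real.log X ^ β) ≤ G.card ∧
      ∀ p ∈ G, X < p ∧ (p : ℝ) < 3 * X ∧ p.Prime ∧
        ∀ u : ℕ, 1 ≤ u → (u : ℝ) ≤ Real.log (3 * X) ^ B + 1 →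
          (1 + δ) * u ≤ (cn PP (p - 1) (p - 1 + u) : ℝ) * Real.log X := by
  classical
  obtain ⟨b, hb0, hbβ, hb1⟩ : ∃ b : ℝ, 0 < b ∧ b < β ∧ b < 1 := by
    refine ⟨min β 1 / 2, by positivity, ?_, ?_⟩
    · have := min_le_left β 1
      have h2 : 0 < min β 1 := by positivity
      linarith
    · have := min_le_right β 1
      linarith
  obtain ⟨κ, hκ, hm⟩ := Pool.Agent.V5helper42.MF.main B b hB hb0
  obtain ⟨δ0, hδ0, hδ1, hX⟩ := hm 1 (Or.inl rfl)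
  obtain ⟨k, hk⟩ : ∃ k : ℕ, k = ⌈8 / δ0⌉₊ := ⟨_, rfl⟩
  have hk8 : 8 / δ0 ≤ k := by rw [hk]; exact Nat.le_ceil _
  have hk0 : (0 : ℝ) < k := lt_of_lt_of_le (by positivity) hk8
  have hk1 : 0 < k := by exact_mod_cast hk0
  refine ⟨δ0 / 8, by positivity, by linarith, ?_⟩
  filter_upwards [hX, logs (δ0 / 8) (by positivity), sizes B κ (k + 4) hB hκ,
    fin_exp (δ0 / 80) (B + κ + 1) b β (by positivity) hb0 hbβ hb1] with X h1 h2 h3 h4
  obtain ⟨W, w, hW, hWX, hw, hws, hw1, hR⟩ := h1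
  obtain ⟨g1, g2, g3, g4⟩ := h2
  set L := Real.log X with hL
  set M := Real.log (3 * X) with hM
  have hX0 : 0 < X := by linarith
  have hL0 : 0 < L := by linarith
  have hM0 : 0 < M := by linarith
  have hMB : 0 ≤ M ^ B := Real.rpow_nonneg hM0.le _
  obtain ⟨U, hU⟩ : ∃ U : ℕ, U = ⌊M ^ B⌋₊ + 1 := ⟨_, rfl⟩
  have hU1 : M ^ B < U := by rw [hU]; push_cast; exact Nat.lt_floor_add_one _
  have hU2 : (U : ℝ) ≤ M ^ B + 1 := by
    rw [hU]
    push_cast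
    linarith [Nat.floor_le hMB]
  have hU0 : 0 < U := by omega
  obtain ⟨T, hT⟩ : ∃ T : ℕ, T = k * U := ⟨_, rfl⟩
  have hT0 : 0 < T := by rw [hT]; positivity
  have hT0r : (0 : ℝ) < T := by exact_mod_cast hT0
  have hTr : (T : ℝ) = k * U := by rw [hT]; push_cast; ring
  have hTU : (U : ℝ) ≤ δ0 / 8 * T := by
    rw [hTr]
    have e1 : 1 ≤ δ0 / 8 * k := by
      rw [div_le_iff₀ hδ0] at hk8
      linarith
    have e2 : (0 : ℝ) ≤ U := Nat.cast_nonneg _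
    nlinarith
  have hUT : (U : ℝ) ≤ T := by nlinarith
  have hTA : (T : ℝ) + 3 ≤ L ^ (B + κ) := by
    refine le_trans ?_ h3
    rw [hTr]
    have e2 : (k : ℝ) * U ≤ k * (M ^ B + 1) := mul_le_mul_of_nonneg_left hU2 hk0.le
    nlinarith
  have hLM : L ^ B ≤ M ^ B := Real.rpow_le_rpow hL0.le g3 hB.le
  have hmean := hR T (by linarith) (by linarith)
  obtain ⟨bad, hbad⟩ : ∃ bad : Finset ℕ, bad = Icc (⌊3 * X⌋₊ - T) ⌊3 * X⌋₊ := ⟨_, rfl⟩
  have hbadc : bad.card ≤ T + 2 := by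
    rw [hbad, Nat.card_Icc]
    omega
  have hlog : ∀ n : ℕ, X < n → (n : ℝ) < 3 * X → Real.log n ≤ M := fun n h h' =>
    Real.log_le_log (by linarith) h'.le
  have hM2 : M ≤ 2 * L := by nlinarith
  have hΦ : δ0 ≤ ∑ n ∈ Icc 1 ⌊3 * X⌋₊, w n * (R n T - 1) := by
    have e1 : ∑ n ∈ Icc 1 ⌊3 * X⌋₊, w n * (R n T - 1) =
        ∑ n ∈ Icc 1 ⌊3 * X⌋₊, w n * R n T - ∑ n ∈ Icc 1 ⌊3 * X⌋₊, w n := by
      rw [← sum_sub_distrib]
      apply sum_congr rfl
      intro n _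
      ring
    rw [e1, hw1]
    linarith
  have hpick := pick w (fun n => R n T - 1) (Icc 1 ⌊3 * X⌋₊) bad
    (K := 20 * W / X) (c := δ0) (D := 2 * L) (by positivity) hw hw1 hδ0 (by positivity) hΦ
    (fun n hn hn0 => by
      obtain ⟨q1, q2⟩ := hws n hn0
      have := R_le hT0 ((hlog n q1 q2).trans hM2) (mem_Icc.1 hn).1
      show R n T - 1 ≤ 2 * L
      linarith)
  obtain ⟨N, hN⟩ : ∃ N : Finset ℕ, N = (Icc 1 ⌊3 * X⌋₊).filter
      (fun n => (w n ≠ 0 ∧ δ0 / 2 ≤ (fun n => R n T - 1) n) ∧ n ∉ bad) := ⟨_, rfl⟩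
  rw [← hN] at hpick
  obtain ⟨G, hG⟩ : ∃ G : Finset ℕ, G = (Icc 1 ⌊3 * X⌋₊).filter (fun p : ℕ => X < p ∧
      (p : ℝ) < 3 * X ∧ p.Prime ∧ ∀ u : ℕ, 1 ≤ u → (u : ℝ) ≤ M ^ B + 1 →
        (1 + δ0 / 8) * u ≤ (cn PP (p - 1) (p - 1 + u) : ℝ) * L) := ⟨_, rfl⟩
  refine ⟨G, ?_, fun x hx => ?_⟩
  swap
  · rw [hG, mem_filter] at hx
    exact hx.2
  have hspread : N.card ≤ G.card * (T + 1) := by
    apply spread
    intro n hn
    rw [hN, mem_filter] at hn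
    obtain ⟨hn1, ⟨hn2, hn3⟩, hn4⟩ := hn
    replace hn3 : δ0 / 2 ≤ R n T - 1 := hn3
    rw [mem_Icc] at hn1
    obtain ⟨hnX, hnX3⟩ := hws n hn2
    have hnY : n + T < ⌊3 * X⌋₊ := by
      by_contra hcon
      push Not at hcon
      apply hn4
      rw [hbad, mem_Icc]
      omega
    have hLn : Real.log n ≤ M := hlog n hnX hnX3
    have e1 := R_cn (n := n) hT0
    have e2 : (1 + δ0 / 2) * T ≤ (cn PP n (n + T) : ℝ) * M := by
      have k1 : (cn PP n (n + T) : ℝ) * Real.log n ≤ cn PP n (n + T) * M :=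
        mul_le_mul_of_nonneg_left hLn (Nat.cast_nonneg _)
      have k2 : (1 + δ0 / 2) * T ≤ R n T * T :=
        mul_le_mul_of_nonneg_right (by linarith) (Nat.cast_nonneg _)
      linarith
    have e0 : 0 < cn PP n (n + T) := by
      by_contra hcon
      have q0 : cn PP n (n + T) = 0 := by omega
      rw [q0] at e2
      have : 0 < (1 + δ0 / 2) * T := by positivity
      push_cast at e2
      linarith
    have e3 : (1 + δ0 / 8) / L * (T + U) ≤ (cn PP n (n + T) : ℝ) := by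
      rw [div_mul_eq_mul_div, div_le_iff₀ hL0]
      have k3 : (1 + δ0 / 8) * (T + U) * (1 + δ0 / 8) ≤ (cn PP n (n + T) : ℝ) * L * (1 + δ0 / 8) := by
        calc (1 + δ0 / 8) * ((T : ℝ) + U) * (1 + δ0 / 8)
            ≤ (1 + δ0 / 8) * ((1 + δ0 / 8) * T) * (1 + δ0 / 8) := by
              have q1 : (T : ℝ) + U ≤ (1 + δ0 / 8) * T := by linarith
              gcongr
          _ = (1 + δ0 / 8) * (1 + δ0 / 8) * (1 + δ0 / 8) * T := by ring
          _ ≤ (1 + δ0 / 2) * T := by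
              apply mul_le_mul_of_nonneg_right _ hT0r.le
              exact cube_le hδ0.le hδ1
          _ ≤ (cn PP n (n + T) : ℝ) * M := e2
          _ ≤ (cn PP n (n + T) : ℝ) * ((1 + δ0 / 8) * L) :=
              mul_le_mul_of_nonneg_left g4 (Nat.cast_nonneg _)
          _ = _ := by ring
      exact le_of_mul_le_mul_right k3 (by positivity)
    obtain ⟨m, hm0, hm1, hm2, hm3⟩ := high_exists PP ((1 + δ0 / 8) / L) U T n e0 e3
    refine ⟨m, ?_, by omega, hm2⟩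
    rw [hG, mem_filter, mem_Icc]
    have hnt : (n : ℝ) ≤ m := by exact_mod_cast hm1.le
    have htX : (m : ℝ) < 3 * X := by
      have q1 : (m : ℝ) < ⌊3 * X⌋₊ := by exact_mod_cast (by omega : m < ⌊3 * X⌋₊)
      have q2 : (⌊3 * X⌋₊ : ℝ) ≤ 3 * X := Nat.floor_le (by positivity)
      linarith
    refine ⟨⟨by omega, by omega⟩, by linarith, htX, hm0, fun u hu1 hu2 => ?_⟩
    have hu3 : u ≤ U := by
      have q1 : (u : ℝ) < U + 1 := by linarith
      have q2 : u < U + 1 := by exact_mod_cast q1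
      omega
    have q3 := hm3 u hu1 hu3
    have q4 := mul_le_mul_of_nonneg_right q3 hL0.le
    calc (1 + δ0 / 8) * (u : ℝ) = (1 + δ0 / 8) / L * u * L := by field_simp
      _ ≤ _ := q4
  have hspread' : (N.card : ℝ) ≤ (G.card : ℝ) * (T + 1) := by exact_mod_cast hspread
  have hnum := number (G := G) (X := X) (W := W) (L := L) (c := δ0) (D' := 2 * L)
    (Z := Real.exp (L ^ b)) (A := L ^ (B + κ)) (Y := T) (n0 := bad.card) hX0 hW hL0 hδ0
    (by positivity) hWX hTA hbadc (hpick.trans hspread')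
  refine h4.trans (le_trans (le_of_eq ?_) hnum)
  congr 1
  have e5 : L ^ (B + κ + 1) = L ^ (B + κ) * L := by
    rw [Real.rpow_add hL0, Real.rpow_one]
  rw [e5]
  field_simp
  ring

end Pool.Agent.V5helper33.PR
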