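import Pool.Agent.V5helper33.PR.Tile
import Pool.Agent.V5helper42.MF.Freq

set_option autoImplicit false

/-!
# Irregularities of the primes at all scales at the same place (helper33)
-/

namespace Pool.Agent.V5helper33.PR

open Finset Filter Topology
open Pool.Agent.N610.MS (R)

/-- the set of the primes -/
abbrev PP : Set ℕ := {p : ℕ | p.Prime}

lemma R_cn {n Y : ℕ} (hY : 0 < Y) : (cn PP n (n + Y) : ℝ) * Real.log n = R n Y * Y := by
  have h := Pool.Agent.V5helper42.MF.R_eq (n := n) (y := (Y : ℝ)) (by exact_mod_cast hY)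
  rw [Nat.floor_natCast] at h
  rw [cn_prime]
  exact h

/-- ratio of logarithms and a power of `log (3 X)` -/
lemma logs (τ : ℝ) (hτ : 0 < τ) : ∀ᶠ X : ℝ in atTop, 3 < X ∧ 2 ≤ Real.log X ∧
    Real.log X ≤ Real.log (3 * X) ∧ Real.log (3 * X) ≤ (1 + τ) * Real.log X := by
  have hl := Real.tendsto_log_atTop
  have h1 : ∀ᶠ X : ℝ in atTop, Real.log 3 / τ ≤ Real.log X := hl.eventually_ge_atTop _
  filter_upwards [h1, eventually_gt_atTop (3 : ℝ), hl.eventually_ge_atTop (2 : ℝ)] with X g1 g2 g3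
  have hX : 0 < X := by linarith
  have hlog : Real.log (3 * X) = Real.log 3 + Real.log X := Real.log_mul (by norm_num) hX.ne'
  have hlog3 : 0 < Real.log 3 := Real.log_pos (by norm_num)
  rw [div_le_iff₀ hτ] at g1
  exact ⟨g2, g3, by linarith, by rw [hlog]; linarith⟩

/-- the sizes of the windows -/
lemma sizes (B κ D : ℝ) (hB : 0 < B) (hκ : 0 < κ) : ∀ᶠ X : ℝ in atTop,
    D * (Real.log (3 * X) ^ B + 2) ≤ Real.log X ^ (B + κ) := by
  have hl := Real.tendsto_log_atTop
  have h1 : ∀ᶠ X : ℝ in atTop, |D| * (2 ^ B + 2) ≤ Real.log X ^ κ :=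
    ((tendsto_rpow_atTop hκ).comp hl).eventually_ge_atTop _
  filter_upwards [h1, logs 1 one_pos] with X g1 g2
  obtain ⟨g3, g4, g5, g6⟩ := g2
  have hl0 : 0 < Real.log X := by linarith
  have h2 : Real.log (3 * X) ^ B ≤ 2 ^ B * Real.log X ^ B := by
    rw [← Real.mul_rpow (by norm_num) hl0.le]
    exact Real.rpow_le_rpow (by linarith) (by linarith) hB.le
  have h3 : (1 : ℝ) ≤ Real.log X ^ B := Real.one_le_rpow (by linarith) hB.le
  rw [Real.rpow_add hl0]
  calc D * (Real.log (3 * X) ^ B + 2) ≤ |D| * (Real.log (3 * X) ^ B + 2) := by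
        apply mul_le_mul_of_nonneg_right (le_abs_self D)
        have : 0 ≤ Real.log (3 * X) ^ B := Real.rpow_nonneg (by linarith) _
        linarith
    _ ≤ |D| * (2 ^ B * Real.log X ^ B + 2 * Real.log X ^ B) := by
        apply mul_le_mul_of_nonneg_left _ (abs_nonneg D)
        linarith
    _ = Real.log X ^ B * (|D| * (2 ^ B + 2)) := by ring
    _ ≤ Real.log X ^ B * Real.log X ^ κ := mul_le_mul_of_nonneg_left g1 (by positivity)

/-- the number of the places: `Z = exp ((log X) ^ b)` or `Z = X ^ ε` -/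
lemma number {G : Finset ℕ} {X W L c D' Z A : ℝ} {Y n0 : ℕ} (hX : 0 < X) (hW : 0 < W) (_hL : 0 < L)
    (hc : 0 < c) (hD : 0 < D') (hWZ : W ≤ Z) (hYA : (Y : ℝ) + 3 ≤ A)
    (hbad : n0 ≤ Y + 2)
    (hG : c / (2 * D' * (20 * W / X)) - n0 ≤ (G.card : ℝ) * (Y + 1)) :
    c * X / (40 * D' * A * Z) - 1 ≤ G.card := by
  have hY : (0 : ℝ) ≤ Y := Nat.cast_nonneg Y
  have hA : 0 < A := by linarith
  have hZ : 0 < Z := by linarith
  have h1 : (n0 : ℝ) ≤ Y + 2 := by exact_mod_cast hbad
  have h2 : c / (2 * D' * (20 * W / X)) = c * X / (40 * D' * W) := by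
    field_simp
    ring
  rw [h2] at hG
  have h3 : c * X / (40 * D' * W) ≤ (G.card + 1) * A := by
    have h4 : (0 : ℝ) ≤ G.card := Nat.cast_nonneg _
    have h5 : (G.card : ℝ) * (Y + 1) ≤ G.card * A := mul_le_mul_of_nonneg_left (by linarith) h4
    linarith
  have h6 : c * X / (40 * D' * A * Z) ≤ G.card + 1 := by
    rw [div_le_iff₀ (by positivity)]
    rw [div_le_iff₀ (by positivity)] at h3
    calc c * X ≤ (G.card + 1) * A * (40 * D' * W) := h3
      _ ≤ (G.card + 1) * A * (40 * D' * Z) := by gcongr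
      _ = (G.card + 1) * (40 * D' * A * Z) := by ring
  linarith

/-- the final comparison, exponential version -/
lemma fin_exp (c a b β : ℝ) (hc : 0 < c) (hb : 0 < b) (hbβ : b < β) (hβ1 : b < 1) :
    ∀ᶠ X : ℝ in atTop,
      X * Real.exp (-Real.log X ^ β) ≤
        c * X / (Real.log X ^ a * Real.exp (Real.log X ^ b)) - 1 := by
  have hl := Real.tendsto_log_atTop
  obtain ⟨γ, hγ1, hγ2, hγ3⟩ : ∃ γ : ℝ, b < γ ∧ γ ≤ β ∧ γ < 1 := by
    refine ⟨min β ((b + 1) / 2), ?_, min_le_left _ _, ?_⟩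
    · rw [lt_min_iff]
      exact ⟨hbβ, by linarith⟩
    · exact (min_le_right _ _).trans_lt (by linarith)
  have hγ0 : 0 < γ := by linarith
  -- `2 l ^ a exp (l ^ b) ≤ c exp (l ^ γ)`
  have h1 : ∀ᶠ l : ℝ in atTop, Real.log (2 / c) + |a| * Real.log l + l ^ b ≤ l ^ γ := by
    have g1 := (isLittleO_log_rpow_atTop hγ0).bound
      (show (0 : ℝ) < 1 / (4 * (|a| + 1)) by positivity)
    have g2 : ∀ᶠ l : ℝ in atTop, 4 * |Real.log (2 / c)| ≤ l ^ γ :=
      (tendsto_rpow_atTop hγ0).eventually_ge_atTop _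
    have g3 : ∀ᶠ l : ℝ in atTop, (4 : ℝ) ≤ l ^ (γ - b) :=
      (tendsto_rpow_atTop (by linarith)).eventually_ge_atTop _
    filter_upwards [g1, g2, g3, eventually_ge_atTop (1 : ℝ)] with l k1 k2 k3 k4
    rw [Real.norm_of_nonneg (Real.log_nonneg k4),
      Real.norm_of_nonneg (Real.rpow_nonneg (by linarith) _)] at k1
    have k5 : |a| * Real.log l ≤ l ^ γ / 4 := by
      have k6 : 0 ≤ l ^ γ := Real.rpow_nonneg (by linarith) _
      calc |a| * Real.log l ≤ |a| * (1 / (4 * (|a| + 1)) * l ^ γ) :=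
            mul_le_mul_of_nonneg_left k1 (abs_nonneg a)
        _ = (|a| / (|a| + 1)) * (l ^ γ / 4) := by field_simp
        _ ≤ 1 * (l ^ γ / 4) := by
            apply mul_le_mul_of_nonneg_right _ (by positivity)
            rw [div_le_one (by positivity)]
            linarith
        _ = l ^ γ / 4 := one_mul _
    have k7 : 4 * l ^ b ≤ l ^ γ := by
      have : l ^ γ = l ^ (γ - b) * l ^ b := by
        rw [← Real.rpow_add (by linarith)]
        congr 1
        ring
      rw [this]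
      exact mul_le_mul_of_nonneg_right k3 (Real.rpow_nonneg (by linarith) _)
    have k8 := le_abs_self (Real.log (2 / c))
    have k9 : 0 ≤ l ^ γ := Real.rpow_nonneg (by linarith) _
    linarith
  have h2 : ∀ᶠ l : ℝ in atTop, l ^ γ ≤ l := by
    filter_upwards [eventually_ge_atTop (1 : ℝ)] with l k
    calc l ^ γ ≤ l ^ (1 : ℝ) := Real.rpow_le_rpow_of_exponent_le k hγ3.le
      _ = l := Real.rpow_one l
  filter_upwards [hl.eventually h1, hl.eventually h2, eventually_gt_atTop (0 : ℝ),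
    hl.eventually_ge_atTop (1 : ℝ)] with X g1 g2 g3 g4
  set l := Real.log X with hldef
  have hl0 : 0 < l := by linarith
  have k1 : Real.exp (-l ^ β) ≤ Real.exp (-l ^ γ) := by
    apply Real.exp_le_exp.mpr
    have := Real.rpow_le_rpow_of_exponent_le g4 hγ2
    linarith
  have k2 : 1 ≤ X * Real.exp (-l ^ γ) := by
    have : X = Real.exp l := (Real.exp_log g3).symm
    rw [this, ← Real.exp_add]
    exact Real.one_le_exp (by linarith)
  have k3 : 2 * (l ^ a * Real.exp (l ^ b)) ≤ c * Real.exp (l ^ γ) := by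
    have e1 : 2 / c * (l ^ a * Real.exp (l ^ b)) ≤ Real.exp (l ^ γ) := by
      have e2 : l ^ a ≤ Real.exp (|a| * Real.log l) := by
        rw [Real.rpow_def_of_pos hl0, mul_comm]
        apply Real.exp_le_exp.mpr
        exact mul_le_mul_of_nonneg_right (le_abs_self a) (Real.log_nonneg g4)
      calc 2 / c * (l ^ a * Real.exp (l ^ b)) ≤
          Real.exp (Real.log (2 / c)) * (Real.exp (|a| * Real.log l) * Real.exp (l ^ b)) := by
            rw [Real.exp_log (by positivity)]
            gcongr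
        _ = Real.exp (Real.log (2 / c) + |a| * Real.log l + l ^ b) := by
            rw [Real.exp_add, Real.exp_add]
            ring
        _ ≤ _ := Real.exp_le_exp.mpr g1
    have e3 := mul_le_mul_of_nonneg_left e1 hc.le
    calc 2 * (l ^ a * Real.exp (l ^ b)) = c * (2 / c * (l ^ a * Real.exp (l ^ b))) := by
          field_simp
      _ ≤ _ := e3
  have k4 : 2 * (X * Real.exp (-l ^ γ)) ≤ c * X / (l ^ a * Real.exp (l ^ b)) := by
    have p1 : 0 < l ^ a * Real.exp (l ^ b) := by positivity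
    rw [le_div_iff₀ p1]
    have e4 : Real.exp (-l ^ γ) * Real.exp (l ^ γ) = 1 := by
      rw [← Real.exp_add]
      simp
    calc 2 * (X * Real.exp (-l ^ γ)) * (l ^ a * Real.exp (l ^ b)) =
        X * Real.exp (-l ^ γ) * (2 * (l ^ a * Real.exp (l ^ b))) := by ring
      _ ≤ X * Real.exp (-l ^ γ) * (c * Real.exp (l ^ γ)) :=
          mul_le_mul_of_nonneg_left k3 (by positivity)
      _ = c * X * (Real.exp (-l ^ γ) * Real.exp (l ^ γ)) := by ring
      _ = c * X := by rw [e4, mul_one]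
  have k5 : X * Real.exp (-l ^ β) ≤ X * Real.exp (-l ^ γ) := mul_le_mul_of_nonneg_left k1 g3.le
  linarith

end Pool.Agent.V5helper33.PR
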