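import Pool.Agent.V5helper33.PR.LowHigh
import Pool.Agent.N610.MS.CNT
import Pool.Agent.N610.MS.BON
import Pool.Agent.N610.MS.LEG
import Pool.Agent.N610.MS.ROWS
import Pool.Agent.N610.MS.MAIN

set_option autoImplicit false

/-!
# Irregularities at all scales up to `(log x) ^ a` which are not present at the scale `(log x) ^ b`
(helper33)
-/

namespace Pool.Agent.V5helper33.PR

open Finset Filter Topology
open Pool.Agent.N610.MS (R)

theorem hmain : Pool.Agent.N610.MS.S_MAIN :=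
  Pool.Agent.N610.MS.t_MAIN
    (Pool.Agent.N610.MS.t_CNT Pool.Agent.N610.MS.t_BON
      (Pool.Agent.N610.MS.t_LEG Pool.Agent.N610.MS.t_BON))
    Pool.Agent.N610.MS.t_ROWS

/-- the final comparison, power version -/
lemma fin_pow (c a ε : ℝ) (hc : 0 < c) (hε : 0 < ε) :
    ∀ᶠ X : ℝ in atTop,
      X ^ (1 - ε) ≤ c * X / (Real.log X ^ a * X ^ (min ε (1 / 2) / 2)) - 1 := by
  obtain ⟨e, he⟩ : ∃ e : ℝ, e = min ε (1 / 2) := ⟨_, rfl⟩
  rw [← he]
  have he0 : 0 < e := by rw [he]; positivity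
  have he1 : e ≤ ε := by rw [he]; exact min_le_left _ _
  have he2 : e ≤ 1 / 2 := by rw [he]; exact min_le_right _ _
  have h1 := (isLittleO_log_rpow_rpow_atTop a (show 0 < e / 2 by positivity)).bound
    (show (0 : ℝ) < c / 2 by positivity)
  filter_upwards [h1, eventually_gt_atTop (1 : ℝ), Real.tendsto_log_atTop.eventually_ge_atTop 1]
    with X k1 k2 k3
  have hX0 : 0 < X := by linarith
  have hL0 : 0 < Real.log X := by linarith
  rw [Real.norm_of_nonneg (Real.rpow_nonneg hL0.le _),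
    Real.norm_of_nonneg (Real.rpow_nonneg hX0.le _)] at k1
  have k4 : X ^ (1 - ε) ≤ X ^ (1 - e) :=
    Real.rpow_le_rpow_of_exponent_le k2.le (by linarith)
  have k5 : 1 ≤ X ^ (1 - e) := Real.one_le_rpow k2.le (by linarith)
  have k6 : 2 * X ^ (1 - e) ≤ c * X / (Real.log X ^ a * X ^ (e / 2)) := by
    rw [le_div_iff₀ (by positivity)]
    calc 2 * X ^ (1 - e) * (Real.log X ^ a * X ^ (e / 2))
        ≤ 2 * X ^ (1 - e) * (c / 2 * X ^ (e / 2) * X ^ (e / 2)) := by gcongr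
      _ = c * (X ^ (1 - e) * (X ^ (e / 2) * X ^ (e / 2))) := by ring
      _ = c * X := by
          rw [← Real.rpow_add hX0, ← Real.rpow_add hX0]
          rw [show 1 - e + (e / 2 + e / 2) = 1 by ring, Real.rpow_one]
  linarith

/-- more facts on sizes -/
lemma sizes2 (a b τ D : ℝ) (ha : 0 < a) (hab : a < b) (hτ : 0 < τ) : ∀ᶠ X : ℝ in atTop,
    D * (Real.log (3 * X) ^ a + 2) ≤ τ * Real.log X ^ b ∧
    (1 - τ) * Real.log (3 * X) ^ b ≤ Real.log X ^ b - 1 ∧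
    Real.log (3 * X) ^ b ≤ (1 + τ) * Real.log X ^ b ∧
    Real.log X ^ ((a + b) / 2) ≤ Real.log X ^ b - 1 ∧
    2 * Real.log (3 * X) ^ b ≤ X ^ (9 / 10 : ℝ) ∧
    (1 - τ) * Real.log (3 * X) ≤ Real.log X := by
  have hl := Real.tendsto_log_atTop
  have hb : 0 < b := by linarith
  have h1 := sizes a ((b - a) / 2) (D / τ) ha (by linarith)
  have h1' : ∀ᶠ X : ℝ in atTop, (1 : ℝ) ≤ Real.log X := hl.eventually_ge_atTop _
  -- ratio of logarithms
  have h2 : Tendsto (fun X : ℝ => (Real.log (3 * X) / Real.log X) ^ b) atTop (𝓝 1) := by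
    have h3 : Tendsto (fun X : ℝ => Real.log 3 / Real.log X) atTop (𝓝 0) := hl.const_div_atTop _
    have h4 : Tendsto (fun X : ℝ => 1 + Real.log 3 / Real.log X) atTop (𝓝 (1 + 0)) :=
      h3.const_add 1
    rw [add_zero] at h4
    have h5 := h4.rpow_const (p := b) (Or.inl one_ne_zero)
    rw [Real.one_rpow] at h5
    refine h5.congr' ?_
    filter_upwards [eventually_gt_atTop (0 : ℝ), h1'] with X k1 k2
    congr 1
    rw [Real.log_mul (by norm_num) k1.ne']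
    field_simp
    ring
  have E1 := h2.eventually (eventually_le_nhds (show (1 : ℝ) < 1 + τ / 2 by linarith))
  have h6 : ∀ᶠ X : ℝ in atTop, 2 / τ + 2 ≤ Real.log X ^ b :=
    ((tendsto_rpow_atTop hb).comp hl).eventually_ge_atTop _
  have h7 : ∀ᶠ X : ℝ in atTop, 2 ≤ Real.log X ^ ((b - a) / 2) :=
    ((tendsto_rpow_atTop (by linarith)).comp hl).eventually_ge_atTop _
  have h8 := (isLittleO_log_rpow_rpow_atTop b (show (0 : ℝ) < 9 / 10 by norm_num)).bound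
    (show (0 : ℝ) < 1 / (4 * (1 + τ)) by positivity)
  filter_upwards [h1, h1', E1, h6, h7, h8, logs τ hτ] with X g1 g2 g3 g4 g5 g6 g7
  obtain ⟨f1, f2, f3, f4⟩ := g7
  set L := Real.log X with hL
  set M := Real.log (3 * X) with hM
  have hL0 : 0 < L := by linarith
  have hM0 : 0 < M := by linarith
  have hX0 : 0 < X := by linarith
  have hLb : 0 < L ^ b := Real.rpow_pos_of_pos hL0 _
  have hMb : M ^ b ≤ (1 + τ / 2) * L ^ b := by
    rw [Real.div_rpow hM0.le hL0.le, div_le_iff₀ hLb] at g3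
    exact g3
  have k0 : 2 / τ ≤ L ^ b := by linarith
  have k1 : 2 ≤ τ * L ^ b := by
    rw [div_le_iff₀ hτ] at k0
    linarith
  refine ⟨?_, ?_, by nlinarith, ?_, ?_, ?_⟩
  · have k3 : D * (M ^ a + 2) ≤ τ * L ^ (a + (b - a) / 2) := by
      have := mul_le_mul_of_nonneg_left g1 hτ.le
      calc D * (M ^ a + 2) = τ * (D / τ * (M ^ a + 2)) := by field_simp
        _ ≤ _ := this
    refine k3.trans (mul_le_mul_of_nonneg_left ?_ hτ.le)
    exact Real.rpow_le_rpow_of_exponent_le g2 (by linarith)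
  · by_cases hτ1 : τ ≤ 1
    · have : (1 - τ) * M ^ b ≤ (1 - τ) * ((1 + τ / 2) * L ^ b) :=
        mul_le_mul_of_nonneg_left hMb (by linarith)
      nlinarith [mul_pos hτ (mul_pos hτ hLb)]
    · have : (1 - τ) * M ^ b ≤ 0 :=
        mul_nonpos_of_nonpos_of_nonneg (by linarith) (Real.rpow_nonneg hM0.le _)
      have : 2 / τ + 2 ≥ 2 := by
        have : 0 < 2 / τ := by positivity
        linarith
      linarith
  · have e : L ^ b = L ^ ((a + b) / 2) * L ^ ((b - a) / 2) := by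
      rw [← Real.rpow_add hL0]
      congr 1
      ring
    have k4 : 1 ≤ L ^ ((a + b) / 2) := Real.one_le_rpow g2 (by linarith)
    rw [e]
    nlinarith
  · rw [Real.norm_of_nonneg hLb.le, Real.norm_of_nonneg (Real.rpow_nonneg hX0.le _)] at g6
    have k5 : (1 + τ) * L ^ b ≤ X ^ (9 / 10 : ℝ) / 4 := by
      calc (1 + τ) * L ^ b ≤ (1 + τ) * (1 / (4 * (1 + τ)) * X ^ (9 / 10 : ℝ)) :=
            mul_le_mul_of_nonneg_left g6 (by linarith)
        _ = X ^ (9 / 10 : ℝ) / 4 := by field_simp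
    have k6 : 0 ≤ X ^ (9 / 10 : ℝ) := Real.rpow_nonneg hX0.le _
    nlinarith
  · by_cases hτ1 : τ ≤ 1
    · have : (1 - τ) * M ≤ (1 - τ) * ((1 + τ) * L) := mul_le_mul_of_nonneg_left f4 (by linarith)
      nlinarith [mul_pos hτ (mul_pos hτ hL0)]
    · have : (1 - τ) * M ≤ 0 := mul_nonpos_of_nonpos_of_nonneg (by linarith) hM0.le
      linarith

/-- few primes in all windows up to `(log x) ^ a`, in comparison with the window `(log x) ^ b` -/
theorem sep_low (a b K : ℝ) (ha : 0 < a) (hab : a < b) (hK : 0 ≤ K) :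
    ∃ δ : ℝ, 0 < δ ∧ ∀ ε : ℝ, 0 < ε →
    ∀ᶠ X : ℝ in atTop, ∃ G : Finset ℕ, X ^ (1 - ε) ≤ G.card ∧
      ∀ x ∈ G, X < x ∧ (x : ℝ) < 3 * X ∧
        ∀ u : ℕ, 1 ≤ u → (u : ℝ) ≤ Real.log (3 * X) ^ a + 1 →
          (cn PP x (x + u) : ℝ) * Real.log (3 * X) / u + δ ≤
            1 + K * (Real.log X / Real.log (3 * X) ^ b * cn PP x (x + ⌊Real.log x ^ b⌋₊) - 1) := by
  classical
  have hb : 0 < b := by linarith
  obtain ⟨κ, hκ, hm⟩ := hmain a ((b - a) / 2) ha (by linarith)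
  obtain ⟨δ0, hδ0, hm2⟩ := hm (8 * (K + 1)) (-1) (by positivity) (Or.inr rfl)
  obtain ⟨τ, hτ, hτ0, hτ1⟩ : ∃ τ : ℝ, 0 < τ ∧ τ * (K + 1) ≤ δ0 / 16 ∧ τ ≤ 1 := by
    refine ⟨min (δ0 / (16 * (K + 1))) 1, by positivity, ?_, min_le_right _ _⟩
    calc min (δ0 / (16 * (K + 1))) 1 * (K + 1) ≤ δ0 / (16 * (K + 1)) * (K + 1) :=
          mul_le_mul_of_nonneg_right (min_le_left _ _) (by linarith)
      _ = δ0 / 16 := by field_simp
  obtain ⟨ρ, hρdef⟩ : ∃ ρ : ℝ, ρ = τ / (4 * (K + 1)) := ⟨_, rfl⟩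
  have hρ : 0 < ρ := by rw [hρdef]; positivity
  have hρK : ρ * (4 * (K + 1)) = τ := by rw [hρdef]; field_simp
  have hρK2 : 4 * ρ + 4 * (K * ρ) = τ := by rw [← hρK]; ring
  have hKρ : 0 ≤ K * ρ := mul_nonneg hK hρ.le
  have hρ1 : ρ ≤ 1 / 4 := by linarith
  obtain ⟨k, hk⟩ : ∃ k : ℕ, k = ⌈1 / ρ⌉₊ := ⟨_, rfl⟩
  have hk8 : 1 / ρ ≤ k := by rw [hk]; exact Nat.le_ceil _
  have hk0 : (0 : ℝ) < k := lt_of_lt_of_le (by positivity) hk8
  have hk1 : 0 < k := by exact_mod_cast hk0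
  refine ⟨δ0 / 4, by positivity, fun ε hε => ?_⟩
  filter_upwards [hm2 (min ε (1 / 2) / 2) (by positivity), logs ρ hρ, sizes a κ (k + 4) ha hκ,
    sizes2 a b ρ (k + 4) ha hab hρ,
    fin_pow (δ0 / 2 / (80 * (K + 1))) (a + κ + 1) ε (by positivity) hε] with X h1 h2 h3 h5 h4
  obtain ⟨W, w, hW, hWX, hw, hws, hw1, hR1, -, hR2⟩ := h1
  obtain ⟨g1, g2, g3, g4⟩ := h2
  obtain ⟨s1, s2, s3, s4, s5, s6⟩ := h5
  set L := Real.log X with hL
  set M := Real.log (3 * X) with hM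
  have hX0 : 0 < X := by linarith
  have hL0 : 0 < L := by linarith
  have hM0 : 0 < M := by linarith
  have hMa : 0 ≤ M ^ a := Real.rpow_nonneg hM0.le _
  have hMb : 0 < M ^ b := Real.rpow_pos_of_pos hM0 _
  have hLb : 0 < L ^ b := Real.rpow_pos_of_pos hL0 _
  obtain ⟨U, hU⟩ : ∃ U : ℕ, U = ⌊M ^ a⌋₊ + 1 := ⟨_, rfl⟩
  have hU1 : M ^ a < U := by rw [hU]; push_cast; exact Nat.lt_floor_add_one _
  have hU2 : (U : ℝ) ≤ M ^ a + 1 := by
    rw [hU]
    push_cast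
    linarith [Nat.floor_le hMa]
  have hU0 : 0 < U := by omega
  have hUr : (0 : ℝ) ≤ U := Nat.cast_nonneg _
  obtain ⟨T, hT⟩ : ∃ T : ℕ, T = k * U := ⟨_, rfl⟩
  have hT0 : 0 < T := by rw [hT]; positivity
  have hT0r : (0 : ℝ) < T := by exact_mod_cast hT0
  have hTr : (T : ℝ) = k * U := by rw [hT]; push_cast; ring
  have hTU : (U : ℝ) ≤ ρ * T := by
    rw [hTr, ← mul_assoc]
    have e1 : 1 ≤ ρ * k := by
      rw [div_le_iff₀ hρ] at hk8
      linarith
    exact le_mul_of_one_le_left hUr e1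
  obtain ⟨Y, hY⟩ : ∃ Y : ℕ, Y = T + U := ⟨_, rfl⟩
  have hYr : (Y : ℝ) = T + U := by rw [hY]; push_cast; ring
  have hY0 : 0 < Y := by omega
  have hYB : (Y : ℝ) + 3 ≤ (k + 4) * (M ^ a + 2) := by
    rw [hYr, hTr]
    have e2 : (k : ℝ) * U ≤ k * (M ^ a + 1) := mul_le_mul_of_nonneg_left hU2 hk0.le
    linarith
  have hYA : (Y : ℝ) + 3 ≤ L ^ (a + κ) := hYB.trans h3
  have hYb : (Y : ℝ) + 3 ≤ ρ * L ^ b := hYB.trans s1
  have hLM : L ^ a ≤ M ^ a := Real.rpow_le_rpow hL0.le g3 ha.le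
  have hLMb : L ^ b ≤ M ^ b := Real.rpow_le_rpow hL0.le g3 hb.le
  have hUY : (U : ℝ) ≤ Y := by rw [hYr]; linarith
  have hmean1 := hR1 Y (by linarith) (by linarith)
  obtain ⟨Z, hZ⟩ : ∃ Z : ℕ, Z = ⌊L ^ b⌋₊ := ⟨_, rfl⟩
  have hZ1 : (Z : ℝ) ≤ L ^ b := by rw [hZ]; exact Nat.floor_le hLb.le
  have hZ2 : L ^ b - 1 ≤ Z := by
    rw [hZ]
    linarith [Nat.lt_floor_add_one (L ^ b)]
  have hYZ : Y ≤ Z := by
    have : (Y : ℝ) ≤ Z := by
      have hρ1 : ρ * L ^ b ≤ L ^ b := mul_le_of_le_one_left hLb.le (by linarith)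
      linarith
    exact_mod_cast this
  have hZ0 : 0 < Z := by omega
  have hmean2 := hR2 Z (by
    have e : a + (b - a) / 2 = (a + b) / 2 := by ring
    rw [e]
    linarith) (by linarith)
  obtain ⟨bad, hbad⟩ : ∃ bad : Finset ℕ, bad = Icc (⌊3 * X⌋₊ - Y) ⌊3 * X⌋₊ := ⟨_, rfl⟩
  have hbadc : bad.card ≤ Y + 2 := by
    rw [hbad, Nat.card_Icc]
    omega
  have hlog : ∀ n : ℕ, X < n → (n : ℝ) < 3 * X → Real.log n ≤ M := fun n h h' =>
    Real.log_le_log (by linarith) h'.le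
  have hM2 : M ≤ 2 * L := g4.trans (mul_le_mul_of_nonneg_right (by linarith) hL0.le)
  have hΦ : δ0 / 2 ≤ ∑ n ∈ Icc 1 ⌊3 * X⌋₊,
      w n * (1 - K + K * (1 - τ) * R n Z - (1 + τ) * R n Y) := by
    have e1 : ∑ n ∈ Icc 1 ⌊3 * X⌋₊, w n * (1 - K + K * (1 - τ) * R n Z - (1 + τ) * R n Y) =
        (1 - K) * ∑ n ∈ Icc 1 ⌊3 * X⌋₊, w n +
        K * (1 - τ) * ∑ n ∈ Icc 1 ⌊3 * X⌋₊, w n * R n Z -
          (1 + τ) * ∑ n ∈ Icc 1 ⌊3 * X⌋₊, w n * R n Y := by
      rw [mul_sum, mul_sum, mul_sum, ← sum_add_distrib, ← sum_sub_distrib]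
      apply sum_congr rfl
      intro n _
      ring
    rw [e1, hw1]
    have e2 := (abs_le.1 hmean2).1
    have e3 : ∑ n ∈ Icc 1 ⌊3 * X⌋₊, w n * R n Y ≤ 1 - δ0 := by linarith
    have e4 : 1 - δ0 / (8 * (K + 1)) ≤ ∑ n ∈ Icc 1 ⌊3 * X⌋₊, w n * R n Z := by linarith
    have e5 := mul_le_mul_of_nonneg_left e3 (show 0 ≤ 1 + τ by linarith)
    have e6 := mul_le_mul_of_nonneg_left e4 (show 0 ≤ K * (1 - τ) from
      mul_nonneg hK (by linarith))
    have e7 : 0 ≤ δ0 * τ := by positivity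
    have e8 : K * (1 - τ) * (δ0 / (8 * (K + 1))) ≤ δ0 / 8 := by
      calc K * (1 - τ) * (δ0 / (8 * (K + 1))) ≤ (K + 1) * 1 * (δ0 / (8 * (K + 1))) := by
            apply mul_le_mul_of_nonneg_right _ (by positivity)
            exact mul_le_mul (by linarith) (by linarith) (by linarith) (by linarith)
        _ = δ0 / 8 := by field_simp
    have e9 : τ * K + τ ≤ δ0 / 16 := by linarith
    linarith
  have hpick := pick w (fun n => 1 - K + K * (1 - τ) * R n Z - (1 + τ) * R n Y)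
    (Icc 1 ⌊3 * X⌋₊) bad
    (K := 20 * W / X) (c := δ0 / 2) (D := 2 * (K + 1) * L) (by positivity) hw hw1 (by positivity)
    (by positivity) hΦ
    (fun n hn hn0 => by
      obtain ⟨q1, q2⟩ := hws n hn0
      have q3 := R_le hZ0 ((hlog n q1 q2.1).trans hM2) (mem_Icc.1 hn).1
      have q4 := R_nonneg (mem_Icc.1 hn).1 hY0
      have q5 := R_nonneg (mem_Icc.1 hn).1 hZ0
      show 1 - K + K * (1 - τ) * R n Z - (1 + τ) * R n Y ≤ 2 * (K + 1) * L
      have q6 : 0 ≤ (1 + τ) * R n Y := by positivity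
      have q7 : K * (1 - τ) * R n Z ≤ K * 1 * (2 * L) :=
        mul_le_mul (mul_le_mul_of_nonneg_left (by linarith) hK) q3 q5 (by linarith)
      linarith)
  obtain ⟨N, hN⟩ : ∃ N : Finset ℕ, N = (Icc 1 ⌊3 * X⌋₊).filter
      (fun n => (w n ≠ 0 ∧ δ0 / 2 / 2 ≤
        (fun n => 1 - K + K * (1 - τ) * R n Z - (1 + τ) * R n Y) n) ∧ n ∉ bad) := ⟨_, rfl⟩
  rw [← hN] at hpick
  obtain ⟨G, hG⟩ : ∃ G : Finset ℕ, G = (Icc 1 ⌊3 * X⌋₊).filter (fun x : ℕ => X < x ∧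
      (x : ℝ) < 3 * X ∧ ∀ u : ℕ, 1 ≤ u → (u : ℝ) ≤ M ^ a + 1 →
          (cn PP x (x + u) : ℝ) * M / u + δ0 / 4 ≤
            1 + K * (L / M ^ b * cn PP x (x + ⌊Real.log x ^ b⌋₊) - 1)) := ⟨_, rfl⟩
  refine ⟨G, ?_, fun x hx => ?_⟩
  swap
  · rw [hG, mem_filter] at hx
    exact hx.2
  have hspread : N.card ≤ G.card * (Y + 1) := by
    apply spread
    intro n hn
    rw [hN, mem_filter] at hn
    obtain ⟨hn1, ⟨hn2, hn3⟩, hn4⟩ := hn
    replace hn3 : δ0 / 2 / 2 ≤ 1 - K + K * (1 - τ) * R n Z - (1 + τ) * R n Y := hn3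
    rw [mem_Icc] at hn1
    obtain ⟨hnX, hnX3, -⟩ := hws n hn2
    have hnY : n + Y < ⌊3 * X⌋₊ := by
      by_contra hcon
      push Not at hcon
      apply hn4
      rw [hbad, mem_Icc]
      omega
    have hLn : L ≤ Real.log n := Real.log_le_log hX0 hnX.le
    have hLn' : Real.log n ≤ M := hlog n hnX hnX3
    have e1 := R_cn (n := n) hY0
    have e1' := R_cn (n := n) hZ0
    have r1 := R_nonneg hn1.1 hY0
    have r2 := R_nonneg hn1.1 hZ0
    -- `cn Y * L ≤ R Y * Y`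
    have e2 : (cn PP n (n + Y) : ℝ) * L ≤ R n Y * Y := by
      rw [← e1]
      exact mul_le_mul_of_nonneg_left hLn (Nat.cast_nonneg _)
    have e2' : R n Z * Z ≤ (cn PP n (n + Z) : ℝ) * M := by
      rw [← e1']
      exact mul_le_mul_of_nonneg_left hLn' (Nat.cast_nonneg _)
    obtain ⟨t, ht1, ht2, ht3⟩ := low_exists PP ((cn PP n (n + Y) : ℝ) / T)
      (by positivity) U T n hT0 (by rw [add_assoc, ← hY, div_mul_cancel₀ _ hT0r.ne'])
    refine ⟨t, ?_, ht1, by omega⟩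
    rw [hG, mem_filter, mem_Icc]
    have hnt : (n : ℝ) ≤ t := by exact_mod_cast ht1
    have htX : (t : ℝ) < 3 * X := by
      have q1 : (t : ℝ) < ⌊3 * X⌋₊ := by exact_mod_cast (by omega : t < ⌊3 * X⌋₊)
      have q2 : (⌊3 * X⌋₊ : ℝ) ≤ 3 * X := Nat.floor_le (by positivity)
      linarith
    refine ⟨⟨by omega, by omega⟩, by linarith, htX, fun u hu1 hu2 => ?_⟩
    have hu3 : u ≤ U := by
      have q1 : (u : ℝ) < U + 1 := by linarith
      have q2 : u < U + 1 := by exact_mod_cast q1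
      omega
    have hu0 : (0 : ℝ) < u := by exact_mod_cast hu1
    have q3 := ht3 u hu1 hu3
    -- the small windows
    have A1 : (cn PP t (t + u) : ℝ) * M / u ≤ (1 + ρ) * (1 + ρ) * R n Y := by
      rw [div_le_iff₀ hu0]
      have q5 : (cn PP n (n + Y) : ℝ) * M ≤ (1 + ρ) * (1 + ρ) * R n Y * T := by
        calc (cn PP n (n + Y) : ℝ) * M ≤ cn PP n (n + Y) * ((1 + ρ) * L) :=
              mul_le_mul_of_nonneg_left g4 (Nat.cast_nonneg _)
          _ = (1 + ρ) * (cn PP n (n + Y) * L) := by ring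
          _ ≤ (1 + ρ) * (R n Y * Y) := mul_le_mul_of_nonneg_left e2 (by linarith)
          _ ≤ (1 + ρ) * (R n Y * ((1 + ρ) * T)) := by
              have : (Y : ℝ) ≤ (1 + ρ) * T := by rw [hYr]; linarith
              gcongr
          _ = _ := by ring
      calc (cn PP t (t + u) : ℝ) * M ≤ (cn PP n (n + Y) : ℝ) / T * u * M :=
            mul_le_mul_of_nonneg_right q3 hM0.le
        _ = (cn PP n (n + Y) : ℝ) * M * (u / T) := by field_simp
        _ ≤ (1 + ρ) * (1 + ρ) * R n Y * T * (u / T) :=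
            mul_le_mul_of_nonneg_right q5 (by positivity)
        _ = (1 + ρ) * (1 + ρ) * R n Y * u := by field_simp
    -- the large window
    have A2 : (1 - ρ) * (1 - ρ) * R n Z - ρ * R n Y ≤
        L / M ^ b * cn PP t (t + ⌊Real.log t ^ b⌋₊) := by
      have hlt : L ≤ Real.log t := Real.log_le_log hX0 (by linarith)
      have p1 : Z ≤ ⌊Real.log (t : ℝ) ^ b⌋₊ := by
        rw [hZ]
        exact Nat.floor_le_floor (Real.rpow_le_rpow hL0.le hlt hb.le)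
      have p2 : cn PP (n + Y) (n + Z) ≤ cn PP t (t + ⌊Real.log t ^ b⌋₊) :=
        cn_mono PP (by omega) (by omega)
      have p3 : cn PP n (n + Z) = cn PP n (n + Y) + cn PP (n + Y) (n + Z) :=
        cn_add PP (by omega) (by omega)
      have p4 : (cn PP n (n + Z) : ℝ) - cn PP n (n + Y) ≤ cn PP t (t + ⌊Real.log t ^ b⌋₊) := by
        have : (cn PP n (n + Z) : ℝ) = cn PP n (n + Y) + cn PP (n + Y) (n + Z) := by
          exact_mod_cast p3
        have : (cn PP (n + Y) (n + Z) : ℝ) ≤ cn PP t (t + ⌊Real.log t ^ b⌋₊) := by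
          exact_mod_cast p2
        linarith
      rw [div_mul_eq_mul_div, le_div_iff₀ hMb]
      have p5 : (1 - ρ) * (1 - ρ) * R n Z * M ^ b ≤ L * cn PP n (n + Z) := by
        have p6 : (1 - ρ) * M ^ b ≤ Z := by linarith
        have p7 : (1 - ρ) * R n Z * Z ≤ L * cn PP n (n + Z) := by
          have p8 : (1 - ρ) * (cn PP n (n + Z) * M) ≤ L * cn PP n (n + Z) := by
            calc (1 - ρ) * ((cn PP n (n + Z) : ℝ) * M) = (1 - ρ) * M * cn PP n (n + Z) := by ring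
              _ ≤ L * cn PP n (n + Z) := mul_le_mul_of_nonneg_right s6 (Nat.cast_nonneg _)
          calc (1 - ρ) * R n Z * Z = (1 - ρ) * (R n Z * Z) := by ring
            _ ≤ (1 - ρ) * (cn PP n (n + Z) * M) := mul_le_mul_of_nonneg_left e2' (by linarith)
            _ ≤ _ := p8
        calc (1 - ρ) * (1 - ρ) * R n Z * M ^ b = (1 - ρ) * R n Z * ((1 - ρ) * M ^ b) := by ring
          _ ≤ (1 - ρ) * R n Z * Z := by
              apply mul_le_mul_of_nonneg_left p6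
              exact mul_nonneg (by linarith) r2
          _ ≤ _ := p7
      have p9 : L * cn PP n (n + Y) ≤ ρ * R n Y * M ^ b := by
        calc L * (cn PP n (n + Y) : ℝ) = cn PP n (n + Y) * L := mul_comm _ _
          _ ≤ R n Y * Y := e2
          _ ≤ R n Y * (ρ * M ^ b) := by
              apply mul_le_mul_of_nonneg_left _ r1
              have : ρ * L ^ b ≤ ρ * M ^ b := mul_le_mul_of_nonneg_left hLMb hρ.le
              linarith
          _ = _ := by ring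
      have p10 := mul_le_mul_of_nonneg_left p4 hL0.le
      calc ((1 - ρ) * (1 - ρ) * R n Z - ρ * R n Y) * M ^ b =
          (1 - ρ) * (1 - ρ) * R n Z * M ^ b - ρ * R n Y * M ^ b := by ring
        _ ≤ L * cn PP n (n + Z) - L * cn PP n (n + Y) := by linarith
        _ = L * ((cn PP n (n + Z) : ℝ) - cn PP n (n + Y)) := by ring
        _ ≤ _ := p10
    have A3 : (1 - τ) * R n Z ≤ (1 - ρ) * (1 - ρ) * R n Z := by
      apply mul_le_mul_of_nonneg_right _ r2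
      have e : (1 - ρ) * (1 - ρ) = 1 - 2 * ρ + ρ * ρ := by ring
      rw [e]
      have : 0 ≤ ρ * ρ := by positivity
      linarith
    have A4 : (1 + ρ) * (1 + ρ) * R n Y + K * (ρ * R n Y) ≤ (1 + τ) * R n Y := by
      have h7 : (1 + ρ) * (1 + ρ) + K * ρ ≤ 1 + τ := by
        have e : (1 + ρ) * (1 + ρ) = 1 + 2 * ρ + ρ * ρ := by ring
        have e' : ρ * ρ ≤ 1 * ρ := mul_le_mul_of_nonneg_right (by linarith) hρ.le
        rw [e]
        linarith
      calc (1 + ρ) * (1 + ρ) * R n Y + K * (ρ * R n Y) =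
          ((1 + ρ) * (1 + ρ) + K * ρ) * R n Y := by ring
        _ ≤ _ := mul_le_mul_of_nonneg_right h7 r1
    have A5 := mul_le_mul_of_nonneg_left A2 hK
    have A6 := mul_le_mul_of_nonneg_left A3 hK
    have A7 : K * (1 - τ) * R n Z = K * ((1 - τ) * R n Z) := by ring
    rw [A7] at hn3
    have A8 : K * ((1 - ρ) * (1 - ρ) * R n Z - ρ * R n Y) =
      K * ((1 - ρ) * (1 - ρ) * R n Z) - K * (ρ * R n Y) := by ring
    rw [A8] at A5
    have A9 : K * (L / M ^ b * cn PP t (t + ⌊Real.log t ^ b⌋₊) - 1) =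
      K * (L / M ^ b * cn PP t (t + ⌊Real.log t ^ b⌋₊)) - K := by ring
    rw [A9]
    linarith
  have hspread' : (N.card : ℝ) ≤ (G.card : ℝ) * (Y + 1) := by exact_mod_cast hspread
  have hnum := number (G := G) (X := X) (W := W) (L := L) (c := δ0 / 2)
    (D' := 2 * (K + 1) * L)
    (Z := X ^ (min ε (1 / 2) / 2)) (A := L ^ (a + κ)) (Y := Y) (n0 := bad.card) hX0
    (by exact_mod_cast hW) hL0 (by positivity)
    (by positivity) hWX hYA hbadc (hpick.trans hspread')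
  refine h4.trans (le_trans (le_of_eq ?_) hnum)
  congr 1
  have e5 : L ^ (a + κ + 1) = L ^ (a + κ) * L := by
    rw [Real.rpow_add hL0, Real.rpow_one]
  rw [e5]
  field_simp
  ring

/-- many primes in all windows up to `(log p) ^ a`, in comparison with the window `(log p) ^ b` -/
theorem sep_high (a b K : ℝ) (ha : 0 < a) (hab : a < b) (hK : 0 ≤ K) (hK1 : K ≤ 1) :
    ∃ δ : ℝ, 0 < δ ∧ ∀ ε : ℝ, 0 < ε →
    ∀ᶠ X : ℝ in atTop, ∃ G : Finset ℕ, X ^ (1 - ε) ≤ G.card ∧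
      ∀ p ∈ G, X < p ∧ (p : ℝ) < 3 * X ∧ p.Prime ∧
        ∀ u : ℕ, 1 ≤ u → (u : ℝ) ≤ Real.log (3 * X) ^ a + 1 →
          1 + K * (Real.log (3 * X) / Real.log X ^ b * cn PP p (p + ⌊Real.log p ^ b⌋₊) - 1) + δ ≤
            (cn PP (p - 1) (p - 1 + u) : ℝ) * Real.log X / u := by
  classical
  have hb : 0 < b := by linarith
  obtain ⟨κ, hκ, hm⟩ := hmain a ((b - a) / 2) ha (by linarith)
  obtain ⟨δ0, hδ0, hm2⟩ := hm 16 1 (by positivity) (Or.inl rfl)
  obtain ⟨τ, hτ, hτ0, hτ1⟩ : ∃ τ : ℝ, 0 < τ ∧ τ ≤ δ0 / 32 ∧ τ ≤ 1 / 16 :=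
    ⟨min (δ0 / 32) (1 / 16), by positivity, min_le_left _ _, min_le_right _ _⟩
  obtain ⟨ρ, hρdef⟩ : ∃ ρ : ℝ, ρ = τ / 8 := ⟨_, rfl⟩
  have hρ : 0 < ρ := by rw [hρdef]; positivity
  have hρτ : 8 * ρ = τ := by rw [hρdef]; ring
  have hρ1 : ρ ≤ 1 / 128 := by linarith
  have hρρ : ρ * ρ ≤ ρ := mul_le_of_le_one_left hρ.le (by linarith)
  have hρρ0 : 0 ≤ ρ * ρ := by positivity
  obtain ⟨k, hk⟩ : ∃ k : ℕ, k = ⌈1 / ρ⌉₊ := ⟨_, rfl⟩
  have hk8 : 1 / ρ ≤ k := by rw [hk]; exact Nat.le_ceil _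
  have hk0 : (0 : ℝ) < k := lt_of_lt_of_le (by positivity) hk8
  have hk1 : 0 < k := by exact_mod_cast hk0
  have hk2 : (1 : ℝ) ≤ k := by exact_mod_cast hk1
  refine ⟨δ0 / 4, by positivity, fun ε hε => ?_⟩
  filter_upwards [hm2 (min ε (1 / 2) / 2) (by positivity), logs ρ hρ, sizes a κ (k + 4) ha hκ,
    sizes2 a b ρ (k + 4) ha hab hρ,
    fin_pow (δ0 / 2 / 80) (a + κ + 1) ε (by positivity) hε] with X h1 h2 h3 h5 h4
  obtain ⟨W, w, hW, hWX, hw, hws, hw1, hR1, -, hR2⟩ := h1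
  obtain ⟨g1, g2, g3, g4⟩ := h2
  obtain ⟨s1, s2, s3, s4, s5, s6⟩ := h5
  set L := Real.log X with hL
  set M := Real.log (3 * X) with hM
  have hX0 : 0 < X := by linarith
  have hL0 : 0 < L := by linarith
  have hM0 : 0 < M := by linarith
  have hMa : 0 ≤ M ^ a := Real.rpow_nonneg hM0.le _
  have hMb : 0 < M ^ b := Real.rpow_pos_of_pos hM0 _
  have hLb : 0 < L ^ b := Real.rpow_pos_of_pos hL0 _
  obtain ⟨U, hU⟩ : ∃ U : ℕ, U = ⌊M ^ a⌋₊ + 1 := ⟨_, rfl⟩
  have hU1 : M ^ a < U := by rw [hU]; push_cast; exact Nat.lt_floor_add_one _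
  have hU2 : (U : ℝ) ≤ M ^ a + 1 := by
    rw [hU]
    push_cast
    linarith [Nat.floor_le hMa]
  have hU0 : 0 < U := by omega
  have hUr : (0 : ℝ) ≤ U := Nat.cast_nonneg _
  obtain ⟨T, hT⟩ : ∃ T : ℕ, T = k * U := ⟨_, rfl⟩
  have hT0 : 0 < T := by rw [hT]; positivity
  have hT0r : (0 : ℝ) < T := by exact_mod_cast hT0
  have hTr : (T : ℝ) = k * U := by rw [hT]; push_cast; ring
  have hTU : (U : ℝ) ≤ ρ * T := by
    rw [hTr, ← mul_assoc]
    have e1 : 1 ≤ ρ * k := by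
      rw [div_le_iff₀ hρ] at hk8
      linarith
    exact le_mul_of_one_le_left hUr e1
  have hUT : (U : ℝ) ≤ T := by
    rw [hTr]
    exact le_mul_of_one_le_left hUr hk2
  have hTB : (T : ℝ) + 3 ≤ (k + 4) * (M ^ a + 2) := by
    rw [hTr]
    have e2 : (k : ℝ) * U ≤ k * (M ^ a + 1) := mul_le_mul_of_nonneg_left hU2 hk0.le
    linarith
  have hTA : (T : ℝ) + 3 ≤ L ^ (a + κ) := hTB.trans h3
  have hTb : (T : ℝ) + 3 ≤ ρ * L ^ b := hTB.trans s1
  have hLM : L ^ a ≤ M ^ a := Real.rpow_le_rpow hL0.le g3 ha.le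
  have hLMb : L ^ b ≤ M ^ b := Real.rpow_le_rpow hL0.le g3 hb.le
  have hmean1 := hR1 T (by linarith) (by linarith)
  obtain ⟨Y, hY⟩ : ∃ Y : ℕ, Y = T + ⌊M ^ b⌋₊ := ⟨_, rfl⟩
  have hYr : (Y : ℝ) = T + (⌊M ^ b⌋₊ : ℕ) := by rw [hY]; push_cast; ring
  have hf1 : ((⌊M ^ b⌋₊ : ℕ) : ℝ) ≤ M ^ b := Nat.floor_le hMb.le
  have hf2 : M ^ b - 1 ≤ ((⌊M ^ b⌋₊ : ℕ) : ℝ) := by linarith [Nat.lt_floor_add_one (M ^ b)]
  have hY0 : 0 < Y := by omega
  have hρL : ρ * L ^ b ≤ M ^ b := (mul_le_of_le_one_left hLb.le (by linarith)).trans hLMb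
  have hmean2 := hR2 Y (by
    have e : a + (b - a) / 2 = (a + b) / 2 := by ring
    rw [e, hYr]
    linarith) (by rw [hYr]; linarith)
  obtain ⟨bad, hbad⟩ : ∃ bad : Finset ℕ, bad = Icc (⌊3 * X⌋₊ - T) ⌊3 * X⌋₊ := ⟨_, rfl⟩
  have hbadc : bad.card ≤ T + 2 := by
    rw [hbad, Nat.card_Icc]
    omega
  have hlog : ∀ n : ℕ, X < n → (n : ℝ) < 3 * X → Real.log n ≤ M := fun n h h' =>
    Real.log_le_log (by linarith) h'.le
  have hM2 : M ≤ 2 * L := g4.trans (mul_le_mul_of_nonneg_right (by linarith) hL0.le)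
  have hΦ : δ0 / 2 ≤ ∑ n ∈ Icc 1 ⌊3 * X⌋₊,
      w n * ((1 - τ) * R n T - 1 + K - K * (1 + τ) * R n Y) := by
    have e1 : ∑ n ∈ Icc 1 ⌊3 * X⌋₊, w n * ((1 - τ) * R n T - 1 + K - K * (1 + τ) * R n Y) =
        (1 - τ) * ∑ n ∈ Icc 1 ⌊3 * X⌋₊, w n * R n T -
        (1 - K) * ∑ n ∈ Icc 1 ⌊3 * X⌋₊, w n -
          K * (1 + τ) * ∑ n ∈ Icc 1 ⌊3 * X⌋₊, w n * R n Y := by
      rw [mul_sum, mul_sum, mul_sum, ← sum_sub_distrib, ← sum_sub_distrib]
      apply sum_congr rfl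
      intro n _
      ring
    rw [e1, hw1]
    have e2 := (abs_le.1 hmean2).2
    have e3 : 1 + δ0 ≤ ∑ n ∈ Icc 1 ⌊3 * X⌋₊, w n * R n T := by linarith
    have e4 : ∑ n ∈ Icc 1 ⌊3 * X⌋₊, w n * R n Y ≤ 1 + δ0 / 16 := by linarith
    have e5 := mul_le_mul_of_nonneg_left e3 (show 0 ≤ 1 - τ by linarith)
    have e6 := mul_le_mul_of_nonneg_left e4 (show 0 ≤ K * (1 + τ) from
      mul_nonneg hK (by linarith))
    have e7 : τ * δ0 ≤ 1 / 16 * δ0 := mul_le_mul_of_nonneg_right hτ1 hδ0.le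
    have e8 : K * (1 + τ) * (δ0 / 16) ≤ δ0 / 8 := by
      calc K * (1 + τ) * (δ0 / 16) ≤ 1 * 2 * (δ0 / 16) := by
            apply mul_le_mul_of_nonneg_right _ (by positivity)
            exact mul_le_mul (by linarith) (by linarith) (by linarith) (by linarith)
        _ = δ0 / 8 := by ring
    have e9 : K * τ ≤ 1 * τ := mul_le_mul_of_nonneg_right hK1 hτ.le
    linarith
  have hpick := pick w (fun n => (1 - τ) * R n T - 1 + K - K * (1 + τ) * R n Y)
    (Icc 1 ⌊3 * X⌋₊) bad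
    (K := 20 * W / X) (c := δ0 / 2) (D := 2 * L) (by positivity) hw hw1 (by positivity)
    (by positivity) hΦ
    (fun n hn hn0 => by
      obtain ⟨q1, q2⟩ := hws n hn0
      have q3 := R_le hT0 ((hlog n q1 q2.1).trans hM2) (mem_Icc.1 hn).1
      have q4 := R_nonneg (mem_Icc.1 hn).1 hY0
      have q5 := R_nonneg (mem_Icc.1 hn).1 hT0
      show (1 - τ) * R n T - 1 + K - K * (1 + τ) * R n Y ≤ 2 * L
      have q6 : 0 ≤ K * (1 + τ) * R n Y := by positivity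
      have q7 : 0 ≤ τ * R n T := by positivity
      linarith)
  obtain ⟨N, hN⟩ : ∃ N : Finset ℕ, N = (Icc 1 ⌊3 * X⌋₊).filter
      (fun n => (w n ≠ 0 ∧ δ0 / 2 / 2 ≤
        (fun n => (1 - τ) * R n T - 1 + K - K * (1 + τ) * R n Y) n) ∧ n ∉ bad) := ⟨_, rfl⟩
  rw [← hN] at hpick
  obtain ⟨G, hG⟩ : ∃ G : Finset ℕ, G = (Icc 1 ⌊3 * X⌋₊).filter (fun p : ℕ => X < p ∧
      (p : ℝ) < 3 * X ∧ p.Prime ∧ ∀ u : ℕ, 1 ≤ u → (u : ℝ) ≤ M ^ a + 1 →
          1 + K * (M / L ^ b * cn PP p (p + ⌊Real.log p ^ b⌋₊) - 1) + δ0 / 4 ≤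
            (cn PP (p - 1) (p - 1 + u) : ℝ) * L / u) := ⟨_, rfl⟩
  refine ⟨G, ?_, fun x hx => ?_⟩
  swap
  · rw [hG, mem_filter] at hx
    exact hx.2
  have hspread : N.card ≤ G.card * (T + 1) := by
    apply spread
    intro n hn
    rw [hN, mem_filter] at hn
    obtain ⟨hn1, ⟨hn2, hn3⟩, hn4⟩ := hn
    replace hn3 : δ0 / 2 / 2 ≤ (1 - τ) * R n T - 1 + K - K * (1 + τ) * R n Y := hn3
    rw [mem_Icc] at hn1
    obtain ⟨hnX, hnX3, -⟩ := hws n hn2
    have hnY : n + T < ⌊3 * X⌋₊ := by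
      by_contra hcon
      push Not at hcon
      apply hn4
      rw [hbad, mem_Icc]
      omega
    have hLn : L ≤ Real.log n := Real.log_le_log hX0 hnX.le
    have hLn' : Real.log n ≤ M := hlog n hnX hnX3
    have e1 := R_cn (n := n) hT0
    have e1' := R_cn (n := n) hY0
    have r1 := R_nonneg hn1.1 hT0
    have r2 := R_nonneg hn1.1 hY0
    have e2 : R n T * T ≤ (cn PP n (n + T) : ℝ) * M := by
      rw [← e1]
      exact mul_le_mul_of_nonneg_left hLn' (Nat.cast_nonneg _)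
    have e2' : (cn PP n (n + Y) : ℝ) * L ≤ R n Y * Y := by
      rw [← e1']
      exact mul_le_mul_of_nonneg_left hLn (Nat.cast_nonneg _)
    have hRT : 0 < R n T := by
      have q1 : 0 ≤ K * (1 + τ) * R n Y := by positivity
      have q2 : 0 < (1 - τ) * R n T := by linarith
      exact pos_of_mul_pos_right q2 (by linarith)
    have e0 : 0 < cn PP n (n + T) := by
      by_contra hcon
      have q0 : cn PP n (n + T) = 0 := by omega
      rw [q0] at e2
      have : 0 < R n T * T := by positivity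
      push_cast at e2
      linarith
    have hTU0 : (0 : ℝ) < T + U := by linarith
    obtain ⟨m, hm0, hm1, hm2, hm3⟩ := high_exists PP ((cn PP n (n + T) : ℝ) / (T + U)) U T n e0
      (by rw [div_mul_cancel₀ _ hTU0.ne'])
    refine ⟨m, ?_, by omega, hm2⟩
    rw [hG, mem_filter, mem_Icc]
    have hnt : (n : ℝ) ≤ m := by exact_mod_cast hm1.le
    have htX : (m : ℝ) < 3 * X := by
      have q1 : (m : ℝ) < ⌊3 * X⌋₊ := by exact_mod_cast (by omega : m < ⌊3 * X⌋₊)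
      have q2 : (⌊3 * X⌋₊ : ℝ) ≤ 3 * X := Nat.floor_le (by positivity)
      linarith
    have hmX : X < m := by linarith
    refine ⟨⟨by omega, by omega⟩, hmX, htX, hm0, fun u hu1 hu2 => ?_⟩
    have hu3 : u ≤ U := by
      have q1 : (u : ℝ) < U + 1 := by linarith
      have q2 : u < U + 1 := by exact_mod_cast q1
      omega
    have hu0 : (0 : ℝ) < u := by exact_mod_cast hu1
    have q3 := hm3 u hu1 hu3
    -- the small windows
    have A1 : (1 - ρ) * (1 - ρ) * R n T ≤ (cn PP (m - 1) (m - 1 + u) : ℝ) * L / u := by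
      rw [le_div_iff₀ hu0]
      have q5 : (1 - ρ) * (1 - ρ) * R n T * (T + U) ≤ (cn PP n (n + T) : ℝ) * L := by
        calc (1 - ρ) * (1 - ρ) * R n T * ((T : ℝ) + U)
            ≤ (1 - ρ) * (1 - ρ) * R n T * ((1 + ρ) * T) := by
              apply mul_le_mul_of_nonneg_left (by linarith)
              exact mul_nonneg (mul_nonneg (by linarith) (by linarith)) r1
          _ = (1 - ρ * ρ) * ((1 - ρ) * (R n T * T)) := by ring
          _ ≤ 1 * ((1 - ρ) * (R n T * T)) := by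
              apply mul_le_mul_of_nonneg_right (by linarith)
              exact mul_nonneg (by linarith) (mul_nonneg r1 hT0r.le)
          _ = (1 - ρ) * (R n T * T) := one_mul _
          _ ≤ (1 - ρ) * (cn PP n (n + T) * M) := mul_le_mul_of_nonneg_left e2 (by linarith)
          _ = cn PP n (n + T) * ((1 - ρ) * M) := by ring
          _ ≤ cn PP n (n + T) * L := mul_le_mul_of_nonneg_left s6 (Nat.cast_nonneg _)
      calc (1 - ρ) * (1 - ρ) * R n T * u = (1 - ρ) * (1 - ρ) * R n T * (T + U) * (u / (T + U)) := by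
            field_simp
        _ ≤ (cn PP n (n + T) : ℝ) * L * (u / (T + U)) :=
            mul_le_mul_of_nonneg_right q5 (by positivity)
        _ = (cn PP n (n + T) : ℝ) / (T + U) * u * L := by field_simp
        _ ≤ _ := mul_le_mul_of_nonneg_right q3 hL0.le
    -- the large window
    have A2 : M / L ^ b * cn PP m (m + ⌊Real.log m ^ b⌋₊) ≤ (1 + τ) * R n Y := by
      have hlt : Real.log m ≤ M := hlog m hmX htX
      have hlt' : 0 ≤ Real.log m := Real.log_natCast_nonneg m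
      have p1 : ⌊Real.log (m : ℝ) ^ b⌋₊ ≤ ⌊M ^ b⌋₊ :=
        Nat.floor_le_floor (Real.rpow_le_rpow hlt' hlt hb.le)
      have p2 : cn PP m (m + ⌊Real.log (m : ℝ) ^ b⌋₊) ≤ cn PP n (n + Y) :=
        cn_mono PP (by omega) (by omega)
      have p2' : (cn PP m (m + ⌊Real.log (m : ℝ) ^ b⌋₊) : ℝ) ≤ cn PP n (n + Y) := by
        exact_mod_cast p2
      rw [div_mul_eq_mul_div, div_le_iff₀ hLb]
      have p3 : (Y : ℝ) ≤ (1 + 2 * ρ) * L ^ b := by
        rw [hYr]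
        linarith
      calc M * (cn PP m (m + ⌊Real.log (m : ℝ) ^ b⌋₊) : ℝ) ≤ M * cn PP n (n + Y) :=
            mul_le_mul_of_nonneg_left p2' hM0.le
        _ ≤ (1 + ρ) * L * cn PP n (n + Y) := mul_le_mul_of_nonneg_right g4 (Nat.cast_nonneg _)
        _ = (1 + ρ) * (cn PP n (n + Y) * L) := by ring
        _ ≤ (1 + ρ) * (R n Y * Y) := mul_le_mul_of_nonneg_left e2' (by linarith)
        _ ≤ (1 + ρ) * (R n Y * ((1 + 2 * ρ) * L ^ b)) := by
            apply mul_le_mul_of_nonneg_left _ (by linarith)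
            exact mul_le_mul_of_nonneg_left p3 r2
        _ = (1 + 3 * ρ + 2 * (ρ * ρ)) * (R n Y * L ^ b) := by ring
        _ ≤ (1 + τ) * (R n Y * L ^ b) := by
            apply mul_le_mul_of_nonneg_right (by linarith)
            positivity
        _ = _ := by ring
    have A3 : (1 - τ) * R n T ≤ (1 - ρ) * (1 - ρ) * R n T := by
      apply mul_le_mul_of_nonneg_right _ r1
      have e : (1 - ρ) * (1 - ρ) = 1 - 2 * ρ + ρ * ρ := by ring
      rw [e]
      linarith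
    have A5 := mul_le_mul_of_nonneg_left A2 hK
    have A7 : K * (1 + τ) * R n Y = K * ((1 + τ) * R n Y) := by ring
    rw [A7] at hn3
    have A9 : K * (M / L ^ b * cn PP m (m + ⌊Real.log (m : ℝ) ^ b⌋₊) - 1) =
      K * (M / L ^ b * cn PP m (m + ⌊Real.log (m : ℝ) ^ b⌋₊)) - K := by ring
    rw [A9]
    linarith
  have hspread' : (N.card : ℝ) ≤ (G.card : ℝ) * (T + 1) := by exact_mod_cast hspread
  have hnum := number (G := G) (X := X) (W := W) (L := L) (c := δ0 / 2)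
    (D' := 2 * L)
    (Z := X ^ (min ε (1 / 2) / 2)) (A := L ^ (a + κ)) (Y := T) (n0 := bad.card) hX0
    (by exact_mod_cast hW) hL0 (by positivity)
    (by positivity) hWX hTA hbadc (hpick.trans hspread')
  refine h4.trans (le_trans (le_of_eq ?_) hnum)
  congr 1
  have e5 : L ^ (a + κ + 1) = L ^ (a + κ) * L := by
    rw [Real.rpow_add hL0, Real.rpow_one]
  rw [e5]
  field_simp
  ring

end Pool.Agent.V5helper33.PR
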