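import Pool.Agent.V5helper33.PR.Fin
import Pool.Agent.V5helper33.PR.Sep

set_option autoImplicit false

/-!
# One good length suffices (helper33)
-/

namespace Pool.Agent.V5helper33.PR

open Finset Filter Topology

lemma pc_cn {s t : ℕ} (h : s ≤ t) :
    (Nat.primeCounting t : ℝ) - Nat.primeCounting s = cn PP s t := by
  have h1 := cn_count h
  show (Nat.count Nat.Prime (t + 1) : ℝ) - Nat.count Nat.Prime (s + 1) = _
  rw [← h1]
  push_cast
  ring

/-- `R_h(x)` for `h = (log x) ^ a` -/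
noncomputable def rat (a x : ℝ) : ℝ :=
  Real.log x / Real.log x ^ a *
    ((Nat.primeCounting ⌊x + Real.log x ^ a⌋₊ : ℝ) - (Nat.primeCounting ⌊x⌋₊ : ℝ))

/-- tiling with windows starting at elements of `A` -/
lemma tile_lowp (A : Set ℕ) (c : ℝ) (hc : 0 ≤ c) (U E : ℕ) : ∀ D q : ℕ, q ∈ A → E - q ≤ D →
    (∀ q' ∈ A, q ≤ q' → q' < E → ∃ u, 1 ≤ u ∧ u ≤ U ∧ c * u ≤ cn A q' (q' + u) ∧
      0 < cn A q' (q' + u)) → c * ((E : ℝ) - q - U) ≤ cn A q E := by
  classical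
  intro D
  induction D with
  | zero =>
    intro q _ hD _
    have h1 : (E : ℝ) ≤ q := by exact_mod_cast (by omega : E ≤ q)
    have h2 : (0 : ℝ) ≤ U := Nat.cast_nonneg U
    have h3 : c * ((E : ℝ) - q - U) ≤ 0 := mul_nonpos_of_nonneg_of_nonpos hc (by linarith)
    exact h3.trans (Nat.cast_nonneg _)
  | succ D ih =>
    intro q hq hD h
    by_cases hE : E ≤ q + U
    · have h1 : (E : ℝ) ≤ q + U := by exact_mod_cast hE
      have h3 : c * ((E : ℝ) - q - U) ≤ 0 := mul_nonpos_of_nonneg_of_nonpos hc (by linarith)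
      exact h3.trans (Nat.cast_nonneg _)
    · push Not at hE
      obtain ⟨u, hu1, hu2, hu3, hu4⟩ := h q hq le_rfl (by omega)
      obtain ⟨F, hF⟩ : ∃ F : Finset ℕ, F = (Ioc q (q + u)).filter (fun m => m ∈ A) := ⟨_, rfl⟩
      have hFne : F.Nonempty := by
        rw [hF]
        exact card_pos.1 hu4
      obtain ⟨q1, hq1, hmax⟩ := F.exists_max_image id hFne
      rw [hF, mem_filter, mem_Ioc] at hq1
      obtain ⟨⟨hq2, hq3⟩, hq4⟩ := hq1
      have e1 : cn A q1 (q + u) = 0 := by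
        by_contra hne
        obtain ⟨m, g1, g2, g3⟩ := (cn_pos_iff A q1 (q + u)).1 (Nat.pos_of_ne_zero hne)
        have g4 := hmax m (by rw [hF, mem_filter, mem_Ioc]; exact ⟨⟨by omega, g3⟩, g1⟩)
        simp only [id] at g4
        omega
      have e2 : cn A q (q + u) = cn A q q1 := by
        rw [cn_add A hq2.le hq3, e1, add_zero]
      have e3 : cn A q E = cn A q q1 + cn A q1 E := cn_add A hq2.le (by omega)
      have i1 := ih q1 hq4 (by omega) (fun q' g1 g2 g3 => h q' g1 (by omega) g3)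
      rw [e2] at hu3
      have h5 : ((q1 : ℝ) - q) ≤ u := by
        have : (q1 : ℝ) ≤ q + u := by exact_mod_cast hq3
        linarith
      have h6 := mul_le_mul_of_nonneg_left h5 hc
      rw [e3]
      push_cast
      linarith

lemma rat_nonneg (a : ℝ) {x : ℝ} (hx : 1 ≤ x) : 0 ≤ rat a x := by
  unfold rat
  have h1 : 0 ≤ Real.log x := Real.log_nonneg hx
  have h2 : 0 ≤ Real.log x ^ a := Real.rpow_nonneg h1 _
  apply mul_nonneg (div_nonneg h1 h2)
  rw [sub_nonneg]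
  exact_mod_cast Nat.monotone_primeCounting (Nat.floor_le_floor (by linarith))

/-- one good length for every prime: lower bound -/
theorem lower_one (a b θ θ' : ℝ) (ha : 0 < a) (hab : a < b) (hθ : θ' < θ)
    (h : ∀ᶠ p : ℕ in atTop, p.Prime → ∃ u : ℕ, 1 ≤ u ∧ (u : ℝ) ≤ Real.log p ^ a ∧
      θ * u ≤ cn PP p (p + u) * Real.log p) :
    ∀ᶠ x : ℝ in atTop, θ' ≤ rat b x := by
  classical
  rcases le_or_gt θ' 0 with h0 | h0
  · filter_upwards [eventually_ge_atTop (1 : ℝ)] with x hx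
    exact h0.trans (rat_nonneg b hx)
  have hθ0 : 0 < θ := by linarith
  have hb : 0 < b := by linarith
  obtain ⟨τ, hτ, hτ1, hτ2⟩ : ∃ τ : ℝ, 0 < τ ∧ τ ≤ 1 / 2 ∧ 2 * τ * θ ≤ θ - θ' := by
    refine ⟨min (1 / 2) ((θ - θ') / (2 * θ)), ?_, min_le_left _ _, ?_⟩
    · have : 0 < (θ - θ') / (2 * θ) := div_pos (by linarith) (by linarith)
      positivity
    · have h1 : min (1 / 2) ((θ - θ') / (2 * θ)) ≤ (θ - θ') / (2 * θ) := min_le_right _ _
      rw [le_div_iff₀ (by positivity)] at h1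
      linarith
  obtain ⟨P0, hP0⟩ := eventually_atTop.1 h
  filter_upwards [logs 1 one_pos, sizes2 a b τ 1 ha hab hτ,
    eventually_ge_atTop (2 * (P0 : ℝ) + 10)] with x h1 h2 h3
  obtain ⟨g1, g2, g3, g4⟩ := h1
  obtain ⟨s1, -, -, -, s5, s6⟩ := h2
  set L := Real.log x with hL
  set M := Real.log (3 * x) with hM
  have hx0 : 0 < x := by linarith
  have hL0 : 0 < L := by linarith
  have hM0 : 0 < M := by linarith
  have hMa : 0 ≤ M ^ a := Real.rpow_nonneg hM0.le _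
  have hMb : 0 < M ^ b := Real.rpow_pos_of_pos hM0 _
  have hLb : 0 < L ^ b := Real.rpow_pos_of_pos hL0 _
  have hLMb : L ^ b ≤ M ^ b := Real.rpow_le_rpow hL0.le g3 hb.le
  have hLbx : L ^ b ≤ x := by
    have : x ^ (9 / 10 : ℝ) ≤ x := by
      calc x ^ (9 / 10 : ℝ) ≤ x ^ (1 : ℝ) :=
            Real.rpow_le_rpow_of_exponent_le (by linarith) (by norm_num)
        _ = x := Real.rpow_one x
    linarith
  obtain ⟨s, hs⟩ : ∃ s : ℕ, s = ⌊x⌋₊ := ⟨_, rfl⟩
  obtain ⟨E, hE⟩ : ∃ E : ℕ, E = ⌊x + L ^ b⌋₊ := ⟨_, rfl⟩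
  obtain ⟨U, hU⟩ : ∃ U : ℕ, U = ⌊M ^ a⌋₊ := ⟨_, rfl⟩
  have hU1 : (U : ℝ) ≤ M ^ a := by rw [hU]; exact Nat.floor_le hMa
  have hs1 : (s : ℝ) ≤ x := by rw [hs]; exact Nat.floor_le hx0.le
  have hs2 : x < s + 1 := by rw [hs]; exact Nat.lt_floor_add_one _
  have hE1 : (E : ℝ) ≤ x + L ^ b := by rw [hE]; exact Nat.floor_le (by positivity)
  have hE2 : x + L ^ b < E + 1 := by rw [hE]; exact Nat.lt_floor_add_one _
  have hsE : s ≤ E := by
    rw [hs, hE]
    exact Nat.floor_le_floor (by linarith)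
  have hsP : 2 * P0 + 9 ≤ s := by
    have : ((2 * P0 + 9 : ℕ) : ℝ) < s + 1 := by push_cast; linarith
    have : 2 * P0 + 9 < s + 1 := by exact_mod_cast this
    omega
  -- the largest prime up to `x`
  obtain ⟨F, hF⟩ : ∃ F : Finset ℕ, F = (Ioc (s / 2) s).filter Nat.Prime := ⟨_, rfl⟩
  have hFne : F.Nonempty := by
    obtain ⟨p, hp1, hp2, hp3⟩ := Nat.exists_prime_lt_and_le_two_mul (s / 2) (by omega)
    exact ⟨p, by rw [hF, mem_filter, mem_Ioc]; exact ⟨⟨hp2, by omega⟩, hp1⟩⟩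
  obtain ⟨q, hq, hmax⟩ := F.exists_max_image id hFne
  rw [hF, mem_filter, mem_Ioc] at hq
  obtain ⟨⟨hq1, hq2⟩, hq3⟩ := hq
  have e0 : cn PP q s = 0 := by
    by_contra hne
    obtain ⟨m, k1, k2, k3⟩ := (cn_pos_iff PP q s).1 (Nat.pos_of_ne_zero hne)
    have k4 := hmax m (by rw [hF, mem_filter, mem_Ioc]; exact ⟨⟨by omega, k3⟩, k1⟩)
    simp only [id] at k4
    omega
  have htile := tile_lowp PP (θ / M) (by positivity) U E (E - q) q hq3 le_rfl
    (fun q' hq' hqq' hq'E => by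
      obtain ⟨u, hu1, hu2, hu3⟩ := hP0 q' (by omega) hq'
      have hq'r : (q' : ℝ) ≤ 3 * x := by
        have : (q' : ℝ) < E := by exact_mod_cast hq'E
        linarith
      have hq'1 : (1 : ℝ) ≤ q' := by exact_mod_cast (by omega : 1 ≤ q')
      have hlq : Real.log q' ≤ M := Real.log_le_log (by linarith) hq'r
      have hlq0 : 0 ≤ Real.log q' := Real.log_nonneg hq'1
      have hu0 : (0 : ℝ) < u := by exact_mod_cast hu1
      refine ⟨u, hu1, ?_, ?_, ?_⟩
      · rw [hU]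
        exact Nat.le_floor (hu2.trans (Real.rpow_le_rpow hlq0 hlq ha.le))
      · rw [div_mul_eq_mul_div, div_le_iff₀ hM0]
        exact hu3.trans (mul_le_mul_of_nonneg_left hlq (Nat.cast_nonneg _))
      · by_contra hne
        have hz : cn PP q' (q' + u) = 0 := by omega
        rw [hz] at hu3
        push_cast at hu3
        have : 0 < θ * u := by positivity
        linarith)
  have e1 : cn PP q E = cn PP s E := by
    rw [cn_add PP hq2 hsE, e0, zero_add]
  rw [e1] at htile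
  have hqs : (q : ℝ) ≤ s := by exact_mod_cast hq2
  have h5 : θ / M * ((1 - τ) * L ^ b) ≤ cn PP s E := by
    refine le_trans (mul_le_mul_of_nonneg_left ?_ (by positivity)) htile
    linarith
  have h6 : rat b x = L / L ^ b * cn PP s E := by
    unfold rat
    rw [← hE, ← hs, pc_cn hsE]
  rw [h6]
  have h7 : L / L ^ b * (θ / M * ((1 - τ) * L ^ b)) ≤ L / L ^ b * cn PP s E :=
    mul_le_mul_of_nonneg_left h5 (by positivity)
  refine le_trans ?_ h7
  have h8 : L / L ^ b * (θ / M * ((1 - τ) * L ^ b)) = L / M * (θ * (1 - τ)) := by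
    field_simp
  rw [h8]
  have h9 : 1 - τ ≤ L / M := by
    rw [le_div_iff₀ hM0]
    exact s6
  have h10 : (1 - τ) * (θ * (1 - τ)) ≤ L / M * (θ * (1 - τ)) :=
    mul_le_mul_of_nonneg_right h9 (mul_nonneg hθ0.le (by linarith))
  have h11 : 0 ≤ τ * τ * θ := by positivity
  linarith

/-- one good length for every prime: upper bound -/
theorem upper_one (a b θ θ' : ℝ) (ha : 0 < a) (hab : a < b) (hθ : θ < θ') (hθ0 : 0 < θ)
    (h : ∀ᶠ p : ℕ in atTop, p.Prime → ∃ u : ℕ, 1 ≤ u ∧ (u : ℝ) ≤ Real.log p ^ a ∧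
      cn PP (p - 1) (p - 1 + u) * Real.log p ≤ θ * u) :
    ∀ᶠ x : ℝ in atTop, rat b x ≤ θ' := by
  classical
  have hb : 0 < b := by linarith
  obtain ⟨θ1, h11, h12⟩ : ∃ θ1 : ℝ, θ < θ1 ∧ θ1 < θ' := exists_between hθ
  have hθ10 : 0 < θ1 := by linarith
  obtain ⟨τ, hτ, hτ2⟩ : ∃ τ : ℝ, 0 < τ ∧ τ * θ1 ≤ θ' - θ1 := by
    refine ⟨(θ' - θ1) / θ1, div_pos (by linarith) hθ10, ?_⟩
    rw [div_mul_cancel₀ _ hθ10.ne']
  obtain ⟨P0, hP0⟩ := eventually_atTop.1 h
  filter_upwards [logs 1 one_pos, sizes2 a b τ 1 ha hab hτ,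
    eventually_ge_atTop ((P0 : ℝ) + 10)] with x h1 h2 h3
  obtain ⟨g1, g2, g3, g4⟩ := h1
  obtain ⟨s1, -, -, -, s5, s6⟩ := h2
  set L := Real.log x with hL
  set M := Real.log (3 * x) with hM
  have hx0 : 0 < x := by linarith
  have hL0 : 0 < L := by linarith
  have hM0 : 0 < M := by linarith
  have hMa : 0 ≤ M ^ a := Real.rpow_nonneg hM0.le _
  have hMb : 0 < M ^ b := Real.rpow_pos_of_pos hM0 _
  have hLb : 0 < L ^ b := Real.rpow_pos_of_pos hL0 _
  have hLMb : L ^ b ≤ M ^ b := Real.rpow_le_rpow hL0.le g3 hb.le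
  have hLbx : L ^ b ≤ x := by
    have : x ^ (9 / 10 : ℝ) ≤ x := by
      calc x ^ (9 / 10 : ℝ) ≤ x ^ (1 : ℝ) :=
            Real.rpow_le_rpow_of_exponent_le (by linarith) (by norm_num)
        _ = x := Real.rpow_one x
    linarith
  obtain ⟨s, hs⟩ : ∃ s : ℕ, s = ⌊x⌋₊ := ⟨_, rfl⟩
  obtain ⟨E, hE⟩ : ∃ E : ℕ, E = ⌊x + L ^ b⌋₊ := ⟨_, rfl⟩
  obtain ⟨U, hU⟩ : ∃ U : ℕ, U = ⌊M ^ a⌋₊ := ⟨_, rfl⟩
  have hU1 : (U : ℝ) ≤ M ^ a := by rw [hU]; exact Nat.floor_le hMa
  have hs1 : (s : ℝ) ≤ x := by rw [hs]; exact Nat.floor_le hx0.le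
  have hs2 : x < s + 1 := by rw [hs]; exact Nat.lt_floor_add_one _
  have hE1 : (E : ℝ) ≤ x + L ^ b := by rw [hE]; exact Nat.floor_le (by positivity)
  have hsE : s ≤ E := by
    rw [hs, hE]
    exact Nat.floor_le_floor (by linarith)
  have hsP : P0 + 9 ≤ s := by
    have : ((P0 + 9 : ℕ) : ℝ) < s + 1 := by push_cast; linarith
    have : P0 + 9 < s + 1 := by exact_mod_cast this
    omega
  obtain ⟨T, hT⟩ : ∃ T : ℕ, T = E - s := ⟨_, rfl⟩
  have hsT : s + T = E := by omega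
  have hTr : (T : ℝ) ≤ L ^ b + 1 := by
    have : (T : ℝ) = (E : ℝ) - s := by
      rw [hT, Nat.cast_sub hsE]
    linarith
  have htile := tile_high PP (θ1 / L) U T s (fun m hm hm1 hm2 => by
      obtain ⟨u, hu1, hu2, hu3⟩ := hP0 m (by omega) hm
      have hmr : (m : ℝ) ≤ 3 * x := by
        have : (m : ℝ) ≤ E := by exact_mod_cast (by omega : m ≤ E)
        linarith
      have hmx : x ≤ m := by
        have : (s : ℝ) + 1 ≤ m := by exact_mod_cast hm1
        linarith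
      have hlm : Real.log m ≤ M := Real.log_le_log (by linarith) hmr
      have hlm' : L ≤ Real.log m := Real.log_le_log hx0 hmx
      have hu0 : (0 : ℝ) < u := by exact_mod_cast hu1
      refine ⟨u, hu1, ?_, ?_⟩
      · rw [hU]
        exact Nat.le_floor (hu2.trans (Real.rpow_le_rpow (by linarith) hlm ha.le))
      · rw [div_mul_eq_mul_div, lt_div_iff₀ hL0]
        calc (cn PP (m - 1) (m - 1 + u) : ℝ) * L ≤ cn PP (m - 1) (m - 1 + u) * Real.log m :=
              mul_le_mul_of_nonneg_left hlm' (Nat.cast_nonneg _)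
          _ ≤ θ * u := hu3
          _ < θ1 * u := mul_lt_mul_of_pos_right h11 hu0)
  rw [hsT] at htile
  have h5 : (cn PP s E : ℝ) ≤ θ1 / L * (T + U) := by
    rcases htile with h4 | h4
    · rw [h4]
      push_cast
      positivity
    · exact h4.le
  have h6 : rat b x = L / L ^ b * cn PP s E := by
    unfold rat
    rw [← hE, ← hs, pc_cn hsE]
  rw [h6]
  have h7 : (T : ℝ) + U ≤ (1 + τ) * L ^ b := by linarith
  calc L / L ^ b * cn PP s E ≤ L / L ^ b * (θ1 / L * (T + U)) :=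
        mul_le_mul_of_nonneg_left h5 (by positivity)
    _ ≤ L / L ^ b * (θ1 / L * ((1 + τ) * L ^ b)) := by
        apply mul_le_mul_of_nonneg_left _ (by positivity)
        exact mul_le_mul_of_nonneg_left h7 (by positivity)
    _ = θ1 * (1 + τ) := by field_simp
    _ ≤ θ' := by linarith

end Pool.Agent.V5helper33.PR
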