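import Pool.Agent.V5helper33.PR.Crit

set_option autoImplicit false

/-!
# For each fixed exponent the criterion fails, and comparison of two scales (helper33)
-/

namespace Pool.Agent.V5helper33.PR

open Finset Filter Topology

lemma logs_of' {X : ℝ} {x : ℕ} (hX : 3 < X) (h1 : X < x) (h2 : (x : ℝ) < 3 * X) :
    Real.log X ≤ Real.log x ∧ Real.log x ≤ Real.log (3 * X) :=
  ⟨Real.log_le_log (by linarith) h1.le, Real.log_le_log (by linarith) h2.le⟩

theorem runs_short (B : ℝ) (hB : 0 < B) : ∃ δ : ℝ, 0 < δ ∧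
    ∃ᶠ i : ℕ in atTop, ∀ j : ℕ, 1 ≤ j → (j : ℝ) ≤ Real.log (pr i) ^ B →
      (pr (i + j) : ℝ) - pr i ≤ (1 - δ) * (j * Real.log (pr i)) := by
  classical
  obtain ⟨δ, hδ, hδ1, h⟩ := high (B + 2) 1 (by linarith) one_pos
  refine ⟨δ / 2, by positivity, ?_⟩
  rw [frequently_atTop]
  intro N
  obtain ⟨X, ⟨h1, h2⟩, h3⟩ := ((h.and (logs 1 one_pos)).and
    (eventually_ge_atTop ((pr N : ℕ) : ℝ))).exists
  obtain ⟨G, hG1, hG2⟩ := h1
  obtain ⟨g1, g2, g3, g4⟩ := h2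
  have hG0 : G.Nonempty := by
    rw [← Finset.card_pos]
    have h5 : (0 : ℝ) < X * Real.exp (-Real.log X ^ (1 : ℝ)) := by
      have : 0 < X := by linarith
      positivity
    exact_mod_cast lt_of_lt_of_le h5 hG1
  obtain ⟨x, hx⟩ := hG0
  obtain ⟨k1, k2, k0, k3⟩ := hG2 x hx
  obtain ⟨l1, l2⟩ := logs_of' g1 k1 k2
  have e : Nat.nth Nat.Prime (Nat.count Nat.Prime x) = x := Nat.nth_count k0
  refine ⟨Nat.count Nat.Prime x, ?_, ?_⟩
  · have hNx : pr N < x := by exact_mod_cast lt_of_le_of_lt h3 k1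
    have h6 : Nat.count Nat.Prime (pr N) = N :=
      Nat.count_nth_of_infinite Nat.infinite_setOfPred_prime N
    rw [← h6]
    exact Nat.count_monotone _ hNx.le
  · rw [← e] at k3 l1 l2
    exact run_dense (i := Nat.count Nat.Prime x) (B := B) g2 g3 hδ hδ1 l1 l2 hB.le k3

theorem runs_long (B : ℝ) (hB : 0 < B) : ∃ δ : ℝ, 0 < δ ∧
    ∃ᶠ i : ℕ in atTop, ∀ j : ℕ, 1 ≤ j → (j : ℝ) ≤ Real.log (pr i) ^ B →
      (1 + δ) * (j * Real.log (pr i)) ≤ (pr (i + j) : ℝ) - pr i := by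
  classical
  obtain ⟨δ, hδ, hδ1, h⟩ := low (B + 2) 1 (by linarith) one_pos
  refine ⟨δ, hδ, ?_⟩
  rw [frequently_atTop]
  intro N
  obtain ⟨X, ⟨h1, h2⟩, h3⟩ := ((h.and (logs 1 one_pos)).and
    (eventually_ge_atTop ((pr N : ℕ) : ℝ))).exists
  obtain ⟨G, hG1, hG2⟩ := h1
  obtain ⟨g1, g2, g3, g4⟩ := h2
  have hG0 : G.Nonempty := by
    rw [← Finset.card_pos]
    have h5 : (0 : ℝ) < X * Real.exp (-Real.log X ^ (1 : ℝ)) := by
      have : 0 < X := by linarith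
      positivity
    exact_mod_cast lt_of_lt_of_le h5 hG1
  obtain ⟨x, hx⟩ := hG0
  obtain ⟨k1, k2, k3⟩ := hG2 x hx
  obtain ⟨l1, l2⟩ := logs_of' g1 k1 k2
  -- the last prime up to `x`
  obtain ⟨c, hc⟩ : ∃ c, c = Nat.count Nat.Prime (x + 1) := ⟨_, rfl⟩
  have hNx : pr N < x := by exact_mod_cast lt_of_le_of_lt h3 k1
  have hcN : N + 1 ≤ c := by
    rw [hc, ← count_pr_succ N]
    exact Nat.count_monotone _ (by omega)
  obtain ⟨i, hi⟩ : ∃ i, c = i + 1 := ⟨c - 1, by omega⟩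
  have hix : Nat.nth Nat.Prime i ≤ x := by
    have h7 : Nat.nth Nat.Prime i < x + 1 := by
      apply Nat.nth_lt_of_lt_count
      rw [← hc, hi]
      exact Nat.lt_succ_self i
    omega
  have hix2 : x + 1 ≤ Nat.nth Nat.Prime (i + 1) := by
    apply (Nat.count_le_iff_le_nth Nat.infinite_setOfPred_prime).1
    rw [← hc, hi]
  have hno : cn PP (Nat.nth Nat.Prime i) x = 0 := by
    have h8 := cn_mono PP (le_refl (Nat.nth Nat.Prime i)) (show x ≤ Nat.nth Nat.Prime (i + 1) - 1 by omega)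
    have h9 : cn PP (Nat.nth Nat.Prime i) (Nat.nth Nat.Prime (i + 1) - 1) = 0 := by
      by_contra hne
      obtain ⟨m, m1, m2, m3⟩ := (cn_pos_iff PP _ _).1 (Nat.pos_of_ne_zero hne)
      have m1' : m.Prime := m1
      have a1 : i < Nat.count Nat.Prime m := by
        rw [← Nat.count_nth_of_infinite Nat.infinite_setOfPred_prime i]
        exact Nat.count_strict_mono (Nat.nth_mem_of_infinite Nat.infinite_setOfPred_prime i) m2
      have a2 : Nat.count Nat.Prime m < i + 1 := by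
        have m4 : m < Nat.nth Nat.Prime (i + 1) := by omega
        rw [← Nat.count_nth_of_infinite Nat.infinite_setOfPred_prime (i + 1)]
        exact Nat.count_strict_mono m1' m4
      omega
    omega
  refine ⟨i, by omega, ?_⟩
  have hP2 : 2 ≤ Nat.nth Nat.Prime i :=
    (Nat.nth_mem_of_infinite Nat.infinite_setOfPred_prime i).two_le
  have hlP : Real.log (Nat.nth Nat.Prime i : ℕ) ≤ Real.log (3 * X) := by
    refine le_trans (Real.log_le_log (by positivity) ?_) l2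
    exact_mod_cast hix
  exact run_sparse (i := i) (B := B) (by linarith) hδ hδ1 (Real.log_natCast_nonneg _) hlP hB.le
    (fun u hu1 hu2 => by
      refine le_trans ?_ (k3 u hu1 hu2)
      apply mul_le_mul_of_nonneg_right _ (by linarith)
      have : cn PP (Nat.nth Nat.Prime i) (Nat.nth Nat.Prime i + u) ≤ cn PP x (x + u) := by
        by_cases hux : Nat.nth Nat.Prime i + u ≤ x
        · have := cn_mono PP (le_refl (Nat.nth Nat.Prime i)) hux
          omega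
        · rw [cn_add PP hix (by omega : x ≤ Nat.nth Nat.Prime i + u), hno, zero_add]
          exact cn_mono PP le_rfl (by omega)
      exact_mod_cast this)

theorem not_both (a : ℝ) : ∃ ε : ℝ, 0 < ε ∧ ¬ Short ε a ∧ ¬ Long ε a := by
  obtain ⟨B, hB0, hB1⟩ : ∃ B : ℝ, 0 < B ∧ a ≤ B := ⟨max a 1, by positivity, le_max_left _ _⟩
  obtain ⟨δ1, h1, H1⟩ := runs_long B hB0
  obtain ⟨δ2, h2, H2⟩ := runs_short B hB0
  have hm : 0 < min δ1 δ2 := lt_min h1 h2
  refine ⟨min δ1 δ2 / 2, by positivity, fun hs => ?_, fun hl => ?_⟩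
  · have hs' := short_mono hB1 hs
    obtain ⟨n, g1, g2, g3⟩ := (H1.and_eventually (hs'.and
      (log_pr_tendsto.eventually_gt_atTop 0))).exists
    obtain ⟨j, j1, j2, j3⟩ := g2
    have k1 := g1 j j1 j2
    have k2 : 0 < (j : ℝ) * Real.log (pr n) := by
      have : (0 : ℝ) < j := by exact_mod_cast j1
      positivity
    have k3 : min δ1 δ2 ≤ δ1 := min_le_left _ _
    have k4 : (1 + min δ1 δ2 / 2) * ((j : ℝ) * Real.log (pr n)) <
        (1 + δ1) * (j * Real.log (pr n)) := mul_lt_mul_of_pos_right (by linarith) k2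
    linarith
  · have hl' := long_mono hB1 hl
    obtain ⟨n, g1, g2, g3⟩ := (H2.and_eventually (hl'.and
      (log_pr_tendsto.eventually_gt_atTop 0))).exists
    obtain ⟨j, j1, j2, j3⟩ := g2
    have k1 := g1 j j1 j2
    have k2 : 0 < (j : ℝ) * Real.log (pr n) := by
      have : (0 : ℝ) < j := by exact_mod_cast j1
      positivity
    have k3 : min δ1 δ2 ≤ δ2 := min_le_right _ _
    have k4 : (1 - δ2) * ((j : ℝ) * Real.log (pr n)) <
        (1 - min δ1 δ2 / 2) * (j * Real.log (pr n)) := mul_lt_mul_of_pos_right (by linarith) k2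
    linarith

/-- the number of the integers `x` in `(X, 3 X)` with the property `Q` -/
noncomputable def numb (X : ℝ) (Q : ℕ → Prop) : ℝ :=
  ({x : ℕ | X < x ∧ (x : ℝ) < 3 * X ∧ Q x}.ncard : ℝ)

lemma finite_block' (X : ℝ) (q : ℕ → Prop) : {n : ℕ | X < n ∧ (n : ℝ) < 3 * X ∧ q n}.Finite := by
  apply (Finset.finite_toSet (Finset.range (⌊3 * X⌋₊ + 1))).subset
  intro n hn
  simp only [Set.mem_ofPred_eq] at hn
  rw [Finset.mem_coe, Finset.mem_range]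
  have := Nat.le_floor hn.2.1.le
  omega

lemma card_le_numb {X : ℝ} {Q : ℕ → Prop} {G : Finset ℕ}
    (h : ∀ x ∈ G, X < x ∧ (x : ℝ) < 3 * X ∧ Q x) : (G.card : ℝ) ≤ numb X Q := by
  unfold numb
  rw [← Set.ncard_coe_finset]
  have := Set.ncard_le_ncard (s := (G : Set ℕ)) (t := {x : ℕ | X < x ∧ (x : ℝ) < 3 * X ∧ Q x})
    (fun x hx => h x hx) (finite_block' X Q)
  exact_mod_cast this

lemma numb_mono {X : ℝ} {Q Q' : ℕ → Prop} (h : ∀ x : ℕ, Q x → Q' x) : numb X Q ≤ numb X Q' := by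
  unfold numb
  have := Set.ncard_le_ncard (s := {x : ℕ | X < x ∧ (x : ℝ) < 3 * X ∧ Q x})
    (t := {x : ℕ | X < x ∧ (x : ℝ) < 3 * X ∧ Q' x})
    (fun x hx => ⟨hx.1, hx.2.1, h x hx.2.2⟩) (finite_block' X Q')
  exact_mod_cast this

lemma rat_nat {b : ℝ} {x : ℕ} (hx : 0 ≤ Real.log (x : ℝ)) :
    rat b x = Real.log x / Real.log x ^ b * cn PP x (x + ⌊Real.log (x : ℝ) ^ b⌋₊) := by
  have h0 : 0 ≤ Real.log (x : ℝ) ^ b := Real.rpow_nonneg hx _
  apply rat_cn (s := x) (E := x + ⌊Real.log (x : ℝ) ^ b⌋₊) (Nat.floor_natCast x).symm _ (by omega)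
  rw [add_comm (x : ℝ), Nat.floor_add_natCast h0, add_comm]

/-- **comparison of two scales, few primes** -/
theorem cmp_low (a b K : ℝ) (ha : 0 < a) (hab : a < b) (hK : 0 ≤ K) :
    ∃ δ : ℝ, 0 < δ ∧ ∀ ε : ℝ, 0 < ε → ∀ᶠ X : ℝ in atTop, X ^ (1 - ε) ≤
      numb X (fun x => ∀ u : ℝ, 0 < u → u ≤ Real.log x ^ a →
        Real.log x / u * ({m : ℕ | m.Prime ∧ x < m ∧ (m : ℝ) ≤ x + u}.ncard : ℝ) + δ ≤
          1 + K * (rat b x - 1)) := by
  obtain ⟨δ, hδ, H⟩ := sep_low a b K ha hab hK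
  refine ⟨δ, hδ, fun ε hε => ?_⟩
  filter_upwards [H ε hε, logs 1 one_pos] with X h1 h2
  obtain ⟨G, hG1, hG2⟩ := h1
  obtain ⟨g1, g2, g3, g4⟩ := h2
  refine hG1.trans (card_le_numb fun x hx => ?_)
  obtain ⟨k1, k2, k3⟩ := hG2 x hx
  obtain ⟨l1, l2⟩ := logs_of' g1 k1 k2
  refine ⟨k1, k2, fun u hu hu2 => ?_⟩
  have hx0 : 0 < Real.log (x : ℝ) := by linarith
  have hM0 : 0 < Real.log (3 * X) := by linarith
  have hMa : 0 ≤ Real.log (3 * X) ^ a := Real.rpow_nonneg hM0.le _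
  have hxM : Real.log (x : ℝ) ^ a ≤ Real.log (3 * X) ^ a := Real.rpow_le_rpow hx0.le l2 ha.le
  have hxMb : Real.log (x : ℝ) ^ b ≤ Real.log (3 * X) ^ b :=
    Real.rpow_le_rpow hx0.le l2 (by linarith)
  have hxb : 0 < Real.log (x : ℝ) ^ b := Real.rpow_pos_of_pos hx0 _
  -- the large window
  have r1 : 1 + K * (Real.log X / Real.log (3 * X) ^ b * cn PP x (x + ⌊Real.log (x : ℝ) ^ b⌋₊) - 1) ≤
      1 + K * (rat b x - 1) := by
    rw [rat_nat hx0.le]
    have r2 : Real.log X / Real.log (3 * X) ^ b ≤ Real.log x / Real.log (x : ℝ) ^ b := by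
      apply div_le_div₀ hx0.le l1 hxb hxMb
    have r3 := mul_le_mul_of_nonneg_right r2
      (Nat.cast_nonneg (α := ℝ) (cn PP x (x + ⌊Real.log (x : ℝ) ^ b⌋₊)))
    have r4 := mul_le_mul_of_nonneg_left (sub_le_sub_right r3 1) hK
    linarith
  have e0 : ({m : ℕ | m.Prime ∧ x < m ∧ (m : ℝ) ≤ x + u}.ncard : ℝ) = cn PP x (x + ⌊u⌋₊) := by
    have := ncard_Ioc PP x hu.le
    exact_mod_cast this
  rw [e0]
  have hf : (⌊u⌋₊ : ℝ) ≤ u := Nat.floor_le hu.le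
  refine le_trans ?_ r1
  rcases Nat.eq_zero_or_pos ⌊u⌋₊ with h0 | h0
  · rw [h0, add_zero]
    have e1 : cn PP x x = 0 := by
      have := cn_le PP x x
      omega
    rw [e1]
    have h4 := k3 1 le_rfl (by push_cast; linarith)
    have h5 : 0 ≤ (cn PP x (x + 1) : ℝ) * Real.log (3 * X) / (1 : ℕ) := by positivity
    simp only [Nat.cast_zero, mul_zero, zero_add]
    linarith
  · have h4 := k3 ⌊u⌋₊ h0 (by linarith)
    have hu0 : (0 : ℝ) < ⌊u⌋₊ := by exact_mod_cast h0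
    have h5 : Real.log (x : ℝ) / u * (cn PP x (x + ⌊u⌋₊) : ℝ) ≤
        (cn PP x (x + ⌊u⌋₊) : ℝ) * Real.log (3 * X) / ⌊u⌋₊ := by
      rw [mul_div_assoc, mul_comm]
      apply mul_le_mul_of_nonneg_left _ (Nat.cast_nonneg _)
      exact div_le_div₀ hM0.le l2 hu0 hf
    linarith

/-- **comparison of two scales, many primes** -/
theorem cmp_high (a b K : ℝ) (ha : 0 < a) (hab : a < b) (hK : 0 ≤ K) (hK1 : K ≤ 1) :
    ∃ δ : ℝ, 0 < δ ∧ ∀ ε : ℝ, 0 < ε → ∀ᶠ X : ℝ in atTop, X ^ (1 - ε) ≤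
      numb X (fun p => p.Prime ∧ ∀ u : ℝ, 0 < u → u ≤ Real.log p ^ a →
        1 + K * (rat b p - 1) + δ ≤
          Real.log p / u * ({m : ℕ | m.Prime ∧ p ≤ m ∧ (m : ℝ) < p + u}.ncard : ℝ)) := by
  obtain ⟨δ, hδ, H⟩ := sep_high a b K ha hab hK hK1
  refine ⟨δ, hδ, fun ε hε => ?_⟩
  filter_upwards [H ε hε, logs 1 one_pos] with X h1 h2
  obtain ⟨G, hG1, hG2⟩ := h1
  obtain ⟨g1, g2, g3, g4⟩ := h2
  refine hG1.trans (card_le_numb fun x hx => ?_)
  obtain ⟨k1, k2, k0, k3⟩ := hG2 x hx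
  obtain ⟨l1, l2⟩ := logs_of' g1 k1 k2
  refine ⟨k1, k2, k0, fun u hu hu2 => ?_⟩
  have hx0 : 0 < Real.log (x : ℝ) := by linarith
  have hX0 : 0 < Real.log X := by linarith
  have hM0 : 0 < Real.log (3 * X) := by linarith
  have hMa : 0 ≤ Real.log (3 * X) ^ a := Real.rpow_nonneg hM0.le _
  have hxM : Real.log (x : ℝ) ^ a ≤ Real.log (3 * X) ^ a := Real.rpow_le_rpow hx0.le l2 ha.le
  have hxLb : Real.log X ^ b ≤ Real.log (x : ℝ) ^ b :=
    Real.rpow_le_rpow hX0.le l1 (by linarith)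
  have hLb : 0 < Real.log X ^ b := Real.rpow_pos_of_pos hX0 _
  have r1 : 1 + K * (rat b x - 1) ≤
      1 + K * (Real.log (3 * X) / Real.log X ^ b * cn PP x (x + ⌊Real.log (x : ℝ) ^ b⌋₊) - 1) := by
    rw [rat_nat hx0.le]
    have r2 : Real.log x / Real.log (x : ℝ) ^ b ≤ Real.log (3 * X) / Real.log X ^ b := by
      apply div_le_div₀ hM0.le l2 hLb hxLb
    have r3 := mul_le_mul_of_nonneg_right r2
      (Nat.cast_nonneg (α := ℝ) (cn PP x (x + ⌊Real.log (x : ℝ) ^ b⌋₊)))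
    have r4 := mul_le_mul_of_nonneg_left (sub_le_sub_right r3 1) hK
    linarith
  have e0 : ({m : ℕ | m.Prime ∧ x ≤ m ∧ (m : ℝ) < x + u}.ncard : ℝ) =
      cn PP (x - 1) (x - 1 + ⌈u⌉₊) := by
    have := ncard_Ico PP k0.one_lt.le hu
    exact_mod_cast this
  rw [e0]
  have hf : u ≤ ⌈u⌉₊ := Nat.le_ceil u
  have hf' : (⌈u⌉₊ : ℝ) < u + 1 := Nat.ceil_lt_add_one hu.le
  have h0 : 1 ≤ ⌈u⌉₊ := Nat.one_le_iff_ne_zero.2 (by
    intro h
    rw [Nat.ceil_eq_zero] at h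
    linarith)
  have h4 := k3 ⌈u⌉₊ h0 (by linarith)
  have h5 : (cn PP (x - 1) (x - 1 + ⌈u⌉₊) : ℝ) * Real.log X / ⌈u⌉₊ ≤
      Real.log (x : ℝ) / u * (cn PP (x - 1) (x - 1 + ⌈u⌉₊) : ℝ) := by
    rw [mul_div_assoc, mul_comm (Real.log (x : ℝ) / u)]
    apply mul_le_mul_of_nonneg_left _ (Nat.cast_nonneg _)
    exact div_le_div₀ hx0.le l1 hu hf
  linarith

end Pool.Agent.V5helper33.PR
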