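import Mathlib

set_option autoImplicit false

/-!
# Tiling of an interval with good windows (helper33)
-/

namespace Pool.Agent.V5helper33.PR

open Finset

open Classical in
/-- the number of the elements of `A` in `(s, t]` -/
noncomputable def cn (A : Set ℕ) (s t : ℕ) : ℕ := ((Ioc s t).filter (fun m => m ∈ A)).card

lemma cn_add (A : Set ℕ) {s t r : ℕ} (h1 : s ≤ t) (h2 : t ≤ r) :
    cn A s r = cn A s t + cn A t r := by
  classical
  unfold cn
  rw [← card_union_of_disjoint]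
  · congr 1
    ext m
    simp only [mem_union, mem_filter, mem_Ioc]
    constructor
    · rintro ⟨⟨a, b⟩, c⟩
      by_cases h : m ≤ t
      · exact Or.inl ⟨⟨a, h⟩, c⟩
      · exact Or.inr ⟨⟨by omega, b⟩, c⟩
    · rintro (⟨⟨a, b⟩, c⟩ | ⟨⟨a, b⟩, c⟩)
      · exact ⟨⟨a, by omega⟩, c⟩
      · exact ⟨⟨by omega, b⟩, c⟩
  · rw [disjoint_left]
    intro m hm hm'
    simp only [mem_filter, mem_Ioc] at hm hm'
    omega

lemma cn_mono (A : Set ℕ) {s s' t t' : ℕ} (h1 : s' ≤ s) (h2 : t ≤ t') : cn A s t ≤ cn A s' t' := by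
  classical
  unfold cn
  exact card_le_card (filter_subset_filter _ (Ioc_subset_Ioc h1 h2))

lemma cn_le (A : Set ℕ) (s t : ℕ) : cn A s t ≤ t - s := by
  classical
  unfold cn
  refine (card_filter_le _ _).trans ?_
  rw [Nat.card_Ioc]

lemma cn_pos_iff (A : Set ℕ) (s t : ℕ) : 0 < cn A s t ↔ ∃ m ∈ A, s < m ∧ m ≤ t := by
  classical
  unfold cn
  rw [card_pos]
  constructor
  · rintro ⟨m, hm⟩
    simp only [mem_filter, mem_Ioc] at hm
    exact ⟨m, hm.2, hm.1.1, hm.1.2⟩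
  · rintro ⟨m, h1, h2, h3⟩
    exact ⟨m, by simp only [mem_filter, mem_Ioc]; exact ⟨⟨h2, h3⟩, h1⟩⟩

/-- if every point of `[s, s + T)` is the left end of a window of length at most `U` with more than
`θ` times its length elements, then so is the long interval -/
lemma tile_low (A : Set ℕ) (θ : ℝ) (hθ : 0 ≤ θ) (U : ℕ) : ∀ T s : ℕ, 0 < T →
    (∀ t, s ≤ t → t < s + T → ∃ u, 1 ≤ u ∧ u ≤ U ∧ θ * u < cn A t (t + u)) →
    θ * T < cn A s (s + T + U) := by
  intro T
  induction T using Nat.strong_induction_on with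
  | _ T ih =>
  intro s hT h
  obtain ⟨u, hu1, hu2, hu3⟩ := h s le_rfl (by omega)
  by_cases hc : T ≤ u
  · calc θ * T ≤ θ * u := mul_le_mul_of_nonneg_left (by exact_mod_cast hc) hθ
      _ < cn A s (s + u) := hu3
      _ ≤ cn A s (s + T + U) := by
        have := cn_mono A (le_refl s) (show s + u ≤ s + T + U by omega)
        exact_mod_cast this
  · push Not at hc
    have h1 := ih (T - u) (by omega) (s + u) (by omega) (fun t h1 h2 => h t (by omega) (by omega))
    have e1 : s + u + (T - u) + U = s + T + U := by omega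
    rw [e1] at h1
    have h2 : cn A s (s + T + U) = cn A s (s + u) + cn A (s + u) (s + T + U) :=
      cn_add A (by omega) (by omega)
    have e2 : ((T - u : ℕ) : ℝ) = (T : ℝ) - u := by
      rw [Nat.cast_sub hc.le]
    rw [e2] at h1
    rw [h2]
    push_cast
    linarith

/-- if every element of `A` in `(s, s + T]` is the left end of a window of length at most `U` with
less than `θ` times its length elements, then so is the long interval -/
lemma tile_high (A : Set ℕ) (θ : ℝ) (U : ℕ) : ∀ T s : ℕ,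
    (∀ m ∈ A, s < m → m ≤ s + T → ∃ u, 1 ≤ u ∧ u ≤ U ∧ (cn A (m - 1) (m - 1 + u) : ℝ) < θ * u) →
    cn A s (s + T) = 0 ∨ (cn A s (s + T) : ℝ) < θ * (T + U) := by
  intro T
  induction T using Nat.strong_induction_on with
  | _ T ih =>
  intro s h
  classical
  by_cases h0 : cn A s (s + T) = 0
  · exact Or.inl h0
  right
  have hex : ∃ m, m ∈ A ∧ s < m ∧ m ≤ s + T := by
    obtain ⟨m, h1, h2, h3⟩ := (cn_pos_iff A s (s + T)).1 (Nat.pos_of_ne_zero h0)
    exact ⟨m, h1, h2, h3⟩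
  obtain ⟨m, ⟨hm1, hm2, hm3⟩, hmin⟩ : ∃ m, (m ∈ A ∧ s < m ∧ m ≤ s + T) ∧
      ∀ m' < m, ¬ (m' ∈ A ∧ s < m' ∧ m' ≤ s + T) :=
    ⟨Nat.find hex, Nat.find_spec hex, fun m' hm' => Nat.find_min hex hm'⟩
  obtain ⟨u, hu1, hu2, hu3⟩ := h m hm1 hm2 hm3
  have hθ : 0 < θ := by
    have h1 : (0 : ℝ) ≤ cn A (m - 1) (m - 1 + u) := Nat.cast_nonneg _
    have h2 : 0 < θ * u := lt_of_le_of_lt h1 hu3
    by_contra hneg
    push Not at hneg
    have := mul_nonpos_of_nonpos_of_nonneg hneg (Nat.cast_nonneg (α := ℝ) u)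
    linarith
  have e0 : cn A s (m - 1) = 0 := by
    by_contra hne
    obtain ⟨m', h1, h2, h3⟩ := (cn_pos_iff A s (m - 1)).1 (Nat.pos_of_ne_zero hne)
    exact hmin m' (by omega) ⟨h1, h2, by omega⟩
  have e1 : cn A s (s + T) = cn A (m - 1) (s + T) := by
    rw [cn_add A (show s ≤ m - 1 by omega) (show m - 1 ≤ s + T by omega), e0, zero_add]
  rw [e1]
  by_cases hc : s + T ≤ m - 1 + u
  · calc (cn A (m - 1) (s + T) : ℝ) ≤ cn A (m - 1) (m - 1 + u) := by
          exact_mod_cast cn_mono A le_rfl hc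
      _ < θ * u := hu3
      _ ≤ θ * (T + U) := by
          apply mul_le_mul_of_nonneg_left _ hθ.le
          have : (u : ℝ) ≤ U := by exact_mod_cast hu2
          have : (0 : ℝ) ≤ T := Nat.cast_nonneg T
          linarith
  · push Not at hc
    have h1 := ih (s + T - (m - 1 + u)) (by omega) (m - 1 + u)
      (fun m' g1 g2 g3 => h m' g1 (by omega) (by omega))
    have e2 : m - 1 + u + (s + T - (m - 1 + u)) = s + T := by omega
    rw [e2] at h1
    have e3 : cn A (m - 1) (s + T) = cn A (m - 1) (m - 1 + u) + cn A (m - 1 + u) (s + T) :=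
      cn_add A (by omega) (by omega)
    rw [e3]
    push_cast
    have h2 : (cn A (m - 1 + u) (s + T) : ℝ) ≤ θ * ((s + T - (m - 1 + u) : ℕ) + U) := by
      rcases h1 with h1 | h1
      · rw [h1]
        push_cast
        positivity
      · exact h1.le
    have h3 : ((s + T - (m - 1 + u) : ℕ) : ℝ) + u ≤ T := by
      exact_mod_cast (by omega : s + T - (m - 1 + u) + u ≤ T)
    have h4 : θ * (((s + T - (m - 1 + u) : ℕ) : ℝ) + u) ≤ θ * T :=
      mul_le_mul_of_nonneg_left h3 hθ.le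
    linarith

lemma low_exists (A : Set ℕ) (θ : ℝ) (hθ : 0 ≤ θ) (U T s : ℕ) (hT : 0 < T)
    (h : (cn A s (s + T + U) : ℝ) ≤ θ * T) :
    ∃ t, s ≤ t ∧ t < s + T ∧ ∀ u : ℕ, 1 ≤ u → u ≤ U → (cn A t (t + u) : ℝ) ≤ θ * u := by
  by_contra hcon
  push Not at hcon
  have := tile_low A θ hθ U T s hT (fun t h1 h2 => by
    obtain ⟨u, g1, g2, g3⟩ := hcon t h1 h2
    exact ⟨u, g1, g2, g3⟩)
  linarith

lemma high_exists (A : Set ℕ) (θ : ℝ) (U T s : ℕ) (h0 : 0 < cn A s (s + T))
    (h : θ * (T + U) ≤ cn A s (s + T)) :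
    ∃ m ∈ A, s < m ∧ m ≤ s + T ∧ ∀ u : ℕ, 1 ≤ u → u ≤ U →
      θ * u ≤ cn A (m - 1) (m - 1 + u) := by
  by_contra hcon
  push Not at hcon
  have := tile_high A θ U T s (fun m g0 g1 g2 => by
    obtain ⟨u, g3, g4, g5⟩ := hcon m g0 g1 g2
    exact ⟨u, g3, g4, g5⟩)
  rcases this with h1 | h1
  · omega
  · linarith

lemma cn_prime (s t : ℕ) : cn {p : ℕ | p.Prime} s t = ((Ioc s t).filter Nat.Prime).card := by
  classical
  unfold cn
  congr 1
  ext m
  simp only [mem_filter, Set.mem_ofPred_eq]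

/-- mean value argument -/
lemma pick {K c D : ℝ} (w Φ : ℕ → ℝ) (S bad : Finset ℕ) (hK : 0 < K)
    (hw : ∀ n, 0 ≤ w n ∧ w n ≤ K) (hsum : ∑ n ∈ S, w n = 1) (hc : 0 < c) (hD : 0 < D)
    (hΦ : c ≤ ∑ n ∈ S, w n * Φ n) (hΦD : ∀ n ∈ S, w n ≠ 0 → Φ n ≤ D) :
    c / (2 * D * K) - bad.card ≤
      ((S.filter (fun n => (w n ≠ 0 ∧ c / 2 ≤ Φ n) ∧ n ∉ bad)).card : ℝ) := by
  classical
  set N := S.filter (fun n => w n ≠ 0 ∧ c / 2 ≤ Φ n) with hN
  have h1 : ∑ n ∈ S, w n * Φ n ≤ c / 2 + D * ∑ n ∈ N, w n := by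
    have h2 : c / 2 = ∑ n ∈ S, c / 2 * w n := by rw [← mul_sum, hsum, mul_one]
    rw [h2, hN, sum_filter, mul_sum, ← sum_add_distrib]
    apply sum_le_sum
    intro n hn
    obtain ⟨w0, _⟩ := hw n
    by_cases hw0 : w n = 0
    · simp [hw0]
    by_cases hp : c / 2 ≤ Φ n
    · rw [if_pos ⟨hw0, hp⟩]
      have g1 := mul_le_mul_of_nonneg_left (hΦD n hn hw0) w0
      have g2 : 0 ≤ c / 2 * w n := by positivity
      linarith
    · rw [if_neg (fun h => hp h.2)]
      push Not at hp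
      have g1 := mul_le_mul_of_nonneg_left hp.le w0
      linarith
  have h3 : c / (2 * D) ≤ ∑ n ∈ N, w n := by
    rw [div_le_iff₀ (by positivity)]
    linarith
  have h4 : ∑ n ∈ N, w n ≤ N.card * K := by
    rw [← nsmul_eq_mul, ← sum_const]
    exact sum_le_sum fun n _ => (hw n).2
  have h5 : c / (2 * D * K) ≤ N.card := by
    rw [div_le_iff₀ (by positivity)]
    rw [div_le_iff₀ (by positivity)] at h3
    calc c ≤ (∑ n ∈ N, w n) * (2 * D) := h3
      _ ≤ (N.card * K) * (2 * D) := mul_le_mul_of_nonneg_right h4 (by positivity)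
      _ = N.card * (2 * D * K) := by ring
  have h6 : N.card ≤ (S.filter (fun n => (w n ≠ 0 ∧ c / 2 ≤ Φ n) ∧ n ∉ bad)).card + bad.card := by
    calc N.card ≤ ((S.filter (fun n => (w n ≠ 0 ∧ c / 2 ≤ Φ n) ∧ n ∉ bad)) ∪ bad).card := by
          apply card_le_card
          intro n hn
          rw [hN, mem_filter] at hn
          rw [mem_union, mem_filter]
          by_cases hb : n ∈ bad
          · exact Or.inr hb
          · exact Or.inl ⟨hn.1, hn.2, hb⟩
      _ ≤ _ := card_union_le _ _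
  have h7 : (N.card : ℝ) ≤
      ((S.filter (fun n => (w n ≠ 0 ∧ c / 2 ≤ Φ n) ∧ n ∉ bad)).card : ℝ) + bad.card := by
    exact_mod_cast h6
  linarith

/-- every element of `N` has an element of `G` at distance at most `Y` to the right -/
lemma spread (N G : Finset ℕ) (Y : ℕ) (h : ∀ n ∈ N, ∃ x ∈ G, n ≤ x ∧ x ≤ n + Y) :
    N.card ≤ G.card * (Y + 1) := by
  classical
  have h1 : N ⊆ G.biUnion (fun x => Icc (x - Y) x) := by
    intro n hn
    obtain ⟨x, hx, h1, h2⟩ := h n hn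
    rw [mem_biUnion]
    exact ⟨x, hx, mem_Icc.2 ⟨by omega, h1⟩⟩
  calc N.card ≤ (G.biUnion (fun x => Icc (x - Y) x)).card := card_le_card h1
    _ ≤ G.card * (Y + 1) := by
      apply card_biUnion_le_card_mul
      intro x _
      rw [Nat.card_Icc]
      omega

end Pool.Agent.V5helper33.PR
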