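import Pool.Agent.V5helper33.PR.Crit
import Pool.Agent.H510R2.Maier.MB9
import Pool.Agent.H510R2.Maier.MB10

set_option autoImplicit false

/-!
# All lengths up to `C (log x) ^ 2` at the same place (helper33)
-/

namespace Pool.Agent.V5helper33.PR

open Finset Filter Topology MeasureTheory

lemma cntP_cn (n Y : ℕ) :
    Pool.Agent.H510R2.Maier.cntP Nat.Prime n Y = cn PP n (n + Y) := by
  have h1 := Pool.Agent.H510R2.Maier.count_cntP Nat.Prime n Y
  have h2 := cn_count (s := n) (t := n + Y) (by omega)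
  have e : n + 1 + Y = n + Y + 1 := by omega
  rw [e] at h1
  omega

lemma tlog : Tendsto (fun n : ℕ => Real.log (n : ℝ)) atTop atTop :=
  Real.tendsto_log_atTop.comp tendsto_natCast_atTop_atTop

/-- numerical inequality for the frequencies -/
lemma freq_num (A n0 η : ℝ) (hn0 : 0 ≤ n0) (hη : 0 < η) (hη1 : η ≤ 1 / 2) :
    ∀ᶠ x : ℝ in atTop,
      x ^ (1 - 2 * η) * (A * Real.log x ^ 2 + 1) + n0 ≤ x ^ (1 - η) / 3 := by
  have h1 := (isLittleO_log_rpow_rpow_atTop 2 hη).bound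
    (show (0 : ℝ) < 1 / (6 * (|A| + 1)) by positivity)
  have h2 : ∀ᶠ x : ℝ in atTop, 6 * (n0 + 1) ≤ x ^ η := (tendsto_rpow_atTop hη).eventually_ge_atTop _
  filter_upwards [h1, h2, eventually_ge_atTop (1 : ℝ)] with x g1 g2 g3
  have hx0 : 0 < x := by linarith
  have hl : 0 ≤ Real.log x := Real.log_nonneg g3
  have e2 : Real.log x ^ (2 : ℝ) = Real.log x ^ 2 := by
    rw [← Real.rpow_natCast]
    norm_num
  rw [e2, Real.norm_of_nonneg (by positivity), Real.norm_of_nonneg (by positivity)] at g1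
  have k1 : A * Real.log x ^ 2 ≤ x ^ η / 6 := by
    have hp : 0 ≤ x ^ η := by positivity
    calc A * Real.log x ^ 2 ≤ |A| * Real.log x ^ 2 :=
          mul_le_mul_of_nonneg_right (le_abs_self A) (by positivity)
      _ ≤ |A| * (1 / (6 * (|A| + 1)) * x ^ η) := mul_le_mul_of_nonneg_left g1 (abs_nonneg A)
      _ = (|A| / (|A| + 1)) * (x ^ η / 6) := by field_simp
      _ ≤ 1 * (x ^ η / 6) := by
          apply mul_le_mul_of_nonneg_right _ (by positivity)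
          rw [div_le_one (by positivity)]
          linarith
      _ = x ^ η / 6 := one_mul _
  have k2 : 1 ≤ x ^ (1 - 2 * η) := Real.one_le_rpow g3 (by linarith)
  have k3 : n0 ≤ x ^ (1 - 2 * η) * n0 := le_mul_of_one_le_left hn0 k2
  have k4 : x ^ (1 - η) = x ^ (1 - 2 * η) * x ^ η := by
    rw [← Real.rpow_add hx0]
    congr 1
    ring
  calc x ^ (1 - 2 * η) * (A * Real.log x ^ 2 + 1) + n0 ≤
      x ^ (1 - 2 * η) * (A * Real.log x ^ 2 + 1) + x ^ (1 - 2 * η) * n0 := by linarith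
    _ = x ^ (1 - 2 * η) * (A * Real.log x ^ 2 + 1 + n0) := by ring
    _ ≤ x ^ (1 - 2 * η) * (x ^ η / 3) := mul_le_mul_of_nonneg_left (by linarith) (by linarith)
    _ = x ^ (1 - η) / 3 := by rw [k4]; ring

/-- frequency is kept when each good `n` gives a good `t` a little to the right -/
lemma freq_transfer (Q Q' : ℕ → Prop) [DecidablePred Q] [DecidablePred Q'] (A : ℝ)
    (hQ : ∀ η : ℝ, 0 < η → ∀ᶠ N : ℕ in atTop, (N : ℝ) ^ (1 - η) ≤ (((Icc 1 N).filter Q).card : ℝ))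
    (hQ' : ∀ᶠ n : ℕ in atTop, Q n → ∃ t : ℕ, n ≤ t ∧ t ≤ 2 * n ∧
      (t : ℝ) ≤ n + A * Real.log n ^ 2 ∧ Q' t) (η : ℝ) (hη : 0 < η) :
    ∀ᶠ N : ℕ in atTop, (N : ℝ) ^ (1 - η) ≤ (((Icc 1 N).filter Q').card : ℝ) := by
  classical
  obtain ⟨η', hη', hη1, hη2⟩ : ∃ η' : ℝ, 0 < η' ∧ η' ≤ 1 / 2 ∧ 2 * η' ≤ η := by
    refine ⟨min (1 / 2) (η / 2), by positivity, min_le_left _ _, ?_⟩
    have := min_le_right (1 / 2) (η / 2)
    linarith
  obtain ⟨n0, hn0⟩ := eventually_atTop.1 hQ'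
  have tf : Tendsto (fun N : ℕ => N / 2) atTop atTop := by
    apply tendsto_atTop.2
    intro b
    filter_upwards [eventually_ge_atTop (2 * b)] with N hN
    omega
  have h1 := tf.eventually (hQ η' hη')
  have h2 := tendsto_natCast_atTop_atTop.eventually (freq_num (max A 0) (n0 + 1) η' (by positivity)
    hη' hη1)
  filter_upwards [h1, h2, eventually_ge_atTop 4] with N g1 g2 g3
  obtain ⟨M, hM⟩ : ∃ M : ℕ, M = N / 2 := ⟨_, rfl⟩
  rw [← hM] at g1
  have hN0 : (0 : ℝ) < N := by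
    have : 0 < N := by omega
    exact_mod_cast this
  have hMr : (N : ℝ) / 3 ≤ M := by
    have : (N : ℝ) ≤ 3 * M := by exact_mod_cast (by omega : N ≤ 3 * M)
    linarith
  have hL0 : 0 ≤ Real.log (N : ℝ) := Real.log_natCast_nonneg N
  obtain ⟨Y, hY⟩ : ∃ Y : ℕ, Y = ⌊max A 0 * Real.log N ^ 2⌋₊ := ⟨_, rfl⟩
  have hA0 : 0 ≤ max A 0 := le_max_right _ _
  have hYr : (Y : ℝ) ≤ max A 0 * Real.log N ^ 2 := by
    rw [hY]
    exact Nat.floor_le (by positivity)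
  obtain ⟨S, hS⟩ : ∃ S : Finset ℕ, S = ((Icc 1 M).filter Q).filter (fun n => n0 + 1 ≤ n) := ⟨_, rfl⟩
  have hcard : ((Icc 1 M).filter Q).card ≤ S.card + (n0 + 1) := by
    have h3 : ((Icc 1 M).filter Q) ⊆ S ∪ Finset.range (n0 + 1) := by
      intro n hn
      rw [Finset.mem_union, hS, Finset.mem_filter, Finset.mem_range]
      by_cases h : n0 + 1 ≤ n
      · exact Or.inl ⟨hn, h⟩
      · exact Or.inr (by omega)
    calc _ ≤ (S ∪ Finset.range (n0 + 1)).card := Finset.card_le_card h3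
      _ ≤ S.card + (Finset.range (n0 + 1)).card := Finset.card_union_le _ _
      _ = _ := by rw [Finset.card_range]
  have hsp : S.card ≤ ((Icc 1 N).filter Q').card * (Y + 1) := by
    apply spread
    intro n hn
    rw [hS, Finset.mem_filter, Finset.mem_filter, Finset.mem_Icc] at hn
    obtain ⟨⟨⟨k1, k2⟩, k3⟩, k4⟩ := hn
    obtain ⟨t, t1, t2, t3, t4⟩ := hn0 n (by omega) k3
    refine ⟨t, ?_, t1, ?_⟩
    · rw [Finset.mem_filter, Finset.mem_Icc]
      exact ⟨⟨by omega, by omega⟩, t4⟩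
    · have e1 : ((t - n : ℕ) : ℝ) ≤ max A 0 * Real.log N ^ 2 := by
        rw [Nat.cast_sub t1]
        have hn1 : (1 : ℝ) ≤ n := by exact_mod_cast k1
        have hnN : (n : ℝ) ≤ N := by exact_mod_cast (by omega : n ≤ N)
        have l1 : Real.log (n : ℝ) ≤ Real.log N := Real.log_le_log (by linarith) hnN
        have l0 : 0 ≤ Real.log (n : ℝ) := Real.log_natCast_nonneg n
        have l2 : Real.log (n : ℝ) ^ 2 ≤ Real.log N ^ 2 := pow_le_pow_left₀ l0 l1 2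
        calc (t : ℝ) - n ≤ A * Real.log n ^ 2 := by linarith
          _ ≤ max A 0 * Real.log n ^ 2 := mul_le_mul_of_nonneg_right (le_max_left _ _) (by positivity)
          _ ≤ _ := mul_le_mul_of_nonneg_left l2 hA0
      have e2 : t - n ≤ Y := by
        rw [hY]
        exact Nat.le_floor e1
      omega
  have hcard' : (((Icc 1 M).filter Q).card : ℝ) ≤ (S.card : ℝ) + (n0 + 1) := by
    exact_mod_cast hcard
  have hsp' : (S.card : ℝ) ≤ (((Icc 1 N).filter Q').card : ℝ) * (Y + 1) := by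
    exact_mod_cast hsp
  have h5 : ((N : ℝ) / 3) ^ (1 - η') ≤ (M : ℝ) ^ (1 - η') :=
    Real.rpow_le_rpow (by positivity) hMr (by linarith)
  have h6 : ((N : ℝ) / 3) ^ (1 - η') = (N : ℝ) ^ (1 - η') / 3 ^ (1 - η') :=
    Real.div_rpow hN0.le (by norm_num) _
  have h7 : (3 : ℝ) ^ (1 - η') ≤ 3 := by
    calc (3 : ℝ) ^ (1 - η') ≤ 3 ^ (1 : ℝ) :=
          Real.rpow_le_rpow_of_exponent_le (by norm_num) (by linarith)
      _ = 3 := Real.rpow_one 3
  have h8 : (N : ℝ) ^ (1 - η') / 3 ≤ (N : ℝ) ^ (1 - η') / 3 ^ (1 - η') :=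
    div_le_div_of_nonneg_left (by positivity) (by positivity) h7
  have h9 : (N : ℝ) ^ (1 - 2 * η') * (max A 0 * Real.log N ^ 2 + 1) ≤
      (((Icc 1 N).filter Q').card : ℝ) * (Y + 1) := by
    have g2' : (N : ℝ) ^ (1 - 2 * η') * (max A 0 * Real.log N ^ 2 + 1) + ((n0 : ℝ) + 1) ≤
      (N : ℝ) ^ (1 - η') / 3 := g2
    linarith
  have h10 : (N : ℝ) ^ (1 - 2 * η') * (max A 0 * Real.log N ^ 2 + 1) ≤
      (((Icc 1 N).filter Q').card : ℝ) * (max A 0 * Real.log N ^ 2 + 1) := by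
    refine h9.trans (mul_le_mul_of_nonneg_left (by linarith) (Nat.cast_nonneg _))
  have h11 : (N : ℝ) ^ (1 - 2 * η') ≤ (((Icc 1 N).filter Q').card : ℝ) :=
    le_of_mul_le_mul_right h10 (by positivity)
  refine le_trans ?_ h11
  apply Real.rpow_le_rpow_of_exponent_le _ (by linarith)
  have : 1 ≤ N := by omega
  exact_mod_cast this

/-- all windows up to `C (log t) ^ 2` have few primes -/
def Few (κ C : ℝ) (t : ℕ) : Prop := ∀ u : ℕ, 1 ≤ u → (u : ℝ) ≤ C * Real.log t ^ 2 + 1 →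
  (cn PP t (t + u) : ℝ) * Real.log t ≤ κ * u

/-- all windows up to `C (log t) ^ 2` have many primes -/
def Many (κ C : ℝ) (t : ℕ) : Prop := t.Prime ∧ ∀ u : ℕ, 1 ≤ u → (u : ℝ) ≤ C * Real.log t ^ 2 + 1 →
  κ * u ≤ (cn PP (t - 1) (t - 1 + u) : ℝ) * Real.log t

lemma log_two_mul {n t : ℕ} (hn : 1 ≤ n) (h1 : n ≤ t) (h2 : t ≤ 2 * n) :
    Real.log n ≤ Real.log t ∧ Real.log (t : ℝ) ≤ Real.log n + 1 := by
  have hn1 : (1 : ℝ) ≤ n := by exact_mod_cast hn
  have h1' : (n : ℝ) ≤ t := by exact_mod_cast h1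
  have h2' : (t : ℝ) ≤ 2 * n := by exact_mod_cast h2
  refine ⟨Real.log_le_log (by linarith) h1', ?_⟩
  have h3 : Real.log (t : ℝ) ≤ Real.log (2 * n) := Real.log_le_log (by linarith) h2'
  rw [Real.log_mul (by norm_num) (by linarith)] at h3
  have := Real.log_two_lt_d9
  linarith

lemma ev_sq (a b c : ℝ) (ha : 0 < a) : ∀ᶠ n : ℕ in atTop,
    b * Real.log (n : ℝ) + c ≤ a * Real.log (n : ℝ) ^ 2 := by
  filter_upwards [tlog.eventually_ge_atTop (max 1 ((|b| + |c|) / a))] with n g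
  have g1 : 1 ≤ Real.log (n : ℝ) := (le_max_left _ _).trans g
  have g2 : (|b| + |c|) / a ≤ Real.log (n : ℝ) := (le_max_right _ _).trans g
  rw [div_le_iff₀ ha] at g2
  have h1 : b * Real.log (n : ℝ) ≤ |b| * Real.log (n : ℝ) :=
    mul_le_mul_of_nonneg_right (le_abs_self b) (by linarith)
  have h2 : c ≤ |c| * Real.log (n : ℝ) :=
    (le_abs_self c).trans (le_mul_of_one_le_right (abs_nonneg c) g1)
  have h3 : (|b| + |c|) * Real.log (n : ℝ) ≤ Real.log (n : ℝ) * a * Real.log (n : ℝ) :=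
    mul_le_mul_of_nonneg_right g2 (by linarith)
  calc b * Real.log (n : ℝ) + c ≤ (|b| + |c|) * Real.log (n : ℝ) := by linarith
    _ ≤ _ := h3
    _ = _ := by ring

lemma ev_le_self (c : ℝ) : ∀ᶠ n : ℕ in atTop, c * Real.log (n : ℝ) ^ 2 ≤ n := by
  have h1 := (Real.isLittleO_pow_log_id_atTop (n := 2)).bound
    (show (0 : ℝ) < 1 / (|c| + 1) by positivity)
  filter_upwards [tendsto_natCast_atTop_atTop.eventually h1, eventually_ge_atTop 1] with n g1 g2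
  have hn : (0 : ℝ) ≤ n := Nat.cast_nonneg n
  rw [Real.norm_of_nonneg (by positivity), id, Real.norm_of_nonneg hn] at g1
  calc c * Real.log (n : ℝ) ^ 2 ≤ |c| * Real.log (n : ℝ) ^ 2 :=
        mul_le_mul_of_nonneg_right (le_abs_self c) (by positivity)
    _ ≤ |c| * (1 / (|c| + 1) * n) := mul_le_mul_of_nonneg_left g1 (abs_nonneg c)
    _ = |c| / (|c| + 1) * n := by field_simp
    _ ≤ 1 * n := by
        apply mul_le_mul_of_nonneg_right _ hn
        rw [div_le_one (by positivity)]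
        linarith
    _ = n := one_mul _

lemma few_step (κ κ1 C : ℝ) (hκ1 : 0 < κ1) (hκ : κ1 < κ) (hC : 0 < C) : ∃ c : ℝ, 0 < c ∧
    ∀ᶠ n : ℕ in atTop, (Pool.Agent.H510R2.Maier.cntP Nat.Prime n ⌊c * (Real.log n) ^ 2⌋₊ : ℝ) ≤
      κ1 * c * Real.log n → ∃ t : ℕ, n ≤ t ∧ t ≤ 2 * n ∧ (t : ℝ) ≤ n + c * Real.log n ^ 2 ∧
        Few κ C t := by
  have hκ0 : 0 < κ := by linarith
  obtain ⟨c, hc⟩ : ∃ c : ℝ, c = 2 * κ * (C + 1) / (κ - κ1) := ⟨_, rfl⟩
  have hd : 0 < κ - κ1 := by linarith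
  have hc1 : (κ - κ1) * c = 2 * κ * (C + 1) := by rw [hc]; field_simp
  have hc0 : 0 < c := by rw [hc]; positivity
  have hcC : C + 1 < c := by
    rw [hc, lt_div_iff₀ hd]
    have : (C + 1) * (κ - κ1) < (C + 1) * (2 * κ) := mul_lt_mul_of_pos_left (by linarith) (by linarith)
    linarith
  refine ⟨c, hc0, ?_⟩
  filter_upwards [ev_sq (c - C - 1) 0 3 (by linarith), ev_sq (κ * (C + 1)) (κ1 * c) κ (by positivity),
    ev_sq 1 (2 * C) (C + 1) one_pos, ev_le_self c, eventually_ge_atTop 1, tlog.eventually_ge_atTop 1]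
    with n g1 g2 g3 g4 g5 g6 hn
  set L := Real.log (n : ℝ) with hL
  have hL0 : 0 < L := by linarith
  obtain ⟨Y, hY⟩ : ∃ Y : ℕ, Y = ⌊c * L ^ 2⌋₊ := ⟨_, rfl⟩
  obtain ⟨U, hU⟩ : ∃ U : ℕ, U = ⌊(C + 1) * L ^ 2⌋₊ := ⟨_, rfl⟩
  have hY1 : (Y : ℝ) ≤ c * L ^ 2 := by rw [hY]; exact Nat.floor_le (by positivity)
  have hY2 : c * L ^ 2 < Y + 1 := by rw [hY]; exact Nat.lt_floor_add_one _
  have hU1 : (U : ℝ) ≤ (C + 1) * L ^ 2 := by rw [hU]; exact Nat.floor_le (by positivity)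
  have hUY : U + 1 ≤ Y := by
    have : (U : ℝ) + 1 < Y + 1 := by linarith
    have : U + 1 < Y + 1 := by exact_mod_cast this
    omega
  obtain ⟨T, hT⟩ : ∃ T : ℕ, T = Y - U := ⟨_, rfl⟩
  have hT0 : 0 < T := by omega
  have hT0r : (0 : ℝ) < T := by exact_mod_cast hT0
  have hTr : (T : ℝ) = Y - U := by rw [hT, Nat.cast_sub (by omega)]
  rw [← hY, cntP_cn] at hn
  obtain ⟨t, ht1, ht2, ht3⟩ := low_exists PP (κ1 * c * L / T) (by positivity) U T n hT0 (by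
    rw [div_mul_cancel₀ _ hT0r.ne']
    have e : n + T + U = n + Y := by omega
    rw [e]
    exact hn)
  have ht4 : (t : ℝ) ≤ n + c * L ^ 2 := by
    have : (t : ℝ) ≤ n + Y := by exact_mod_cast (by omega : t ≤ n + Y)
    linarith
  have ht5 : t ≤ 2 * n := by
    have : (t : ℝ) ≤ 2 * n := by linarith
    exact_mod_cast this
  refine ⟨t, ht1, ht5, ht4, fun u hu1 hu2 => ?_⟩
  obtain ⟨l1, l2⟩ := log_two_mul g5 ht1 ht5
  rw [← hL] at l1 l2
  have hlt : 0 < Real.log (t : ℝ) := by linarith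
  have hu3 : u ≤ U := by
    rw [hU]
    apply Nat.le_floor
    refine hu2.trans ?_
    have : C * Real.log (t : ℝ) ^ 2 ≤ C * (L + 1) ^ 2 :=
      mul_le_mul_of_nonneg_left (pow_le_pow_left₀ hlt.le l2 2) hC.le
    calc C * Real.log (t : ℝ) ^ 2 + 1 ≤ C * (L + 1) ^ 2 + 1 := by linarith
      _ = C * L ^ 2 + (2 * C * L + (C + 1)) := by ring
      _ ≤ C * L ^ 2 + 1 * L ^ 2 := by linarith
      _ = (C + 1) * L ^ 2 := by ring
  have h1 := ht3 u hu1 hu3
  have h2 : κ1 * c * L * Real.log t ≤ κ * T := by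
    calc κ1 * c * L * Real.log (t : ℝ) ≤ κ1 * c * L * (L + 1) :=
          mul_le_mul_of_nonneg_left l2 (by positivity)
      _ = κ * c * L ^ 2 - (κ - κ1) * c * L ^ 2 + κ1 * c * L := by ring
      _ = κ * c * L ^ 2 - 2 * κ * (C + 1) * L ^ 2 + κ1 * c * L := by rw [hc1]
      _ ≤ κ * (c * L ^ 2 - 1 - (C + 1) * L ^ 2) := by linarith
      _ ≤ κ * T := mul_le_mul_of_nonneg_left (by linarith) hκ0.le
  calc (cn PP t (t + u) : ℝ) * Real.log t ≤ κ1 * c * L / T * u * Real.log t :=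
        mul_le_mul_of_nonneg_right h1 hlt.le
    _ = (κ1 * c * L * Real.log t) * (u / T) := by field_simp
    _ ≤ (κ * T) * (u / T) := mul_le_mul_of_nonneg_right h2 (by positivity)
    _ = κ * u := by field_simp

lemma many_step (κ κ1 C : ℝ) (hκ0 : 0 < κ) (hκ : κ < κ1) (hC : 0 < C) : ∃ c : ℝ, 0 < c ∧
    ∀ᶠ n : ℕ in atTop, κ1 * c * Real.log n ≤
      (Pool.Agent.H510R2.Maier.cntP Nat.Prime n ⌊c * (Real.log n) ^ 2⌋₊ : ℝ) →
      ∃ t : ℕ, n ≤ t ∧ t ≤ 2 * n ∧ (t : ℝ) ≤ n + c * Real.log n ^ 2 ∧ Many κ C t := by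
  have hκ1 : 0 < κ1 := by linarith
  obtain ⟨c, hc⟩ : ∃ c : ℝ, c = κ * (C + 1) / (κ1 - κ) := ⟨_, rfl⟩
  have hd : 0 < κ1 - κ := by linarith
  have hc1 : (κ1 - κ) * c = κ * (C + 1) := by rw [hc]; field_simp
  have hc0 : 0 < c := by rw [hc]; positivity
  refine ⟨c, hc0, ?_⟩
  filter_upwards [ev_sq 1 (2 * C) (C + 1) one_pos, ev_le_self c, eventually_ge_atTop 1,
    tlog.eventually_ge_atTop 1] with n g3 g4 g5 g6 hn
  set L := Real.log (n : ℝ) with hL
  have hL0 : 0 < L := by linarith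
  obtain ⟨T, hT⟩ : ∃ T : ℕ, T = ⌊c * L ^ 2⌋₊ := ⟨_, rfl⟩
  obtain ⟨U, hU⟩ : ∃ U : ℕ, U = ⌊(C + 1) * L ^ 2⌋₊ := ⟨_, rfl⟩
  have hT1 : (T : ℝ) ≤ c * L ^ 2 := by rw [hT]; exact Nat.floor_le (by positivity)
  have hU1 : (U : ℝ) ≤ (C + 1) * L ^ 2 := by rw [hU]; exact Nat.floor_le (by positivity)
  rw [← hT, cntP_cn] at hn
  have e0 : 0 < cn PP n (n + T) := by
    by_contra hcon
    have q0 : cn PP n (n + T) = 0 := by omega
    rw [q0] at hn
    have : 0 < κ1 * c * L := by positivity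
    push_cast at hn
    linarith
  have hU0 : 1 ≤ U := by
    rw [hU]
    apply Nat.le_floor
    push_cast
    have : 1 ≤ L ^ 2 := one_le_pow₀ g6
    nlinarith
  have hTU : (0 : ℝ) < T + U := by
    have : (1 : ℝ) ≤ U := by exact_mod_cast hU0
    have : (0 : ℝ) ≤ T := Nat.cast_nonneg T
    linarith
  obtain ⟨m, hm0, hm1, hm2, hm3⟩ := high_exists PP (κ1 * c * L / (T + U)) U T n e0
    (by rw [div_mul_cancel₀ _ hTU.ne']; exact hn)
  have ht4 : (m : ℝ) ≤ n + c * L ^ 2 := by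
    have : (m : ℝ) ≤ n + T := by exact_mod_cast hm2
    linarith
  have ht5 : m ≤ 2 * n := by
    have : (m : ℝ) ≤ 2 * n := by linarith
    exact_mod_cast this
  refine ⟨m, hm1.le, ht5, ht4, hm0, fun u hu1 hu2 => ?_⟩
  obtain ⟨l1, l2⟩ := log_two_mul g5 hm1.le ht5
  rw [← hL] at l1 l2
  have hlt : 0 < Real.log (m : ℝ) := by linarith
  have hu3 : u ≤ U := by
    rw [hU]
    apply Nat.le_floor
    refine hu2.trans ?_
    have : C * Real.log (m : ℝ) ^ 2 ≤ C * (L + 1) ^ 2 :=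
      mul_le_mul_of_nonneg_left (pow_le_pow_left₀ hlt.le l2 2) hC.le
    calc C * Real.log (m : ℝ) ^ 2 + 1 ≤ C * (L + 1) ^ 2 + 1 := by linarith
      _ = C * L ^ 2 + (2 * C * L + (C + 1)) := by ring
      _ ≤ C * L ^ 2 + 1 * L ^ 2 := by linarith
      _ = (C + 1) * L ^ 2 := by ring
  have h1 := hm3 u hu1 hu3
  have h2 : κ * (T + U) ≤ κ1 * c * L * L := by
    calc κ * ((T : ℝ) + U) ≤ κ * (c * L ^ 2 + (C + 1) * L ^ 2) :=
          mul_le_mul_of_nonneg_left (by linarith) hκ0.le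
      _ = (κ * c + κ * (C + 1)) * L ^ 2 := by ring
      _ = (κ * c + (κ1 - κ) * c) * L ^ 2 := by rw [hc1]
      _ = κ1 * c * L * L := by ring
  calc κ * (u : ℝ) = (κ * (T + U)) * (u / (T + U)) := by field_simp
    _ ≤ (κ1 * c * L * L) * (u / (T + U)) := mul_le_mul_of_nonneg_right h2 (by positivity)
    _ = κ1 * c * L / (T + U) * u * L := by field_simp
    _ ≤ (cn PP (m - 1) (m - 1 + u) : ℝ) * L := mul_le_mul_of_nonneg_right h1 hL0.le
    _ ≤ _ := mul_le_mul_of_nonneg_left l1 (Nat.cast_nonneg _)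

open Classical in
theorem few_all (κ C : ℝ) (hκ : Real.exp Real.eulerMascheroniConstant / 2 < κ) (hC : 0 < C) :
    ∀ η : ℝ, 0 < η → ∀ᶠ N : ℕ in atTop,
      (N : ℝ) ^ (1 - η) ≤ (((Icc 1 N).filter (Few κ C)).card : ℝ) := by
  have hE0 : 0 < Real.exp Real.eulerMascheroniConstant := Real.exp_pos _
  obtain ⟨κ1, h1, h2⟩ := exists_between hκ
  have hκ1 : 0 < κ1 := lt_trans (by positivity) h1
  obtain ⟨c, hc0, hc⟩ := few_step κ κ1 C hκ1 h2 hC
  have h3 : c < 2 * Real.exp (-Real.eulerMascheroniConstant) * (κ1 * c) := by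
    rw [Real.exp_neg]
    have e : 2 * (Real.exp Real.eulerMascheroniConstant)⁻¹ * (κ1 * c) =
        κ1 / (Real.exp Real.eulerMascheroniConstant / 2) * c := by field_simp
    rw [e]
    apply lt_mul_of_one_lt_left hc0
    rw [one_lt_div (by positivity)]
    exact h1
  refine freq_transfer (fun n => (Pool.Agent.H510R2.Maier.cntP Nat.Prime n
    ⌊c * (Real.log n) ^ 2⌋₊ : ℝ) ≤ κ1 * c * Real.log n) (Few κ C) c (fun η hη => ?_) hc
  filter_upwards [Pool.Agent.H510R2.Maier.G.few_freq (κ1 * c) c η (by positivity) h3 hη] with N hN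
  unfold Pool.Agent.H510R2.Maier.G.NF at hN
  convert hN using 3

open Classical in
theorem many_all (κ C : ℝ) (hκ0 : 0 < κ) (hκ : κ < 1.07) (hC : 0 < C) :
    ∀ η : ℝ, 0 < η → ∀ᶠ N : ℕ in atTop,
      (N : ℝ) ^ (1 - η) ≤ (((Icc 1 N).filter (Many κ C)).card : ℝ) := by
  obtain ⟨κ1, h1, h2⟩ := exists_between hκ
  have hκ1 : 0 < κ1 := by linarith
  obtain ⟨c, hc0, hc⟩ := many_step κ κ1 C hκ0 h1 hC
  have h3 : κ1 * c / 1.07 < c := by
    rw [div_lt_iff₀ (by norm_num)]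
    have := mul_lt_mul_of_pos_right h2 hc0
    linarith
  refine freq_transfer (fun n => κ1 * c * Real.log n ≤ (Pool.Agent.H510R2.Maier.cntP Nat.Prime n
    ⌊c * (Real.log n) ^ 2⌋₊ : ℝ)) (Many κ C) c (fun η hη => ?_) hc
  filter_upwards [Pool.Agent.H510R2.Maier.G.many_freq (κ1 * c) c η (by positivity) h3 hη] with N hN
  unfold Pool.Agent.H510R2.Maier.G.NM at hN
  convert hN using 3

end Pool.Agent.V5helper33.PR
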