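import Pool.Agent.V5helper33.PR.Two
import Pool.Agent.V5helper33.PR.Runs

set_option autoImplicit false

/-!
# All lengths up to `C (log x) ^ 2`: real `x`, runs of gaps (helper33)

`vol_ge`, `ofReal_le_card`, `transfer` are helper601's.
-/

namespace Pool.Agent.V5helper33.PR

open Finset Filter Topology MeasureTheory

/-- the number of primes `p` with `a < p < b` -/
noncomputable def primesIn (a b : ℝ) : ℕ := {p : ℕ | p.Prime ∧ a < p ∧ (p : ℝ) < b}.ncard

theorem primesIn_finite (a b : ℝ) : {p : ℕ | p.Prime ∧ a < p ∧ (p : ℝ) < b}.Finite :=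
  (Set.finite_Iic ⌊b⌋₊).subset fun p hp => Nat.le_floor hp.2.2.le

/-- unit intervals inside a set -/
theorem vol_ge (S : Finset ℕ) (s : ℝ) (E : Set ℝ)
    (h : ∀ n ∈ S, Set.Ioo ((n : ℝ) + s) (n + s + 1) ⊆ E) : (S.card : ENNReal) ≤ volume E := by
  have h1 : volume (⋃ n ∈ S, Set.Ioo ((n : ℝ) + s) (n + s + 1)) = S.card := by
    rw [measure_biUnion_finset]
    · have : ∀ n ∈ S, volume (Set.Ioo ((n : ℝ) + s) (n + s + 1)) = 1 := by
        intro n _
        rw [Real.volume_Ioo]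
        have : (n : ℝ) + s + 1 - (n + s) = 1 := by ring
        rw [this, ENNReal.ofReal_one]
      rw [Finset.sum_congr rfl this]
      simp
    · intro m _ n _ hmn
      rw [Function.onFun, Set.disjoint_left]
      rintro x ⟨h1, h2⟩ ⟨h3, h4⟩
      rcases lt_or_gt_of_ne hmn with hlt | hlt
      · have : (m : ℝ) + 1 ≤ n := by exact_mod_cast hlt
        linarith
      · have : (n : ℝ) + 1 ≤ m := by exact_mod_cast hlt
        linarith
    · intro n _
      exact measurableSet_Ioo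
  rw [← h1]
  exact measure_mono (Set.iUnion₂_subset h)

theorem ofReal_le_card {y : ℝ} {S : Finset ℕ} (h : y ≤ (S.card : ℝ)) :
    ENNReal.ofReal y ≤ (S.card : ENNReal) := by
  rw [← ENNReal.ofReal_natCast]
  exact ENNReal.ofReal_le_ofReal h

theorem transfer (Q : ℕ → Prop) [DecidablePred Q] (E : Set ℝ) (s : ℝ) (hs0 : s ≤ 0) (hs1 : -1 ≤ s)
    (hE : ∀ᶠ n : ℕ in atTop, Q n → Set.Ioo ((n : ℝ) + s) (n + s + 1) ⊆ E)
    (hQ : ∀ η : ℝ, 0 < η → ∀ᶠ N : ℕ in atTop, (N : ℝ) ^ (1 - η) ≤ (((Icc 1 N).filter Q).card : ℝ))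
    (η : ℝ) (hη : 0 < η) : ∃ X₀ : ℝ, ∀ X : ℝ, X₀ ≤ X →
      ENNReal.ofReal (X ^ (1 - η)) ≤ volume {x : ℝ | 8 < x ∧ x ≤ X ∧ x ∈ E} := by
  obtain ⟨n₀, hn₀⟩ := eventually_atTop.1 hE
  obtain ⟨η', hη'⟩ : ∃ η' : ℝ, η' = min η (1 / 2) := ⟨_, rfl⟩
  have h0 : 0 < η' := by rw [hη']; positivity
  have h1 : η' ≤ η := by rw [hη']; exact min_le_left _ _
  have h2 : η' ≤ 1 / 2 := by rw [hη']; exact min_le_right _ _
  have hQ' := hQ (η' / 2) (by positivity)
  have tf : Tendsto (fun X : ℝ => ⌊X⌋₊ - 1) atTop atTop :=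
    (tendsto_sub_atTop_nat 1).comp tendsto_nat_floor_atTop
  have p1 : ∀ᶠ X : ℝ in atTop, (4 : ℝ) ≤ X ^ (η' / 2) :=
    (tendsto_rpow_atTop (by positivity)).eventually_ge_atTop 4
  have p2 : ∀ᶠ X : ℝ in atTop, ((max n₀ 9 : ℕ) : ℝ) ≤ X ^ (1 / 2 : ℝ) :=
    (tendsto_rpow_atTop (by positivity)).eventually_ge_atTop _
  have ev : ∀ᶠ X : ℝ in atTop, ENNReal.ofReal (X ^ (1 - η)) ≤
      volume {x : ℝ | 8 < x ∧ x ≤ X ∧ x ∈ E} := by
    filter_upwards [tf.eventually hQ', p1, p2, eventually_ge_atTop 10] with X g1 g2 g3 g4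
    have hX0 : 0 < X := by linarith
    set N : ℕ := ⌊X⌋₊ - 1 with hN
    have hfl : X < (⌊X⌋₊ : ℝ) + 1 := Nat.lt_floor_add_one X
    have hfl' : (⌊X⌋₊ : ℝ) ≤ X := Nat.floor_le hX0.le
    have hfl1 : 1 ≤ ⌊X⌋₊ := Nat.le_floor (by push_cast; linarith)
    have hNr : (N : ℝ) = (⌊X⌋₊ : ℝ) - 1 := by
      rw [hN, Nat.cast_sub hfl1]
      simp
    have hN2 : X / 2 ≤ N := by linarith
    set S : Finset ℕ := ((Icc 1 N).filter Q).filter (fun n => max n₀ 9 ≤ n) with hS
    have hcard : ((Icc 1 N).filter Q).card ≤ S.card + max n₀ 9 := by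
      have h3 : ((Icc 1 N).filter Q) ⊆ S ∪ Finset.range (max n₀ 9) := by
        intro n hn
        rw [Finset.mem_union, hS, Finset.mem_filter, Finset.mem_range]
        by_cases h : max n₀ 9 ≤ n
        · exact Or.inl ⟨hn, h⟩
        · exact Or.inr (by omega)
      calc _ ≤ (S ∪ Finset.range (max n₀ 9)).card := Finset.card_le_card h3
        _ ≤ S.card + (Finset.range (max n₀ 9)).card := Finset.card_union_le _ _
        _ = _ := by rw [Finset.card_range]
    have hcard' : (((Icc 1 N).filter Q).card : ℝ) ≤ (S.card : ℝ) + ((max n₀ 9 : ℕ) : ℝ) := by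
      exact_mod_cast hcard
    have h3 : X ^ (1 - η) ≤ X ^ (1 - η') :=
      Real.rpow_le_rpow_of_exponent_le (by linarith) (by linarith)
    have h4 : X ^ (1 / 2 : ℝ) ≤ X ^ (1 - η') :=
      Real.rpow_le_rpow_of_exponent_le (by linarith) (by linarith)
    have h5 : (X / 2) ^ (1 - η' / 2) ≤ (N : ℝ) ^ (1 - η' / 2) :=
      Real.rpow_le_rpow (by positivity) hN2 (by linarith)
    have h6 : (X / 2) ^ (1 - η' / 2) = X ^ (1 - η' / 2) / 2 ^ (1 - η' / 2) :=
      Real.div_rpow hX0.le (by norm_num) _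
    have h7 : (2 : ℝ) ^ (1 - η' / 2) ≤ 2 := by
      calc (2 : ℝ) ^ (1 - η' / 2) ≤ 2 ^ (1 : ℝ) :=
            Real.rpow_le_rpow_of_exponent_le (by norm_num) (by linarith)
        _ = 2 := Real.rpow_one 2
    have h8 : X ^ (1 - η' / 2) / 2 ≤ X ^ (1 - η' / 2) / 2 ^ (1 - η' / 2) :=
      div_le_div_of_nonneg_left (by positivity) (by positivity) h7
    have h9 : X ^ (1 - η' / 2) = X ^ (1 - η') * X ^ (η' / 2) := by
      rw [← Real.rpow_add hX0]; congr 1; ring
    have h10 : 0 < X ^ (1 - η') := by positivity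
    have h11 : X ^ (1 - η') * 4 ≤ X ^ (1 - η') * X ^ (η' / 2) :=
      mul_le_mul_of_nonneg_left g2 h10.le
    have hSc : X ^ (1 - η) ≤ (S.card : ℝ) := by linarith
    refine (ofReal_le_card hSc).trans (vol_ge S s _ fun n hn x hx => ?_)
    rw [hS, Finset.mem_filter, Finset.mem_filter, Finset.mem_Icc] at hn
    obtain ⟨⟨⟨k1, k2⟩, k3⟩, k4⟩ := hn
    have k5 : n₀ ≤ n := (le_max_left _ _).trans k4
    have k6 : 9 ≤ n := (le_max_right _ _).trans k4
    have k6' : (9 : ℝ) ≤ n := by exact_mod_cast k6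
    have k2' : (n : ℝ) ≤ N := by exact_mod_cast k2
    refine ⟨?_, ?_, hn₀ n k5 k3 hx⟩
    · linarith [hx.1]
    · linarith [hx.2]
  exact eventually_atTop.1 ev


/-- real points after an integer with few primes in all windows -/
lemma few_point (κ κ2 C : ℝ) (hκ2 : 0 < κ2) (hκ : κ2 < κ) (hC : 0 < C) :
    ∀ᶠ n : ℕ in atTop, Few κ2 (C + 1) n → Set.Ioo ((n : ℝ) + 0) (n + 0 + 1) ⊆
      {x : ℝ | ∀ u : ℝ, 0 < u → u ≤ C * Real.log x ^ 2 →
        (primesIn x (x + u) : ℝ) ≤ κ * (u / Real.log x)} := by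
  obtain ⟨ρ, hρ, hρ1, hρ2⟩ : ∃ ρ : ℝ, 0 < ρ ∧ ρ ≤ 1 ∧ κ2 * (3 * ρ) ≤ κ - κ2 := by
    refine ⟨min 1 ((κ - κ2) / (3 * κ2)), ?_, min_le_left _ _, ?_⟩
    · have : 0 < (κ - κ2) / (3 * κ2) := div_pos (by linarith) (by linarith)
      positivity
    · have h1 : min 1 ((κ - κ2) / (3 * κ2)) ≤ (κ - κ2) / (3 * κ2) := min_le_right _ _
      rw [le_div_iff₀ (by positivity)] at h1
      linarith
  filter_upwards [ev_sq 1 (2 * C) C one_pos, tlog.eventually_ge_atTop (1 / ρ),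
    tlog.eventually_ge_atTop (κ2 * (1 / ρ + 1)), eventually_ge_atTop 2] with n g1 g2 g3 g4 hn
  intro x hx u hu hu2
  rw [add_zero] at hx
  obtain ⟨x1, x2⟩ := hx
  set L := Real.log (n : ℝ) with hL
  have hn2 : (2 : ℝ) ≤ n := by exact_mod_cast g4
  have hL0 : 0 < L := Real.log_pos (by linarith)
  have hlx0 : L ≤ Real.log x := Real.log_le_log (by linarith) x1.le
  have hlx : Real.log x ≤ L + 1 := by
    have h3 : Real.log x ≤ Real.log (2 * n) := Real.log_le_log (by linarith) (by linarith)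
    rw [Real.log_mul (by norm_num) (by linarith)] at h3
    have := Real.log_two_lt_d9
    linarith
  have hρL : 1 ≤ ρ * L := by
    rw [div_le_iff₀ hρ] at g2
    linarith
  have hlx2 : Real.log x ≤ (1 + ρ) * L := by linarith
  have hlxp : 0 < Real.log x := by linarith
  obtain ⟨k, hk⟩ : ∃ k : ℕ, k = ⌈u⌉₊ := ⟨_, rfl⟩
  have hk1 : u ≤ k := by rw [hk]; exact Nat.le_ceil u
  have hk2 : (k : ℝ) < u + 1 := by rw [hk]; exact Nat.ceil_lt_add_one hu.le
  have hk0 : 1 ≤ k := by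
    have : (0 : ℝ) < k := by linarith
    exact_mod_cast this
  have hle : primesIn x (x + u) ≤ cn PP n (n + k) := by
    unfold primesIn cn
    rw [Set.ncard_eq_toFinset_card _ (primesIn_finite _ _)]
    apply Finset.card_le_card
    intro p hp
    rw [Set.Finite.mem_toFinset] at hp
    obtain ⟨k1, k2, k3⟩ := hp
    simp only [Finset.mem_filter, Finset.mem_Ioc]
    have k4 : n < p := by
      have : (n : ℝ) < p := by linarith
      exact_mod_cast this
    refine ⟨⟨k4, ?_⟩, k1⟩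
    have k5 : (p : ℝ) < n + k + 1 := by linarith
    have k6 : p < n + k + 1 := by exact_mod_cast k5
    omega
  have hle' : (primesIn x (x + u) : ℝ) ≤ cn PP n (n + k) := by exact_mod_cast hle
  have hF := hn k hk0 (by
    have h1 : C * Real.log x ^ 2 ≤ C * (L + 1) ^ 2 :=
      mul_le_mul_of_nonneg_left (pow_le_pow_left₀ hlxp.le hlx 2) hC.le
    calc (k : ℝ) ≤ C * (L + 1) ^ 2 + 1 := by linarith
      _ = C * L ^ 2 + (2 * C * L + C) + 1 := by ring
      _ ≤ C * L ^ 2 + 1 * L ^ 2 + 1 := by linarith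
      _ = (C + 1) * L ^ 2 + 1 := by ring)
  rw [← hL] at hF
  by_cases hcase : κ2 * (u + 1) < L
  · have h2 : (cn PP n (n + k) : ℝ) * L < 1 * L := by
      have : κ2 * (k : ℝ) ≤ κ2 * (u + 1) := mul_le_mul_of_nonneg_left hk2.le hκ2.le
      linarith
    have h3 : (cn PP n (n + k) : ℝ) < 1 := lt_of_mul_lt_mul_right h2 hL0.le
    have h4 : cn PP n (n + k) = 0 := by
      have : cn PP n (n + k) < 1 := by exact_mod_cast h3
      omega
    rw [h4] at hle'
    have : 0 ≤ κ * (u / Real.log x) := by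
      have : 0 < κ := by linarith
      positivity
    push_cast at hle'
    linarith
  · push Not at hcase
    have h5 : 1 / ρ + 1 ≤ u + 1 := by
      have : κ2 * (1 / ρ + 1) ≤ κ2 * (u + 1) := by linarith
      exact le_of_mul_le_mul_left this hκ2
    have h6 : 1 ≤ ρ * u := by
      have h7 : 1 / ρ ≤ u := by linarith
      rw [div_le_iff₀ hρ] at h7
      linarith
    refine hle'.trans ?_
    rw [← mul_div_assoc, le_div_iff₀ hlxp]
    calc (cn PP n (n + k) : ℝ) * Real.log x ≤ cn PP n (n + k) * ((1 + ρ) * L) :=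
          mul_le_mul_of_nonneg_left hlx2 (Nat.cast_nonneg _)
      _ = (1 + ρ) * (cn PP n (n + k) * L) := by ring
      _ ≤ (1 + ρ) * (κ2 * k) := mul_le_mul_of_nonneg_left hF (by linarith)
      _ ≤ (1 + ρ) * (κ2 * ((1 + ρ) * u)) := by
          apply mul_le_mul_of_nonneg_left _ (by linarith)
          apply mul_le_mul_of_nonneg_left _ hκ2.le
          linarith
      _ = (κ2 + κ2 * (2 * ρ) + κ2 * (ρ * ρ)) * u := by ring
      _ ≤ κ * u := by
          apply mul_le_mul_of_nonneg_right _ hu.le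
          have : κ2 * (ρ * ρ) ≤ κ2 * (ρ * 1) :=
            mul_le_mul_of_nonneg_left (mul_le_mul_of_nonneg_left hρ1 hρ.le) hκ2.le
          linarith

/-- **real `x`** -/
theorem few_real_all (κ C η : ℝ) (hκ : Real.exp Real.eulerMascheroniConstant / 2 < κ) (hC : 0 < C)
    (hη : 0 < η) : ∃ X₀ : ℝ, ∀ X : ℝ, X₀ ≤ X → ENNReal.ofReal (X ^ (1 - η)) ≤
      volume {x : ℝ | 8 < x ∧ x ≤ X ∧ x ∈ {x : ℝ | ∀ u : ℝ, 0 < u → u ≤ C * Real.log x ^ 2 →
        (primesIn x (x + u) : ℝ) ≤ κ * (u / Real.log x)}} := by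
  classical
  have hE0 : 0 < Real.exp Real.eulerMascheroniConstant := Real.exp_pos _
  obtain ⟨κ1, h1, h2⟩ := exists_between hκ
  have hκ1 : 0 < κ1 := lt_trans (by positivity) h1
  exact transfer (Few κ1 (C + 1)) _ 0 le_rfl (by norm_num) (few_point κ κ1 C hκ1 h2 hC)
    (few_all κ1 (C + 1) h1 (by linarith)) η hη

/-- gaps after a prime with many primes after it -/
lemma run_many {i : ℕ} {κ C C' : ℝ} (hκ : 0 < κ) (hC : 0 ≤ C') (hCC : C ≤ κ * C')
    (h : Many κ C' (pr i)) : ∀ j : ℕ, 1 ≤ j → (j : ℝ) ≤ C * Real.log (pr i) →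
      κ * ((pr (i + j) : ℝ) - pr i) ≤ j * Real.log (pr i) := by
  intro j hj hjC
  have hp2 : 2 ≤ pr i := (pr_prime i).two_le
  have hl0 : 0 < Real.log (pr i : ℝ) := Real.log_pos (by exact_mod_cast hp2)
  set l := Real.log (pr i : ℝ) with hl
  have hlt : pr i < pr (i + j) := (Nat.nth_strictMono Nat.infinite_setOfPred_prime) (by omega)
  obtain ⟨D, hD⟩ : ∃ D : ℕ, D = pr (i + j) - pr i := ⟨_, rfl⟩
  have hDr : (D : ℝ) = (pr (i + j) : ℝ) - pr i := by rw [hD, Nat.cast_sub hlt.le]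
  have hrc : cn PP (pr i - 1) (pr (i + j) - 1) = j := run_count i j
  rw [← hDr]
  by_cases hcase : (D : ℝ) ≤ C' * l ^ 2 + 1
  · have h1 := h.2 D (by omega) hcase
    have e : pr i - 1 + D = pr (i + j) - 1 := by omega
    rw [e, hrc] at h1
    exact h1
  · exfalso
    push Not at hcase
    have hCl : 0 ≤ C' * l ^ 2 := by positivity
    obtain ⟨u, hu⟩ : ∃ u : ℕ, u = ⌊C' * l ^ 2⌋₊ + 1 := ⟨_, rfl⟩
    have hu1 : C' * l ^ 2 < u := by rw [hu]; push_cast; exact Nat.lt_floor_add_one _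
    have hu2 : (u : ℝ) ≤ C' * l ^ 2 + 1 := by
      rw [hu]
      push_cast
      linarith [Nat.floor_le hCl]
    have h1 := h.2 u (by omega) hu2
    have huD : u ≤ D := by
      have : (u : ℝ) < D := by linarith
      exact_mod_cast this.le
    have h2 : cn PP (pr i - 1) (pr i - 1 + u) ≤ j := by
      rw [← hrc]
      exact cn_mono PP le_rfl (by omega)
    have h3 : (cn PP (pr i - 1) (pr i - 1 + u) : ℝ) * l ≤ j * l :=
      mul_le_mul_of_nonneg_right (by exact_mod_cast h2) hl0.le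
    have h4 : (j : ℝ) * l ≤ C * l * l := mul_le_mul_of_nonneg_right hjC hl0.le
    have h5 : κ * (C' * l ^ 2) < κ * u := mul_lt_mul_of_pos_left hu1 hκ
    have h6 : C * (l * l) ≤ κ * C' * (l * l) := mul_le_mul_of_nonneg_right hCC (by positivity)
    have h7 : κ * (C' * l ^ 2) = κ * C' * (l * l) := by ring
    linarith

/-- gaps after a prime with few primes after it -/
lemma run_few {i : ℕ} {κ C C' : ℝ} (hκ : 0 < κ) (hCC : C ≤ κ * C')
    (h : Few κ C' (pr i)) : ∀ j : ℕ, 1 ≤ j → (j : ℝ) ≤ C * Real.log (pr i) →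
      j * Real.log (pr i) ≤ κ * ((pr (i + j) : ℝ) - pr i) := by
  intro j hj hjC
  have hp2 : 2 ≤ pr i := (pr_prime i).two_le
  have hl0 : 0 < Real.log (pr i : ℝ) := Real.log_pos (by exact_mod_cast hp2)
  set l := Real.log (pr i : ℝ) with hl
  have hlt : pr i < pr (i + j) := (Nat.nth_strictMono Nat.infinite_setOfPred_prime) (by omega)
  obtain ⟨D, hD⟩ : ∃ D : ℕ, D = pr (i + j) - pr i := ⟨_, rfl⟩
  have hDr : (D : ℝ) = (pr (i + j) : ℝ) - pr i := by rw [hD, Nat.cast_sub hlt.le]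
  have hrc : cn PP (pr i) (pr (i + j)) = j := run_count' i j
  rw [← hDr]
  by_cases hcase : (D : ℝ) ≤ C' * l ^ 2 + 1
  · have h1 := h D (by omega) hcase
    have e : pr i + D = pr (i + j) := by omega
    rw [e, hrc] at h1
    exact h1
  · push Not at hcase
    have h4 : (j : ℝ) * l ≤ C * l * l := mul_le_mul_of_nonneg_right hjC hl0.le
    have h5 : κ * (C' * l ^ 2) ≤ κ * D := mul_le_mul_of_nonneg_left (by linarith) hκ.le
    have h6 : C * (l * l) ≤ κ * C' * (l * l) := mul_le_mul_of_nonneg_right hCC (by positivity)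
    have h7 : κ * (C' * l ^ 2) = κ * C' * (l * l) := by ring
    linarith

/-- the last prime up to a point with few primes after it -/
lemma few_prime {κ C : ℝ} (hC : 0 ≤ C) {x N : ℕ} (hx : pr N ≤ x) (h : Few κ C x) :
    ∃ i : ℕ, N ≤ i ∧ Few κ C (pr i) := by
  obtain ⟨c, hc⟩ : ∃ c, c = Nat.count Nat.Prime (x + 1) := ⟨_, rfl⟩
  have hcN : N + 1 ≤ c := by
    rw [hc, ← count_pr_succ N]
    exact Nat.count_monotone _ (by omega)
  obtain ⟨i, hi⟩ : ∃ i, c = i + 1 := ⟨c - 1, by omega⟩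
  have hix : pr i ≤ x := by
    have h7 : pr i < x + 1 := by
      unfold pr
      apply Nat.nth_lt_of_lt_count
      rw [← hc, hi]
      exact Nat.lt_succ_self i
    omega
  have hno : cn PP (pr i) x = 0 := by
    have h2 := cn_count hix
    rw [count_pr_succ, ← hc, hi] at h2
    omega
  have hp2 : 2 ≤ pr i := (pr_prime i).two_le
  have hp2r : (2 : ℝ) ≤ pr i := by exact_mod_cast hp2
  have hl0 : 0 < Real.log (pr i : ℝ) := Real.log_pos (by linarith)
  have hll : Real.log (pr i : ℝ) ≤ Real.log x :=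
    Real.log_le_log (by linarith) (by exact_mod_cast hix)
  refine ⟨i, by omega, fun u hu1 hu2 => ?_⟩
  have h3 := h u hu1 (hu2.trans (by
    have : C * Real.log (pr i : ℝ) ^ 2 ≤ C * Real.log x ^ 2 :=
      mul_le_mul_of_nonneg_left (pow_le_pow_left₀ hl0.le hll 2) hC
    linarith))
  refine le_trans ?_ h3
  have h4 : cn PP (pr i) (pr i + u) ≤ cn PP x (x + u) := by
    by_cases hux : pr i + u ≤ x
    · have := cn_mono PP (le_refl (pr i)) hux
      omega
    · rw [cn_add PP hix (by omega : x ≤ pr i + u), hno, zero_add]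
      exact cn_mono PP le_rfl (by omega)
  exact mul_le_mul (by exact_mod_cast h4) hll hl0.le (Nat.cast_nonneg _)

/-- **runs with many primes** -/
theorem runs_many (κ C η : ℝ) (hκ0 : 0 < κ) (hκ : κ < 1.07) (hC : 0 < C) (hη : 0 < η) :
    ∀ᶠ N : ℕ in atTop, (N : ℝ) ^ (1 - η) ≤
      ({i : ℕ | pr i ≤ N ∧ ∀ j : ℕ, 1 ≤ j → (j : ℝ) ≤ C * Real.log (pr i) →
        κ * ((pr (i + j) : ℝ) - pr i) ≤ j * Real.log (pr i)}.ncard : ℝ) := by
  classical
  filter_upwards [many_all κ (C / κ) hκ0 hκ (by positivity) η hη] with N hN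
  refine hN.trans ?_
  have hfin : {i : ℕ | pr i ≤ N ∧ ∀ j : ℕ, 1 ≤ j → (j : ℝ) ≤ C * Real.log (pr i) →
      κ * ((pr (i + j) : ℝ) - pr i) ≤ j * Real.log (pr i)}.Finite := by
    apply (Finset.finite_toSet (Finset.range (N + 1))).subset
    intro i hi
    rw [Finset.mem_coe, Finset.mem_range]
    have h5 : i ≤ pr i := (Nat.nth_strictMono Nat.infinite_setOfPred_prime).id_le i
    have := hi.1
    omega
  have hinj : Set.InjOn (Nat.count Nat.Prime) (((Icc 1 N).filter (Many κ (C / κ)) : Finset ℕ) : Set ℕ) := by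
    intro a ha b hb hab
    rw [Finset.mem_coe, Finset.mem_filter] at ha hb
    exact Nat.count_injective ha.2.1 hb.2.1 hab
  rw [← Finset.card_image_of_injOn hinj, ← Set.ncard_coe_finset]
  have := Set.ncard_le_ncard (s := ((((Icc 1 N).filter (Many κ (C / κ))).image
      (Nat.count Nat.Prime) : Finset ℕ) : Set ℕ)) (t := {i : ℕ | pr i ≤ N ∧ ∀ j : ℕ, 1 ≤ j →
        (j : ℝ) ≤ C * Real.log (pr i) →
      κ * ((pr (i + j) : ℝ) - pr i) ≤ j * Real.log (pr i)}) (by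
    intro i hi
    rw [Finset.mem_coe, Finset.mem_image] at hi
    obtain ⟨x, hx, rfl⟩ := hi
    rw [Finset.mem_filter, Finset.mem_Icc] at hx
    have e : pr (Nat.count Nat.Prime x) = x := Nat.nth_count hx.2.1
    refine ⟨by rw [e]; exact hx.1.2, ?_⟩
    exact run_many (C' := C / κ) hκ0 (by positivity) (le_of_eq (by field_simp))
      (by rw [e]; exact hx.2)) hfin
  exact_mod_cast this

/-- **runs with few primes** -/
theorem runs_few (κ C : ℝ) (hκ : Real.exp Real.eulerMascheroniConstant / 2 < κ) (hC : 0 < C) :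
    ∃ᶠ i : ℕ in atTop, ∀ j : ℕ, 1 ≤ j → (j : ℝ) ≤ C * Real.log (pr i) →
      j * Real.log (pr i) ≤ κ * ((pr (i + j) : ℝ) - pr i) := by
  classical
  have hE0 : 0 < Real.exp Real.eulerMascheroniConstant := Real.exp_pos _
  have hκ0 : 0 < κ := lt_trans (by positivity) hκ
  rw [frequently_atTop]
  intro n
  have h1 := few_all κ (C / κ) hκ (by positivity) (1 / 2) (by norm_num)
  have h2 : ∀ᶠ N : ℕ in atTop, ((pr n : ℕ) : ℝ) + 1 ≤ (N : ℝ) ^ (1 - 1 / 2 : ℝ) :=
    ((tendsto_rpow_atTop (by norm_num)).comp tendsto_natCast_atTop_atTop).eventually_ge_atTop _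
  obtain ⟨N, g1, g2⟩ := (h1.and h2).exists
  have g3 : pr n + 1 ≤ ((Icc 1 N).filter (Few κ (C / κ))).card := by
    have := g2.trans g1
    exact_mod_cast this
  obtain ⟨x, hx, hxn⟩ : ∃ x ∈ (Icc 1 N).filter (Few κ (C / κ)), pr n ≤ x := by
    by_contra hcon
    push Not at hcon
    have h4 : (Icc 1 N).filter (Few κ (C / κ)) ⊆ Finset.range (pr n) := fun x hx =>
      Finset.mem_range.2 (hcon x hx)
    have h5 := Finset.card_le_card h4
    rw [Finset.card_range] at h5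
    omega
  rw [Finset.mem_filter] at hx
  obtain ⟨i, hi1, hi2⟩ := few_prime (by positivity) hxn hx.2
  exact ⟨i, hi1, run_few hκ0 (C' := C / κ) (le_of_eq (by field_simp)) hi2⟩

/-- **primes, real windows** -/
theorem many_real_all (κ C η : ℝ) (hκ0 : 0 < κ) (hκ : κ < 1.07) (hC : 0 < C) (hη : 0 < η) :
    ∀ᶠ N : ℕ in atTop, (N : ℝ) ^ (1 - η) ≤
      ({p : ℕ | p.Prime ∧ p ≤ N ∧ ∀ u : ℝ, 0 < u → u ≤ C * Real.log p ^ 2 →
        κ * (u / Real.log p) ≤
          ({q : ℕ | q.Prime ∧ p ≤ q ∧ (q : ℝ) < p + u}.ncard : ℝ)}.ncard : ℝ) := by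
  classical
  filter_upwards [many_all κ C hκ0 hκ hC η hη] with N hN
  refine hN.trans ?_
  rw [← Set.ncard_coe_finset]
  have := Set.ncard_le_ncard (s := (((Icc 1 N).filter (Many κ C) : Finset ℕ) : Set ℕ))
    (t := {p : ℕ | p.Prime ∧ p ≤ N ∧ ∀ u : ℝ, 0 < u → u ≤ C * Real.log p ^ 2 →
        κ * (u / Real.log p) ≤ ({q : ℕ | q.Prime ∧ p ≤ q ∧ (q : ℝ) < p + u}.ncard : ℝ)}) (by
    intro p hp
    rw [Finset.mem_coe, Finset.mem_filter, Finset.mem_Icc] at hp
    obtain ⟨⟨h1, h2⟩, h3, h4⟩ := hp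
    refine ⟨h3, h2, fun u hu hu2 => ?_⟩
    have hp2 : 2 ≤ p := h3.two_le
    have hl0 : 0 < Real.log (p : ℝ) := Real.log_pos (by exact_mod_cast hp2)
    have e0 : ({q : ℕ | q.Prime ∧ p ≤ q ∧ (q : ℝ) < p + u}.ncard : ℝ) =
        cn PP (p - 1) (p - 1 + ⌈u⌉₊) := by
      have := ncard_Ico PP h1 hu
      exact_mod_cast this
    rw [e0]
    have hf : u ≤ ⌈u⌉₊ := Nat.le_ceil u
    have hf' : (⌈u⌉₊ : ℝ) < u + 1 := Nat.ceil_lt_add_one hu.le
    have h0 : 1 ≤ ⌈u⌉₊ := by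
      have : (0 : ℝ) < ⌈u⌉₊ := by linarith
      exact_mod_cast this
    have h5 := h4 ⌈u⌉₊ h0 (by linarith)
    rw [← mul_div_assoc, div_le_iff₀ hl0]
    exact (mul_le_mul_of_nonneg_left hf hκ0.le).trans h5)
    ((Finset.finite_toSet (Finset.range (N + 1))).subset fun p hp => by
      rw [Finset.mem_coe, Finset.mem_range]
      have := hp.2.1
      omega)
  exact_mod_cast this

end Pool.Agent.V5helper33.PR
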